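import Pool.Agent.Lib_MP_cd200f_c3.Defs

/-!
# C2: normal form of the data in characteristic 3
-/

set_option autoImplicit false

namespace Pool.Agent.RegPack.C3

open Module

/-- the polynomial identity -/
theorem om_identity {K : Type*} [CommRing K] (h3 : (3 : K) = 0) (ω u v c r θ : K)
    (hω : ω ^ 3 - ω - θ = 0) (s0 s1 s2 g0 g1 g2 : K) (hs0 : s0 = ω ^ 2 + c)
    (hs1 : s1 = (ω + 1) ^ 2 + c) (hs2 : s2 = (ω + 2) ^ 2 + c)
    (hg0 : g0 = u * ω - v * ω ^ 2 + v * c + r)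
    (hg1 : g1 = u * (ω + 1) - v * (ω + 1) ^ 2 + v * c + r)
    (hg2 : g2 = u * (ω + 2) - v * (ω + 2) ^ 2 + v * c + r) :
    s0 * (g1 * g2 * (g1 * g2 - g0 * (g1 + g2))) + s1 * (g2 * g0 * (g2 * g0 - g1 * (g2 + g0))) +
      s2 * (g0 * g1 * (g0 * g1 - g2 * (g0 + g1))) =
      r ^ 4 + (θ * u ^ 3 + u ^ 2 * v + (c ^ 3 - θ ^ 2 - 1) * v ^ 3) * r +
        (u ^ 3 - u * v ^ 2 + θ * v ^ 3) * (c * u - θ * v) := by
  subst hs0 hs1 hs2 hg0 hg1 hg2
  linear_combination ((-ω^10*v^4) + (4)*ω^9*u*v^3 + (-10)*ω^9*v^4 + (-6)*ω^8*u^2*v^2 + (36)*ω^8*u*v^3 +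
      (3)*ω^8*v^4*c + (-43)*ω^8*v^4 + (4)*ω^8*v^3*r + (4)*ω^7*u^3*v + (-48)*ω^7*u^2*v^2 +
      (-8)*ω^7*u*v^3*c + (140)*ω^7*u*v^3 + (-12)*ω^7*u*v^2*r + (24)*ω^7*v^4*c + (-104)*ω^7*v^4 +
      (32)*ω^7*v^3*r + (-ω^6*u^4) + (28)*ω^6*u^3*v + (6)*ω^6*u^2*v^2*c + (-166)*ω^6*u^2*v^2 +
      (12)*ω^6*u^2*v*r + (-56)*ω^6*u*v^3*c + (308)*ω^6*u*v^3 + (-84)*ω^6*u*v^2*r +
      (-2)*ω^6*v^4*c^2 + (92)*ω^6*v^4*c + (-155)*ω^6*v^4 + (-8)*ω^6*v^3*c*r + (115)*ω^6*v^3*r +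
      (-6)*ω^6*v^2*r^2 + (-6)*ω^5*u^4 + (84)*ω^5*u^3*v + (-4)*ω^5*u^3*r + (36)*ω^5*u^2*v^2*c +
      (-324)*ω^5*u^2*v^2 + (72)*ω^5*u^2*v*r + (-196)*ω^5*u*v^3*c + (422)*ω^5*u*v^3 +
      (12)*ω^5*u*v^2*c*r + (-264)*ω^5*u*v^2*r + (12)*ω^5*u*v*r^2 + (-12)*ω^5*v^4*c^2 +
      (216)*ω^5*v^4*c + (-148)*ω^5*v^4 + (-48)*ω^5*v^3*c*r + (240)*ω^5*v^3*r + (-36)*ω^5*v^2*r^2
      + (-ω^4*u^4*c) + (-15)*ω^4*u^4 + (140)*ω^4*u^3*v + (-20)*ω^4*u^3*r + (6)*ω^4*u^2*v^2*c^2 +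
      (120)*ω^4*u^2*v^2*c + (-388)*ω^4*u^2*v^2 + (192)*ω^4*u^2*v*r + (-6)*ω^4*u^2*r^2 +
      (-420)*ω^4*u*v^3*c + (374)*ω^4*u*v^3 + (60)*ω^4*u*v^2*c*r + (-480)*ω^4*u*v^2*r +
      (60)*ω^4*u*v*r^2 + (-2)*ω^4*v^4*c^3 + (-50)*ω^4*v^4*c^2 + (338)*ω^4*v^4*c + (-90)*ω^4*v^4
      + (-152)*ω^4*v^3*c*r + (324)*ω^4*v^3*r + (6)*ω^4*v^2*c*r^2 + (-102)*ω^4*v^2*r^2 +
      (4)*ω^4*v*r^3 + (-4)*ω^3*u^4*c + (-20)*ω^3*u^4 + (-4)*ω^3*u^3*v*c^2 + (-12)*ω^3*u^3*v*c +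
      (137)*ω^3*u^3*v + (-4)*ω^3*u^3*c*r + (-43)*ω^3*u^3*r + (24)*ω^3*u^2*v^2*c^2 +
      (240)*ω^3*u^2*v^2*c + (-288)*ω^3*u^2*v^2 + (288)*ω^3*u^2*v*r + (-24)*ω^3*u^2*r^2 +
      (8)*ω^3*u*v^3*c^3 + (36)*ω^3*u*v^3*c^2 + (-567)*ω^3*u*v^3*c + (213)*ω^3*u*v^3 +
      (12)*ω^3*u*v^2*c^2*r + (176)*ω^3*u*v^2*c*r + (-540)*ω^3*u*v^2*r + (140)*ω^3*u*v*r^2 +
      (-4)*ω^3*u*r^3 + (-8)*ω^3*v^4*c^3 + (-120)*ω^3*v^4*c^2 + (360)*ω^3*v^4*c + (-32)*ω^3*v^4 +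
      (-288)*ω^3*v^3*c*r + (296)*ω^3*v^3*r + (24)*ω^3*v^2*c*r^2 + (-168)*ω^3*v^2*r^2 +
      (16)*ω^3*v*r^3 + (-4)*ω^2*u^4*c + (-14)*ω^2*u^4 + (-12)*ω^2*u^3*v*c^2 + (-36)*ω^2*u^3*v*c
      + (74)*ω^2*u^3*v + (-12)*ω^2*u^3*c*r + (-48)*ω^2*u^3*r + (-6)*ω^2*u^2*v^2*c^3 +
      (18)*ω^2*u^2*v^2*c^2 + (270)*ω^2*u^2*v^2*c + (-124)*ω^2*u^2*v^2 + (-12)*ω^2*u^2*v*c^2*r +
      (-24)*ω^2*u^2*v*c*r + (246)*ω^2*u^2*v*r + (-6)*ω^2*u^2*c*r^2 + (-42)*ω^2*u^2*r^2 +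
      (24)*ω^2*u*v^3*c^3 + (108)*ω^2*u*v^3*c^2 + (-468)*ω^2*u*v^3*c + (72)*ω^2*u*v^3 +
      (36)*ω^2*u*v^2*c^2*r + (288)*ω^2*u*v^2*c*r + (-372)*ω^2*u*v^2*r + (180)*ω^2*u*v*r^2 +
      (-12)*ω^2*u*r^3 + (3)*ω^2*v^4*c^4 + (-4)*ω^2*v^4*c^3 + (-146)*ω^2*v^4*c^2 +
      (248)*ω^2*v^4*c + (-5)*ω^2*v^4 + (8)*ω^2*v^3*c^3*r + (24)*ω^2*v^3*c^2*r +
      (-308)*ω^2*v^3*c*r + (179)*ω^2*v^3*r + (6)*ω^2*v^2*c^2*r^2 + (60)*ω^2*v^2*c*r^2 +
      (-162)*ω^2*v^2*r^2 + (32)*ω^2*v*r^3 + (-ω^2*r^4) + (-4)*ω*u^4 + (-8)*ω*u^3*v*c^2 +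
      (-36)*ω*u^3*v*c + (17)*ω*u^3*v + (-8)*ω*u^3*c*r + (-25)*ω*u^3*r + (-12)*ω*u^2*v^2*c^3 +
      (-12)*ω*u^2*v^2*c^2 + (156)*ω*u^2*v^2*c + (-24)*ω*u^2*v^2 + (-24)*ω*u^2*v*c^2*r +
      (-48)*ω*u^2*v*c*r + (108)*ω*u^2*v*r + (-12)*ω*u^2*c*r^2 + (-36)*ω*u^2*r^2 +
      (-4)*ω*u*v^3*c^4 + (20)*ω*u*v^3*c^3 + (102)*ω*u*v^3*c^2 + (-213)*ω*u*v^3*c + (11)*ω*u*v^3
      + (-12)*ω*u*v^2*c^3*r + (24)*ω*u*v^2*c^2*r + (220)*ω*u*v^2*c*r + (-144)*ω*u*v^2*r +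
      (-12)*ω*u*v*c^2*r^2 + (-12)*ω*u*v*c*r^2 + (118)*ω*u*v*r^2 + (-4)*ω*u*c*r^3 + (-16)*ω*u*r^3
      + (6)*ω*v^4*c^4 + (8)*ω*v^4*c^3 + (-84)*ω*v^4*c^2 + (96)*ω*v^4*c + (16)*ω*v^3*c^3*r +
      (48)*ω*v^3*c^2*r + (-168)*ω*v^3*c*r + (64)*ω*v^3*r + (12)*ω*v^2*c^2*r^2 + (72)*ω*v^2*c*r^2
      + (-84)*ω*v^2*r^2 + (32)*ω*v*r^3 + (-2)*ω*r^4 + u^4*c + (-12)*u^3*v*c + (-4)*u^3*r +
      (-4)*u^2*v^2*c^3 + (-10)*u^2*v^2*c^2 + (35)*u^2*v^2*c + (-8)*u^2*v*c^2*r + (-20)*u^2*v*c*r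
      + (17)*u^2*v*r + (-4)*u^2*c*r^2 + (-10)*u^2*r^2 + (-4)*u*v^3*c^4 + (4)*u*v^3*c^3 +
      (30)*u*v^3*c^2 + (-40)*u*v^3*c + (-12)*u*v^2*c^3*r + (60)*u*v^2*c*r + (-24)*u*v^2*r +
      (-12)*u*v*c^2*r^2 + (-12)*u*v*c*r^2 + (30)*u*v*r^2 + (-4)*u*c*r^3 + (-8)*u*r^3 +
      (-v^4*c^5) + (5)*v^4*c^4 + (6)*v^4*c^3 + (-20)*v^4*c^2 + (16)*v^4*c + (-4)*v^3*c^4*r +
      (13)*v^3*c^3*r + (26)*v^3*c^2*r + (-40)*v^3*c*r + (11)*v^3*r + (-6)*v^2*c^3*r^2 +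
      (10)*v^2*c^2*r^2 + (34)*v^2*c*r^2 + (-20)*v^2*r^2 + (-4)*v*c^2*r^3 + (14)*v*r^3 + (-c*r^4)
      + (-2)*r^4) * h3 +
    ((-ω^3*v^4) + (-ω^3*v^3*r) + ω*v^4 + ω*v^3*r + (-u^3*v) + u^3*r + u*v^3*c + u*v^3 + (-v^4*θ) + (-v^3*r*θ)) * hω

section

variable {F K : Type*} [Field F] [Fintype F] [Field K] [Algebra F K]

theorem om_finite (hK : finrank F K = 3) : Finite K := by
  have : FiniteDimensional F K := FiniteDimensional.of_finrank_pos (by omega)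
  exact Module.finite_of_finite F

theorem om_pow (hK : finrank F K = 3) (x : K) :
    ((x ^ Fintype.card F) ^ Fintype.card F) ^ Fintype.card F = x := by
  have := om_finite hK
  have := Fintype.ofFinite K
  have h1 : Fintype.card K = Fintype.card F ^ 3 := by
    rw [← hK]
    exact Module.card_eq_pow_finrank
  have h2 := FiniteField.pow_card x
  rw [h1] at h2
  rw [← pow_mul, ← pow_mul]
  convert h2 using 2
  ring

theorem om_trace (hK : finrank F K = 3) (x : K) : algebraMap F K (Algebra.trace F K x) =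
    x + x ^ Fintype.card F + (x ^ Fintype.card F) ^ Fintype.card F := by
  have := om_finite hK
  rw [FiniteField.algebraMap_trace_eq_sum_pow, hK, Finset.sum_range_succ, Finset.sum_range_succ,
    Finset.sum_range_succ, Finset.sum_range_zero, Nat.card_eq_fintype_card, pow_zero, pow_one,
    zero_add, pow_one, pow_two, pow_mul]

theorem om_norm (hK : finrank F K = 3) (x : K) : algebraMap F K (Algebra.norm F x) =
    x * x ^ Fintype.card F * (x ^ Fintype.card F) ^ Fintype.card F := by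
  have := om_finite hK
  rw [FiniteField.algebraMap_norm_eq_prod_pow, hK, Finset.prod_range_succ, Finset.prod_range_succ,
    Finset.prod_range_succ, Finset.prod_range_zero, Nat.card_eq_fintype_card, pow_zero, pow_one,
    one_mul, pow_one, pow_two, pow_mul]

/-- the elements fixed by the Frobenius -/
theorem om_fixed (x : K) (hx : x ^ Fintype.card F = x) : x ∈ Set.range (algebraMap F K) := by
  classical
  set p : Polynomial K := Polynomial.X ^ Fintype.card F - Polynomial.X with hp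
  have hq : 1 < Fintype.card F := Fintype.one_lt_card
  have hdeg : p.natDegree = Fintype.card F := FiniteField.X_pow_card_sub_X_natDegree_eq K hq
  have hp0 : p ≠ 0 := FiniteField.X_pow_card_sub_X_ne_zero K hq
  have hroot : ∀ y : K, y ^ Fintype.card F = y → y ∈ p.roots.toFinset := by
    intro y hy
    rw [Multiset.mem_toFinset, Polynomial.mem_roots hp0, Polynomial.IsRoot.def, hp,
      Polynomial.eval_sub, Polynomial.eval_pow, Polynomial.eval_X, hy, sub_self]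
  have hsub : Finset.univ.image (algebraMap F K) ⊆ p.roots.toFinset := by
    intro y hy
    obtain ⟨z, -, rfl⟩ := Finset.mem_image.1 hy
    apply hroot
    rw [← map_pow, FiniteField.pow_card]
  have hcard : p.roots.toFinset.card ≤ (Finset.univ.image (algebraMap F K)).card := by
    rw [Finset.card_image_of_injective _ (algebraMap F K).injective, Finset.card_univ]
    calc p.roots.toFinset.card ≤ Multiset.card p.roots := Multiset.toFinset_card_le _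
      _ ≤ p.natDegree := Polynomial.card_roots' p
      _ = Fintype.card F := hdeg
  have heq := Finset.eq_of_subset_of_card_le hsub hcard
  have h1 := hroot x hx
  rw [← heq] at h1
  obtain ⟨z, -, hz⟩ := Finset.mem_image.1 h1
  exact ⟨z, hz⟩

theorem om_add (x y : K) : (x + y) ^ Fintype.card F = x ^ Fintype.card F + y ^ Fintype.card F :=
  map_add (FiniteField.frobeniusAlgHom F K) x y

theorem om_sub (x y : K) : (x - y) ^ Fintype.card F = x ^ Fintype.card F - y ^ Fintype.card F :=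
  map_sub (FiniteField.frobeniusAlgHom F K) x y

theorem om_alg (x : F) : (algebraMap F K x) ^ Fintype.card F = algebraMap F K x :=
  AlgHom.commutes (FiniteField.frobeniusAlgHom F K) x

/-- the form `D` -/
theorem om_D (hK : finrank F K = 3) (h3 : (3 : K) = 0) {η β : K}
    (hβ : β = (algebraMap F K (Algebra.trace F K η) - η) ^ 2) (g e0 e1 e2 g0 g1 g2 : K)
    (h0 : e0 = η) (h1 : e1 = e0 ^ Fintype.card F) (h2 : e2 = e1 ^ Fintype.card F)
    (k0 : g0 = g) (k1 : g1 = g0 ^ Fintype.card F) (k2 : g2 = g1 ^ Fintype.card F) :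
    algebraMap F K (D F η β g) =
      e0 ^ 2 * (g1 * g2 * (g1 * g2 - g0 * (g1 + g2))) +
      e1 ^ 2 * (g2 * g0 * (g2 * g0 - g1 * (g2 + g0))) +
      e2 ^ 2 * (g0 * g1 * (g0 * g1 - g2 * (g0 + g1))) := by
  have h2' : e2 ^ Fintype.card F = e0 := by rw [h2, h1]; exact om_pow hK e0
  have k2' : g2 ^ Fintype.card F = g0 := by rw [k2, k1]; exact om_pow hK g0
  have hβ' : β = (e1 + e2) ^ 2 := by
    rw [hβ, om_trace hK, ← h0, ← h1, ← h2]
    ring
  have t1 : algebraMap F K (Algebra.trace F K (η * (g ^ Fintype.card F *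
      g ^ (Fintype.card F * Fintype.card F)))) = e0 * g1 * g2 + e1 * g2 * g0 + e2 * g0 * g1 := by
    rw [om_trace hK, pow_mul, ← h0, ← k0, ← k1, ← k2, mul_pow, mul_pow, ← h1, ← k2, k2', mul_pow,
      mul_pow, ← h2, k2', ← k1]
    ring
  have t2 : algebraMap F K (Algebra.norm F g) = g0 * g1 * g2 := by
    rw [om_norm hK, ← k0, ← k1, ← k2]
  have t3 : algebraMap F K (Algebra.trace F K (β * g)) =
      (e1 + e2) ^ 2 * g0 + (e2 + e0) ^ 2 * g1 + (e0 + e1) ^ 2 * g2 := by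
    have b1 : ((e1 + e2) ^ 2) ^ Fintype.card F = (e2 + e0) ^ 2 := by
      rw [← pow_mul, mul_comm 2, pow_mul, om_add, ← h2, h2']
    have b2 : ((e2 + e0) ^ 2) ^ Fintype.card F = (e0 + e1) ^ 2 := by
      rw [← pow_mul, mul_comm 2, pow_mul, om_add, ← h1, h2']
    rw [om_trace hK, hβ', ← k0, mul_pow, ← k1, mul_pow, ← k2, b1, b2]
  unfold D
  rw [map_sub, map_pow, t1, map_mul, map_mul, t2, t3, map_ofNat]
  linear_combination (-(g0 * g1 * g2 * ((e1 + e2) ^ 2 * g0 + (e2 + e0) ^ 2 * g1 +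
    (e0 + e1) ^ 2 * g2))) * h3

end

/-- C2, with the value of `β` as a hypothesis -/
theorem exists_data_of_beta {F K : Type*} [Field F] [Fintype F] [DecidableEq F] [CharP F 3] [Field K]
    [Algebra F K] (hK : finrank F K = 3) {η β : K} (h : Cond F η β)
    (hβ : β = (algebraMap F K (Algebra.trace F K η) - η) ^ 2) :
    ∃ c θ : F, c ≠ 0 ∧ (∀ y : F, y ^ 3 - y ≠ θ) ∧ ∀ u v : F, (u ≠ 0 ∨ v ≠ 0) →
      ∑ r : F, quadraticChar F (r ^ 4 +
        (θ * u ^ 3 + u ^ 2 * v + (c ^ 3 - θ ^ 2 - 1) * v ^ 3) * r +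
        (u ^ 3 - u * v ^ 2 + θ * v ^ 3) * (c * u - θ * v)) = -1 := by
  have h3F : (3 : F) = 0 := by exact_mod_cast CharP.cast_eq_zero F 3
  have h3 : (3 : K) = 0 := by
    have h1 := congrArg (algebraMap F K) h3F
    rwa [map_ofNat, map_zero] at h1
  have h2 : (2 : K) ≠ 0 := by
    intro h0
    have h1 : (1 : K) = 3 - 2 := by norm_num
    rw [h3, h0, sub_zero] at h1
    exact one_ne_zero h1
  set Δ := D F η β 1 with hΔ
  have hΔ1 : quadraticChar F Δ = -1 := h.one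
  have hΔ0 : Δ ≠ 0 := by
    intro h0
    rw [h0, MulChar.map_zero] at hΔ1
    norm_num at hΔ1
  have hD1 := om_D hK h3 hβ (1 : K) η (η ^ Fintype.card F) ((η ^ Fintype.card F) ^ Fintype.card F)
    1 1 1 rfl rfl rfl rfl (one_pow _).symm (one_pow _).symm
  rw [← hΔ] at hD1
  set δ := algebraMap F K Δ with hδ
  have hδ0 : δ ≠ 0 := by
    intro h0
    exact hΔ0 ((map_eq_zero (algebraMap F K)).1 h0)
  have hδq : δ ^ Fintype.card F = δ := om_alg Δ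
  set e1 := η ^ Fintype.card F with he1
  set e2 := e1 ^ Fintype.card F with he2
  have he0 : e2 ^ Fintype.card F = η := om_pow hK η
  obtain ⟨s0, hs0⟩ : ∃ s0 : K, s0 = η ^ 2 / δ := ⟨_, rfl⟩
  obtain ⟨s1, hs1⟩ : ∃ s1 : K, s1 = e1 ^ 2 / δ := ⟨_, rfl⟩
  obtain ⟨s2, hs2⟩ : ∃ s2 : K, s2 = e2 ^ 2 / δ := ⟨_, rfl⟩
  have hs0' : η ^ 2 = δ * s0 := by rw [hs0]; field_simp
  have hs1' : e1 ^ 2 = δ * s1 := by rw [hs1]; field_simp
  have hs2' : e2 ^ 2 = δ * s2 := by rw [hs2]; field_simp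
  have hsum : s0 + s1 + s2 = -1 := by
    have h4 : δ * (s0 + s1 + s2 + 1) = 0 := by
      linear_combination (-1 : K) * hs0' - hs1' - hs2' + hD1
    rcases mul_eq_zero.1 h4 with h5 | h5
    · exact absurd h5 hδ0
    · exact eq_neg_of_add_eq_zero_left h5
  have hq01 : s0 ^ Fintype.card F = s1 := by
    rw [hs0, hs1, div_pow, hδq, ← pow_mul, mul_comm 2, pow_mul]
  have hq12 : s1 ^ Fintype.card F = s2 := by
    rw [hs1, hs2, div_pow, hδq, ← pow_mul, mul_comm 2, pow_mul]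
  obtain ⟨ω, hω⟩ : ∃ ω : K, ω = 1 + s0 - s1 := ⟨_, rfl⟩
  have hωq : ω ^ Fintype.card F = ω + 1 := by
    rw [hω, om_sub, om_add, one_pow, hq01, hq12]
    linear_combination (-1 : K) * hsum + s1 * h3
  have hω1q : (ω + 1) ^ Fintype.card F = ω + 2 := by
    rw [om_add, one_pow, hωq]
    ring
  have hnF : ω ∉ Set.range (algebraMap F K) := by
    rintro ⟨y, hy⟩
    rw [← hy, om_alg] at hωq
    have : (1 : K) = 0 := by linear_combination (-1 : K) * hωq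
    exact one_ne_zero this
  have hω0 : ω ≠ 0 := fun h0 => hnF ⟨0, by rw [map_zero, h0]⟩
  obtain ⟨c, hc⟩ := om_fixed (F := F) (s0 - ω ^ 2) (by
    rw [om_sub, hq01, ← pow_mul, mul_comm 2, pow_mul, hωq, hω]
    linear_combination (s1 - s0 - 1) * h3)
  obtain ⟨θ, hθ⟩ := om_fixed (F := F) (ω ^ 3 - ω) (by
    rw [om_sub, hωq, ← pow_mul, mul_comm 3, pow_mul, hωq]
    linear_combination (ω ^ 2 + ω) * h3)
  have hc0 : s0 = ω ^ 2 + algebraMap F K c := by rw [hc]; ring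
  have hc1 : s1 = (ω + 1) ^ 2 + algebraMap F K c := by
    have h4 := congrArg (fun x : K => x ^ Fintype.card F) hc0
    rw [om_add, ← pow_mul ω, mul_comm 2, pow_mul, hωq, om_alg, hq01] at h4
    exact h4
  have hc2 : s2 = (ω + 2) ^ 2 + algebraMap F K c := by
    have h4 := congrArg (fun x : K => x ^ Fintype.card F) hc1
    rw [om_add, ← pow_mul (ω + 1), mul_comm 2, pow_mul, hω1q, om_alg, hq12] at h4
    exact h4
  refine ⟨c, θ, ?_, ?_, ?_⟩
  · intro h0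
    rw [h0, map_zero, add_zero] at hc0
    have hz : (η / ω) ^ 2 = δ := by
      rw [div_pow, hs0', hc0]
      field_simp
    have hzq : ((η / ω) ^ Fintype.card F) ^ 2 = (η / ω) ^ 2 := by
      rw [← pow_mul, mul_comm, pow_mul, hz, hδq]
    rcases sq_eq_sq_iff_eq_or_eq_neg.1 hzq with h4 | h4
    · obtain ⟨y, hy⟩ := om_fixed (F := F) (η / ω) h4
      have h5 : y ^ 2 = Δ := by
        apply (algebraMap F K).injective
        rw [map_pow, hy, hz]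
      have hy0 : y ≠ 0 := by
        rintro rfl
        apply hΔ0
        rw [← h5]
        ring
      rw [← h5, quadraticChar_sq_one' hy0] at hΔ1
      norm_num at hΔ1
    · have h5 := om_pow hK (η / ω)
      have h6 : ∀ x : K, (-x) ^ Fintype.card F = -(x ^ Fintype.card F) := fun x =>
        map_neg (FiniteField.frobeniusAlgHom F K) x
      rw [h4, h6, h4, neg_neg, h4] at h5
      have h7 : (2 : K) * (η / ω) = 0 := by linear_combination (-1 : K) * h5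
      rcases mul_eq_zero.1 h7 with h8 | h8
      · exact h2 h8
      · rw [h8] at hz
        apply hδ0
        rw [← hz]
        ring
  · intro y hy
    have h4 : (algebraMap F K y) ^ 3 - algebraMap F K y = ω ^ 3 - ω := by
      rw [← hθ, ← hy, map_sub, map_pow]
    have h5 : (ω - algebraMap F K y) * ((ω - algebraMap F K y - 1) * (ω - algebraMap F K y + 1)) =
        0 := by
      linear_combination (-1 : K) * h4 + (ω * algebraMap F K y ^ 2 -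
        ω ^ 2 * algebraMap F K y) * h3
    rcases mul_eq_zero.1 h5 with h6 | h6
    · exact hnF ⟨y, (sub_eq_zero.1 h6).symm⟩
    rcases mul_eq_zero.1 h6 with h7 | h7
    · exact hnF ⟨y + 1, by rw [map_add, map_one]; linear_combination (-1 : K) * h7⟩
    · exact hnF ⟨y - 1, by rw [map_sub, map_one]; linear_combination (-1 : K) * h7⟩
  · intro u v huv
    obtain ⟨w, hw⟩ : ∃ w : K, w = algebraMap F K u * ω - algebraMap F K v * ω ^ 2 +
      algebraMap F K v * algebraMap F K c := ⟨_, rfl⟩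
    have hwq : w ^ Fintype.card F = algebraMap F K u * (ω + 1) -
        algebraMap F K v * (ω + 1) ^ 2 + algebraMap F K v * algebraMap F K c := by
      rw [hw, om_add, om_sub, mul_pow, mul_pow, mul_pow, om_alg, om_alg, om_alg, hωq,
        ← pow_mul ω, mul_comm 2, pow_mul, hωq]
    have hwF : w ∉ Set.range (algebraMap F K) := by
      rintro ⟨y, hy⟩
      have h4 : w ^ Fintype.card F = w := by rw [← hy, om_alg]
      rw [hwq, hw] at h4
      have h5 : algebraMap F K v * (2 * ω) = algebraMap F K (u - v) := by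
        rw [map_sub]
        linear_combination (-1 : K) * h4
      by_cases hv : v = 0
      · rw [hv, map_zero, zero_mul, sub_zero] at h5
        have h6 : u = 0 := (map_eq_zero (algebraMap F K)).1 h5.symm
        rcases huv with h7 | h7
        · exact h7 h6
        · exact h7 hv
      · have hv' : algebraMap F K v ≠ 0 := by
          intro h0
          exact hv ((map_eq_zero (algebraMap F K)).1 h0)
        apply hnF
        refine ⟨(u - v) / (2 * v), ?_⟩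
        rw [map_div₀, ← h5, map_mul, map_ofNat]
        field_simp
    have hsumr := h.sum w hwF
    have hval : ∀ r : F, D F η β (w + algebraMap F K r) = Δ * (r ^ 4 +
        (θ * u ^ 3 + u ^ 2 * v + (c ^ 3 - θ ^ 2 - 1) * v ^ 3) * r +
        (u ^ 3 - u * v ^ 2 + θ * v ^ 3) * (c * u - θ * v)) := by
      intro r
      apply (algebraMap F K).injective
      have k1 : algebraMap F K u * (ω + 1) - algebraMap F K v * (ω + 1) ^ 2 +
          algebraMap F K v * algebraMap F K c + algebraMap F K r =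
          (w + algebraMap F K r) ^ Fintype.card F := by
        rw [om_add, om_alg, hwq]
      have k2 : algebraMap F K u * (ω + 2) - algebraMap F K v * (ω + 2) ^ 2 +
          algebraMap F K v * algebraMap F K c + algebraMap F K r =
          (algebraMap F K u * (ω + 1) - algebraMap F K v * (ω + 1) ^ 2 +
          algebraMap F K v * algebraMap F K c + algebraMap F K r) ^ Fintype.card F := by
        rw [om_add, om_add, om_sub, mul_pow, mul_pow, mul_pow, om_alg, om_alg, om_alg, om_alg,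
          hω1q, ← pow_mul (ω + 1), mul_comm 2, pow_mul, hω1q]
      have h4 := om_D hK h3 hβ (w + algebraMap F K r) η e1 e2 (w + algebraMap F K r) _ _
        rfl he1 he2 rfl k1 k2
      have h5 := om_identity h3 ω (algebraMap F K u) (algebraMap F K v) (algebraMap F K c)
        (algebraMap F K r) (algebraMap F K θ) (by rw [hθ]; ring) s0 s1 s2
        (w + algebraMap F K r) _ _ hc0 hc1 hc2 (by rw [hw]) rfl rfl
      rw [h4, map_mul, ← hδ, hs0', hs1', hs2']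
      simp only [map_add, map_sub, map_mul, map_pow, map_one]
      rw [← h5]
      ring
    simp only [hval, map_mul, hΔ1] at hsumr
    rw [← Finset.mul_sum] at hsumr
    linear_combination (-1 : ℤ) * hsumr

end Pool.Agent.RegPack.C3
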