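import Pool.Agent.Lib_MP_cd200f_c3.PowSum
import Pool.Agent.Lib_MP_cd200f_c3.OmegaA

/-!
# C1: the value of `β`
-/

set_option autoImplicit false

namespace Pool.Agent.RegPack.C3

open Module Polynomial

/-- the polynomial of the last step -/
noncomputable def bPol {K : Type*} [Field K] (q : ℕ) (k00 k01 k02 k11 k12 k22 : K) : K[X] :=
  C k00 * X ^ 2 + C k01 * X ^ (1 + q) + C k02 * X ^ (1 + q * q) + C k11 * X ^ (2 * q) +
    C k12 * X ^ (q + q * q) + C k22 * X ^ (2 * (q * q))

theorem b_coeff {K : Type*} [Field K] [Fintype K] {q : ℕ} (hq : 3 ≤ q)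
    (hcard : Fintype.card K = q ^ 3)
    {k00 k01 k02 k11 k12 k22 : K} (h : ∀ c : K, (bPol q k00 k01 k02 k11 k12 k22).eval c = 0) :
    k00 = 0 := by
  have hq2 : 3 * q ≤ q * q := Nat.mul_le_mul_right q hq
  have hdeg : (bPol q k00 k01 k02 k11 k12 k22).natDegree ≤ 2 * (q * q) := by
    unfold bPol
    refine natDegree_add_le_of_degree_le (natDegree_add_le_of_degree_le
      (natDegree_add_le_of_degree_le (natDegree_add_le_of_degree_le
      (natDegree_add_le_of_degree_le ?_ ?_) ?_) ?_) ?_) ?_ <;>
      refine (natDegree_C_mul_X_pow_le _ _).trans ?_ <;> omega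
  have hlt : (bPol q k00 k01 k02 k11 k12 k22).natDegree < Fintype.card K := by
    rw [hcard, pow_succ, pow_two]
    have : 3 * (q * q) ≤ q * q * q := by
      rw [mul_comm]
      exact Nat.mul_le_mul_left (q * q) hq
    have h9 : 0 < q * q := by positivity
    omega
  have h0 : bPol q k00 k01 k02 k11 k12 k22 = 0 := by
    refine Polynomial.eq_zero_of_natDegree_lt_card_of_eval_eq_zero' _ Finset.univ
      (fun c _ => h c) ?_
    rw [Finset.card_univ]
    exact hlt
  have h2 := congrArg (fun p : K[X] => p.coeff 2) h0
  simp only [bPol, coeff_add, coeff_C_mul, coeff_X_pow, coeff_zero] at h2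
  rw [if_pos trivial, if_neg (by omega), if_neg (by omega), if_neg (by omega), if_neg (by omega),
    if_neg (by omega)] at h2
  linear_combination h2

/-- the coefficients of the quartic -/
theorem b_quartic {F K : Type*} [Field F] [Fintype F] [Field K]
    [Algebra F K] (hK : finrank F K = 3) (η β c : K) (r : F) :
    D F η β (c + algebraMap F K r) =
      ((Algebra.trace F K (η * (c ^ Fintype.card F * (c ^ Fintype.card F) ^ Fintype.card F))) ^ 2 -
        4 * (Algebra.norm F c * Algebra.trace F K (β * c))) +
      (2 * Algebra.trace F K (η * (c ^ Fintype.card F * (c ^ Fintype.card F) ^ Fintype.card F)) *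
        Algebra.trace F K (η * (c ^ Fintype.card F + (c ^ Fintype.card F) ^ Fintype.card F)) -
        4 * (Algebra.trace F K (c * c ^ Fintype.card F) * Algebra.trace F K (β * c) +
          Algebra.norm F c * Algebra.trace F K β)) * r +
      ((Algebra.trace F K (η * (c ^ Fintype.card F + (c ^ Fintype.card F) ^ Fintype.card F))) ^ 2 +
        2 * Algebra.trace F K (η * (c ^ Fintype.card F * (c ^ Fintype.card F) ^ Fintype.card F)) *
          Algebra.trace F K η -
        4 * (Algebra.trace F K c * Algebra.trace F K (β * c) +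
          Algebra.trace F K (c * c ^ Fintype.card F) * Algebra.trace F K β)) * r ^ 2 +
      (2 * Algebra.trace F K (η * (c ^ Fintype.card F + (c ^ Fintype.card F) ^ Fintype.card F)) *
        Algebra.trace F K η -
        4 * (Algebra.trace F K (β * c) + Algebra.trace F K c * Algebra.trace F K β)) * r ^ 3 +
      D F η β 1 * r ^ 4 := by
  apply (algebraMap F K).injective
  have hp : ∀ x : K, ((x ^ Fintype.card F) ^ Fintype.card F) ^ Fintype.card F = x := om_pow hK
  unfold D
  simp only [map_sub, map_pow, map_mul, map_add, map_ofNat, om_trace hK, om_norm hK, pow_mul,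
    mul_pow, om_add, om_alg, hp, one_pow, map_one, mul_one]
  ring

/-- C1 -/
theorem beta_eq {F K : Type*} [Field F] [Fintype F] [DecidableEq F] [CharP F 3] [Field K]
    [Algebra F K] (hK : finrank F K = 3) {η β : K} (h : Cond F η β) :
    β = (algebraMap F K (Algebra.trace F K η) - η) ^ 2 := by
  have h3F : (3 : F) = 0 := by exact_mod_cast CharP.cast_eq_zero F 3
  have h3 : (3 : K) = 0 := by
    have h1 := congrArg (algebraMap F K) h3F
    rwa [map_ofNat, map_zero] at h1
  have := om_finite hK
  have := Fintype.ofFinite K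
  have hcard : Fintype.card K = Fintype.card F ^ 3 := by
    rw [← hK]
    exact Module.card_eq_pow_finrank
  have hq : 3 ≤ Fintype.card F := by
    have : Fact (Nat.Prime 3) := ⟨Nat.prime_three⟩
    obtain ⟨m, hm, hh⟩ := FiniteField.card F 3
    rw [hh]
    calc 3 = 3 ^ 1 := (pow_one 3).symm
      _ ≤ 3 ^ (m : ℕ) := Nat.pow_le_pow_right (by norm_num) m.pos
  -- the middle coefficient
  have hmid : ∀ c : K,
      (Algebra.trace F K (η * (c ^ Fintype.card F + (c ^ Fintype.card F) ^ Fintype.card F))) ^ 2 +
        2 * Algebra.trace F K (η * (c ^ Fintype.card F * (c ^ Fintype.card F) ^ Fintype.card F)) *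
          Algebra.trace F K η -
        4 * (Algebra.trace F K c * Algebra.trace F K (β * c) +
          Algebra.trace F K (c * c ^ Fintype.card F) * Algebra.trace F K β) = 0 := by
    intro c
    by_cases hc : c ∈ Set.range (algebraMap F K)
    · obtain ⟨x, rfl⟩ := hc
      apply (algebraMap F K).injective
      simp only [map_sub, map_pow, map_mul, map_add, map_ofNat, om_trace hK, mul_pow, om_add,
        om_alg, map_zero]
      set e1 := η ^ Fintype.card F
      set e2 := e1 ^ Fintype.card F
      set b1 := β ^ Fintype.card F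
      set b2 := b1 ^ Fintype.card F
      set y := algebraMap F K x
      linear_combination (2 * y ^ 2 * (η + e1 + e2) ^ 2 -
        8 * y ^ 2 * (β + b1 + b2)) * h3
    · have h1 := h.sum c hc
      have h2 := h.one
      simp only [b_quartic hK] at h1
      exact p2_zero h2 h1
  have key : ∀ c : K, (bPol (Fintype.card F)
      ((η ^ Fintype.card F + (η ^ Fintype.card F) ^ Fintype.card F) ^ 2 - β)
      (2 * (η ^ Fintype.card F + (η ^ Fintype.card F) ^ Fintype.card F) *
        ((η ^ Fintype.card F) ^ Fintype.card F + η) +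
        2 * (η + η ^ Fintype.card F + (η ^ Fintype.card F) ^ Fintype.card F) *
          (η ^ Fintype.card F) ^ Fintype.card F - (β + β ^ Fintype.card F) -
        (β + β ^ Fintype.card F + (β ^ Fintype.card F) ^ Fintype.card F))
      (2 * (η ^ Fintype.card F + (η ^ Fintype.card F) ^ Fintype.card F) *
        (η + η ^ Fintype.card F) +
        2 * (η + η ^ Fintype.card F + (η ^ Fintype.card F) ^ Fintype.card F) *
          η ^ Fintype.card F - (β + (β ^ Fintype.card F) ^ Fintype.card F) -
        (β + β ^ Fintype.card F + (β ^ Fintype.card F) ^ Fintype.card F))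
      (((η ^ Fintype.card F) ^ Fintype.card F + η) ^ 2 - β ^ Fintype.card F)
      (2 * ((η ^ Fintype.card F) ^ Fintype.card F + η) * (η + η ^ Fintype.card F) +
        2 * (η + η ^ Fintype.card F + (η ^ Fintype.card F) ^ Fintype.card F) * η -
        (β ^ Fintype.card F + (β ^ Fintype.card F) ^ Fintype.card F) -
        (β + β ^ Fintype.card F + (β ^ Fintype.card F) ^ Fintype.card F))
      ((η + η ^ Fintype.card F) ^ 2 - (β ^ Fintype.card F) ^ Fintype.card F)).eval c = 0 := by
    intro c
    have h1 := congrArg (algebraMap F K) (hmid c)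
    have hp : ∀ x : K, ((x ^ Fintype.card F) ^ Fintype.card F) ^ Fintype.card F = x := om_pow hK
    simp only [map_sub, map_pow, map_mul, map_add, map_ofNat, om_trace hK, mul_pow, om_add,
      map_zero, hp] at h1
    have e1 : c ^ (1 + Fintype.card F) = c * c ^ Fintype.card F := by rw [pow_add, pow_one]
    have e2 : c ^ (1 + Fintype.card F * Fintype.card F) =
      c * (c ^ Fintype.card F) ^ Fintype.card F := by rw [pow_add, pow_one, pow_mul]
    have e3 : c ^ (2 * Fintype.card F) = (c ^ Fintype.card F) ^ 2 := by
      rw [mul_comm, pow_mul]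
    have e4 : c ^ (Fintype.card F + Fintype.card F * Fintype.card F) =
      c ^ Fintype.card F * (c ^ Fintype.card F) ^ Fintype.card F := by rw [pow_add, pow_mul]
    have e5 : c ^ (2 * (Fintype.card F * Fintype.card F)) =
      ((c ^ Fintype.card F) ^ Fintype.card F) ^ 2 := by
      rw [mul_comm 2, pow_mul, pow_mul]
    simp only [bPol, eval_add, eval_mul, eval_C, eval_pow, eval_X]
    rw [e1, e2, e3, e4, e5]
    set f1 := η ^ Fintype.card F
    set f2 := f1 ^ Fintype.card F
    set b1 := β ^ Fintype.card F
    set b2 := b1 ^ Fintype.card F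
    set c1 := c ^ Fintype.card F
    set c2 := c1 ^ Fintype.card F
    linear_combination h1 + ((c + c1 + c2) * (β * c + b1 * c1 + b2 * c2) +
      (c * c1 + c1 * c2 + c2 * c) * (β + b1 + b2)) * h3
  have h0 := b_coeff hq hcard key
  rw [om_trace hK]
  linear_combination (-1 : K) * h0

end Pool.Agent.RegPack.C3
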