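import Pool.Agent.Lib_MP_cd200f_c3.Defs

/-!
# The Dickson determinant of a linearised polynomial
-/

open Module Polynomial

namespace Pool.Agent.RegPack.C3

/-- a linearised polynomial of degree at most `q ^ 2` vanishing on `K` is zero -/
theorem c5b_eq_zero {K : Type*} [Field K] [Fintype K] {q : ℕ} (hq : 2 ≤ q)
    (hK : Fintype.card K = q ^ 3) (l : Fin 3 → K)
    (h : ∀ y : K, l 0 * y + l 1 * y ^ q + l 2 * y ^ (q * q) = 0) : l = 0 := by
  have hq1 : q < q * q := by nlinarith
  let P : K[X] := C (l 0) * X + C (l 1) * X ^ q + C (l 2) * X ^ (q * q)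
  have hdeg : P.natDegree < Fintype.card K := by
    have h1 : P.natDegree ≤ q * q := by
      refine (natDegree_add_le _ _).trans (max_le ((natDegree_add_le _ _).trans (max_le ?_ ?_)) ?_)
      · refine (natDegree_C_mul_le _ _).trans ?_
        rw [natDegree_X]
        omega
      · refine (natDegree_C_mul_X_pow_le _ _).trans hq1.le
      · exact natDegree_C_mul_X_pow_le _ _
    rw [hK]
    have h2 : q * q * 2 ≤ q ^ 3 := by
      rw [show q ^ 3 = q * q * q by ring]
      exact Nat.mul_le_mul_left _ hq
    have : 0 < q * q := by positivity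
    omega
  have hP : P = 0 := by
    refine eq_zero_of_natDegree_lt_card_of_eval_eq_zero P (f := fun y : K => y)
      Function.injective_id (fun y => ?_) hdeg
    have := h y
    simpa [P] using this
  have hc : ∀ n, P.coeff n = 0 := fun n => by rw [hP, coeff_zero]
  funext i
  fin_cases i
  · have h1 := hc 1
    have e1 : ¬ (1 = q) := by omega
    have e2 : ¬ (1 = q * q) := by omega
    simp only [P, coeff_add, coeff_C_mul, coeff_X, coeff_X_pow, e1, e2, if_true, if_false] at h1
    simpa using h1
  · have h1 := hc q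
    have e1 : ¬ (1 = q) := by omega
    have e2 : ¬ (q = q * q) := by omega
    simp only [P, coeff_add, coeff_C_mul, coeff_X, coeff_X_pow, e1, e2, if_true, if_false] at h1
    simpa using h1
  · have h1 := hc (q * q)
    have e1 : ¬ (1 = q * q) := by omega
    have e2 : ¬ (q * q = q) := by omega
    simp only [P, coeff_add, coeff_C_mul, coeff_X, coeff_X_pow, e1, e2, if_true, if_false] at h1
    simpa using h1

theorem dickson_iff {F K : Type*} [Field F] [Fintype F] [Field K] [Algebra F K]
    (hK : finrank F K = 3) (a b c : K) :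
    (∃ x : K, x ≠ 0 ∧ a * x + b * x ^ Fintype.card F +
      c * x ^ (Fintype.card F * Fintype.card F) = 0) ↔ dick (Fintype.card F) a b c = 0 := by
  classical
  have hfin : Module.Finite F K := Module.finite_of_finrank_pos (by rw [hK]; norm_num)
  have hfinK : Finite K := Module.finite_of_finite F
  let _ := Fintype.ofFinite K
  obtain ⟨q, hq⟩ : ∃ q, q = Fintype.card F := ⟨_, rfl⟩
  have hq2 : 2 ≤ q := by
    rw [hq]
    exact Fintype.one_lt_card
  have hcard : Fintype.card K = q ^ 3 := by
    rw [hq, ← hK]
    exact Module.card_eq_pow_finrank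
  have hpow : ∀ x : K, ((x ^ q) ^ q) ^ q = x := by
    intro x
    have h1 := FiniteField.pow_card x
    rw [hcard] at h1
    rw [← pow_mul, ← pow_mul, show q * (q * q) = q ^ 3 by ring]
    exact h1
  obtain ⟨σ, hσ⟩ : ∃ σ : K →ₐ[F] K, ∀ x, σ x = x ^ q := by
    refine ⟨FiniteField.frobeniusAlgHom F K, fun x => ?_⟩
    rw [FiniteField.coe_frobeniusAlgHom, hq]
  have hσ2 : ∀ x, x ^ (q * q) = σ (σ x) := by
    intro x
    rw [hσ, hσ, ← pow_mul]
  have hσ3 : ∀ x, σ (σ (σ x)) = x := by
    intro x
    rw [hσ, hσ, hσ, hpow]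
  rw [← hq]
  let M : Matrix (Fin 3) (Fin 3) K :=
    !![a, b, c; σ c, σ a, σ b; σ (σ b), σ (σ c), σ (σ a)]
  have hdet : M.det = dick q a b c := by
    rw [Matrix.det_fin_three]
    simp only [M, dick, hσ2, ← hσ]
    simp
    ring
  simp only [hσ2, ← hσ]
  rw [← hdet]
  constructor
  · rintro ⟨x, hx, h0⟩
    rw [← Matrix.exists_mulVec_eq_zero_iff]
    have h1 : σ c * x + σ a * σ x + σ b * σ (σ x) = 0 := by
      have := congrArg σ h0
      rw [map_add, map_add, map_mul, map_mul, map_mul, hσ3, map_zero] at this
      linear_combination this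
    have h2 : σ (σ b) * x + σ (σ c) * σ x + σ (σ a) * σ (σ x) = 0 := by
      have := congrArg σ h1
      rw [map_add, map_add, map_mul, map_mul, map_mul, hσ3, map_zero] at this
      linear_combination this
    refine ⟨![x, σ x, σ (σ x)], fun h => hx (by simpa using congrFun h 0), ?_⟩
    funext i
    fin_cases i
    · simpa [M, Matrix.mulVec, dotProduct, Fin.sum_univ_three] using h0
    · simpa [M, Matrix.mulVec, dotProduct, Fin.sum_univ_three] using h1
    · simpa [M, Matrix.mulVec, dotProduct, Fin.sum_univ_three] using h2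
  · intro h
    obtain ⟨v, hv0, hv⟩ := Matrix.exists_vecMul_eq_zero_iff.2 h
    by_contra hcon
    push Not at hcon
    apply hv0
    let L : K →ₗ[F] K := LinearMap.mulLeft F a + (LinearMap.mulLeft F b).comp σ.toLinearMap +
      (LinearMap.mulLeft F c).comp (σ.toLinearMap.comp σ.toLinearMap)
    have hL : ∀ x, L x = a * x + b * σ x + c * σ (σ x) := by
      intro x
      simp [L]
    have hinj : Function.Injective L := by
      rw [← LinearMap.ker_eq_bot, LinearMap.ker_eq_bot']
      intro x hx
      by_contra hx0
      rw [hL] at hx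
      exact hcon x hx0 hx
    have hsurj : Function.Surjective L := LinearMap.injective_iff_surjective.1 hinj
    refine c5b_eq_zero hq2 hcard v fun y => ?_
    obtain ⟨x, rfl⟩ := hsurj y
    rw [hσ2, ← hσ, hL]
    have h0 := congrFun hv 0
    have h1 := congrFun hv 1
    have h2 := congrFun hv 2
    simp [M, Matrix.vecMul, dotProduct, Fin.sum_univ_three] at h0 h1 h2
    rw [map_add, map_add, map_add, map_add, map_mul, map_mul, map_mul, map_mul, map_mul, map_mul,
      hσ3]
    linear_combination x * h0 + σ x * h1 + σ (σ x) * h2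

end Pool.Agent.RegPack.C3
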