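import Pool.Agent.Lib_MP_cd200f_c3.Defs
import Pool.Agent.Lib_MP_cd200f_c3.Dick2

/-!
# From a linear map without nonzero eigenvalues to the condition on characters
-/

open Module

namespace Pool.Agent.RegPack.C3

theorem c6_card_roots {F : Type*} [Field F] [Fintype F] [DecidableEq F] (hF : ringChar F ≠ 2)
    (N T S : F) (hN : N ≠ 0) :
    (((Finset.univ.filter fun y : F => N * y ^ 2 - T * y + S = 0).card : ℕ) : ℤ) =
      quadraticChar F (T ^ 2 - 4 * (N * S)) + 1 := by
  have h2 : (2 : F) ≠ 0 := Ring.two_ne_zero hF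
  rw [← quadraticChar_card_sqrts hF]
  congr 1
  refine Finset.card_bij (fun y _ => 2 * N * y - T) ?_ ?_ ?_
  · intro y hy
    rw [Finset.mem_filter] at hy
    rw [Set.mem_toFinset]
    change (2 * N * y - T) ^ 2 = T ^ 2 - 4 * (N * S)
    linear_combination 4 * N * hy.2
  · intro y _ z _ h
    have h3 : 2 * N * y = 2 * N * z := by linear_combination h
    exact mul_left_cancel₀ (mul_ne_zero h2 hN) h3
  · intro z hz
    rw [Set.mem_toFinset] at hz
    have hz1 : z ^ 2 = T ^ 2 - 4 * (N * S) := hz
    have h2N : 2 * N ≠ 0 := mul_ne_zero h2 hN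
    have h4N : 4 * N ≠ 0 := by
      rw [show (4 : F) * N = 2 * (2 * N) by ring]
      exact mul_ne_zero h2 h2N
    have hy : 2 * N * ((z + T) / (2 * N)) = z + T := mul_div_cancel₀ _ h2N
    refine ⟨(z + T) / (2 * N), ?_, ?_⟩
    · rw [Finset.mem_filter]
      refine ⟨Finset.mem_univ _, ?_⟩
      apply mul_left_cancel₀ h4N
      rw [mul_zero]
      generalize (z + T) / (2 * N) = y at hy
      linear_combination hz1 + (2 * N * y - T + z) * hy
    · rw [hy]
      ring

theorem c6_sigma {F K : Type*} [Field F] [Fintype F] [Field K] [Algebra F K]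
    (hK : finrank F K = 3) : ∃ σ : K →ₐ[F] K, (∀ x, σ x = x ^ Fintype.card F) ∧
      (∀ x, σ (σ x) = x ^ (Fintype.card F * Fintype.card F)) ∧ (∀ x, σ (σ (σ x)) = x) ∧
      (∀ x, algebraMap F K (Algebra.trace F K x) = x + σ x + σ (σ x)) ∧
      (∀ x, algebraMap F K (Algebra.norm F x) = x * σ x * σ (σ x)) := by
  classical
  have hfin : FiniteDimensional F K := FiniteDimensional.of_finrank_pos (by rw [hK]; norm_num)
  have hfinK : Finite K := Module.finite_of_finite F
  let _ := Fintype.ofFinite K
  obtain ⟨q, hq⟩ : ∃ q, q = Fintype.card F := ⟨_, rfl⟩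
  have hcard : Fintype.card K = q ^ 3 := by
    rw [hq, ← hK]
    exact Module.card_eq_pow_finrank
  rw [← hq]
  obtain ⟨σ, hσ⟩ : ∃ σ : K →ₐ[F] K, ∀ x, σ x = x ^ q := by
    refine ⟨FiniteField.frobeniusAlgHom F K, fun x => ?_⟩
    rw [FiniteField.coe_frobeniusAlgHom, hq]
  have h2 : ∀ x, σ (σ x) = x ^ (q * q) := by
    intro x
    rw [hσ, hσ, ← pow_mul]
  refine ⟨σ, hσ, h2, ?_, ?_, ?_⟩
  · intro x
    have h1 := FiniteField.pow_card x
    rw [hcard] at h1
    rw [h2, hσ, ← pow_mul, show q * (q * q) = q ^ 3 by ring]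
    exact h1
  · intro x
    rw [FiniteField.algebraMap_trace_eq_sum_pow, hK, Finset.sum_range_succ, Finset.sum_range_succ,
      Finset.sum_range_one, Nat.card_eq_fintype_card, h2, hσ, ← hq, pow_zero, pow_one, pow_one,
      sq]
  · intro x
    rw [FiniteField.algebraMap_norm_eq_prod_pow, hK, Finset.prod_range_succ,
      Finset.prod_range_succ, Finset.prod_range_one, Nat.card_eq_fintype_card, h2, hσ, ← hq,
      pow_zero, pow_one, pow_one, sq]

theorem c6_exists_dickson {F K : Type*} [Field F] [Fintype F] [Field K] [Algebra F K]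
    (hK : finrank F K = 3) (B : K →ₗ[F] K) : ∃ b₀ b₁ b₂ : K, ∀ x, B x =
      b₀ * x + b₁ * x ^ Fintype.card F + b₂ * x ^ (Fintype.card F * Fintype.card F) := by
  classical
  have hfin : FiniteDimensional F K := FiniteDimensional.of_finrank_pos (by rw [hK]; norm_num)
  have hfinK : Finite K := Module.finite_of_finite F
  let _ := Fintype.ofFinite K
  have hcard : Fintype.card K = Fintype.card F ^ 3 := by
    rw [← hK]
    exact Module.card_eq_pow_finrank
  obtain ⟨σ, hσ, hσ2, -, -, -⟩ := c6_sigma (F := F) (K := K) hK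
  let Φ : (Fin 3 → K) →ₗ[F] (K →ₗ[F] K) :=
    { toFun := fun l => LinearMap.mulLeft F (l 0) + (LinearMap.mulLeft F (l 1)).comp σ.toLinearMap +
        (LinearMap.mulLeft F (l 2)).comp (σ.toLinearMap.comp σ.toLinearMap)
      map_add' := fun l m => by
        ext x
        simp
        ring
      map_smul' := fun r l => by
        ext x
        simp [smul_add] }
  have hΦ : ∀ l x, Φ l x = l 0 * x + l 1 * x ^ Fintype.card F +
      l 2 * x ^ (Fintype.card F * Fintype.card F) := by
    intro l x
    rw [← hσ, ← hσ2]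
    rfl
  have hinj : Function.Injective Φ := by
    rw [← LinearMap.ker_eq_bot, LinearMap.ker_eq_bot']
    intro l hl
    refine c5b_eq_zero Fintype.one_lt_card hcard l fun y => ?_
    rw [← hΦ, hl, LinearMap.zero_apply]
  have hsurj : Function.Surjective Φ := by
    refine (LinearMap.injective_iff_surjective_of_finrank_eq_finrank ?_).1 hinj
    rw [Module.finrank_linearMap, Module.finrank_pi_fintype, hK]
    simp
  obtain ⟨l, rfl⟩ := hsurj B
  exact ⟨l 0, l 1, l 2, hΦ l⟩

theorem c6_root_iff {F K : Type*} [Field F] [Fintype F] [Field K] [Algebra F K]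
    (hK : finrank F K = 3) {B : K →ₗ[F] K} (h1 : B 1 = 0) {b₀ b₁ b₂ : K} (hB : ∀ x, B x =
      b₀ * x + b₁ * x ^ Fintype.card F + b₂ * x ^ (Fintype.card F * Fintype.card F)) {β : K}
    (hβ : β = b₀ ^ Fintype.card F * b₀ ^ (Fintype.card F * Fintype.card F) -
      b₁ ^ Fintype.card F * b₂ ^ (Fintype.card F * Fintype.card F)) (y : F) (hy : y ≠ 0) (g : K) :
    (∃ x : K, x ≠ 0 ∧ B x = y • (g * x)) ↔ Algebra.norm F g * y ^ 2 -
      Algebra.trace F K (b₀ * (g ^ Fintype.card F * g ^ (Fintype.card F * Fintype.card F))) * y +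
      Algebra.trace F K (β * g) = 0 := by
  obtain ⟨σ, hσ, hσ2, hσ3, htr, hno⟩ := c6_sigma (F := F) (K := K) hK
  have hy' : algebraMap F K y ≠ 0 := by
    rw [Ne, map_eq_zero]
    exact hy
  have hσy : σ (algebraMap F K y) = algebraMap F K y := σ.commutes y
  have h0 : dick (Fintype.card F) b₀ b₁ b₂ = 0 := by
    rw [← dickson_iff hK]
    exact ⟨1, one_ne_zero, by rw [← hB, h1]⟩
  have hd : dick (Fintype.card F) (b₀ - algebraMap F K y * g) b₁ b₂ =
      -(algebraMap F K y) * algebraMap F K (Algebra.norm F g * y ^ 2 -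
      Algebra.trace F K (b₀ * (g ^ Fintype.card F * g ^ (Fintype.card F * Fintype.card F))) * y +
      Algebra.trace F K (β * g)) := by
    unfold dick at h0 ⊢
    rw [map_add, map_sub, map_mul, map_mul, htr, htr, hno, map_pow, hβ]
    simp only [← hσ2, ← hσ, map_mul, map_sub, hσ3, hσy] at h0 ⊢
    linear_combination h0
  have h2 : (∃ x : K, x ≠ 0 ∧ B x = y • (g * x)) ↔ ∃ x : K, x ≠ 0 ∧
      (b₀ - algebraMap F K y * g) * x + b₁ * x ^ Fintype.card F +
      b₂ * x ^ (Fintype.card F * Fintype.card F) = 0 := by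
    refine exists_congr fun x => and_congr_right fun _ => ?_
    rw [hB, Algebra.smul_def]
    constructor
    · intro h
      linear_combination h
    · intro h
      linear_combination h
  rw [h2, dickson_iff hK, hd, mul_eq_zero, neg_eq_zero, map_eq_zero, map_eq_zero]
  simp [hy]

theorem exists_cond {F K : Type*} [Field F] [Fintype F] [DecidableEq F] [Field K]
    [Algebra F K] (hF : ringChar F ≠ 2) (hK : finrank F K = 3) (B : K →ₗ[F] K) (h1 : B 1 = 0)
    (hnr : ∀ (y : F) (x : K), y ≠ 0 → x ≠ 0 → B x ≠ y • x) (hnil : ∃ x, B (B (B x)) ≠ 0)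
    (hcard : ∀ c : K, c ∉ Set.range (algebraMap F K) →
      Nat.card {p : F × F // p.2 ≠ 0 ∧ ∃ x : K, x ≠ 0 ∧
        B x = p.2 • ((c + algebraMap F K p.1) * x)} = Fintype.card F) :
    ∃ η β : K, Cond F η β := by
  obtain ⟨b₀, b₁, b₂, hB⟩ := c6_exists_dickson hK B
  obtain ⟨β, hβ⟩ : ∃ β, β = b₀ ^ Fintype.card F * b₀ ^ (Fintype.card F * Fintype.card F) -
      b₁ ^ Fintype.card F * b₂ ^ (Fintype.card F * Fintype.card F) := ⟨_, rfl⟩
  have hroot := c6_root_iff hK h1 hB hβ
  -- the condition at `g = 1`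
  have hone0 : ∀ y : F, y ≠ 0 → y ^ 2 - Algebra.trace F K b₀ * y + Algebra.trace F K β ≠ 0 := by
    intro y hy h
    have h2 := (hroot y hy 1).2 (by
      rw [map_one, one_pow, one_pow, mul_one, mul_one, mul_one, one_mul]
      exact h)
    obtain ⟨x, hx, hx2⟩ := h2
    rw [one_mul] at hx2
    exact hnr y x hy hx hx2
  have hTβ : Algebra.trace F K β ≠ 0 := by
    intro hb
    have ha : Algebra.trace F K b₀ = 0 := by
      by_contra ha
      refine hone0 _ ha ?_
      rw [hb]
      ring
    obtain ⟨x, hx⟩ := hnil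
    apply hx
    obtain ⟨σ, hσ, hσ2, hσ3, htr, -⟩ := c6_sigma (F := F) (K := K) hK
    have h0 : dick (Fintype.card F) b₀ b₁ b₂ = 0 := by
      rw [← dickson_iff hK]
      exact ⟨1, one_ne_zero, by rw [← hB, h1]⟩
    have ha' : b₀ + σ b₀ + σ (σ b₀) = 0 := by rw [← htr, ha, map_zero]
    have hb' : β + σ β + σ (σ β) = 0 := by rw [← htr, hb, map_zero]
    rw [hβ] at hb'
    unfold dick at h0
    simp only [hB]
    simp only [← hσ2, ← hσ, map_mul, map_sub, map_add, hσ3] at h0 hb' ⊢
    linear_combination ha' * ((b₀ * b₀ + b₁ * σ b₂ + b₂ * σ (σ b₁)) * x +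
      (b₀ * b₁ + b₁ * σ b₀ + b₂ * σ (σ b₂)) * σ x +
      (b₀ * b₂ + b₁ * σ b₁ + b₂ * σ (σ b₀)) * σ (σ x)) -
      hb' * (b₀ * x + b₁ * σ x + b₂ * σ (σ x)) + h0 * x
  have hD1 : D F b₀ β 1 = Algebra.trace F K b₀ ^ 2 - 4 * (1 * Algebra.trace F K β) := by
    unfold D
    rw [one_pow, one_pow, mul_one, mul_one, mul_one, map_one]
  refine ⟨b₀, β, ?_, ?_⟩
  · have h2 := c6_card_roots hF 1 (Algebra.trace F K b₀) (Algebra.trace F K β) one_ne_zero
    rw [Finset.filter_false_of_mem] at h2
    · rw [hD1]
      simp at h2 ⊢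
      linarith
    · intro y _ h
      rw [one_mul] at h
      by_cases hy : y = 0
      · rw [hy] at h
        apply hTβ
        linear_combination h
      · exact hone0 y hy h
  · intro c hc
    classical
    have hg : ∀ r : F, c + algebraMap F K r ≠ 0 := by
      intro r h
      apply hc
      refine ⟨-r, ?_⟩
      rw [map_neg]
      linear_combination -h
    have hfin : FiniteDimensional F K := FiniteDimensional.of_finrank_pos (by rw [hK]; norm_num)
    obtain ⟨N, hN⟩ : ∃ N : F → F, ∀ r, N r = Algebra.norm F (c + algebraMap F K r) :=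
      ⟨_, fun _ => rfl⟩
    obtain ⟨T, hT⟩ : ∃ T : F → F, ∀ r, T r = Algebra.trace F K (b₀ *
      ((c + algebraMap F K r) ^ Fintype.card F *
        (c + algebraMap F K r) ^ (Fintype.card F * Fintype.card F))) := ⟨_, fun _ => rfl⟩
    obtain ⟨S, hS⟩ : ∃ S : F → F, ∀ r, S r = Algebra.trace F K (β * (c + algebraMap F K r)) :=
      ⟨_, fun _ => rfl⟩
    have hN0 : ∀ r, N r ≠ 0 := by
      intro r
      rw [hN, Ne, Algebra.norm_eq_zero_iff]
      exact hg r
    have hDr : ∀ r, D F b₀ β (c + algebraMap F K r) = T r ^ 2 - 4 * (N r * S r) := by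
      intro r
      rw [hT, hN, hS]
      rfl
    have hSr : ∀ r, S r = Algebra.trace F K (β * c) + r * Algebra.trace F K β := by
      intro r
      rw [hS, mul_add, map_add, mul_comm β (algebraMap F K r), ← Algebra.smul_def, map_smul,
        smul_eq_mul]
    have hS1 : (Finset.univ.filter fun r : F => S r = 0).card = 1 := by
      rw [Finset.card_eq_one]
      refine ⟨-(Algebra.trace F K (β * c)) / Algebra.trace F K β, ?_⟩
      ext r
      rw [Finset.mem_filter, Finset.mem_singleton, hSr, eq_div_iff hTβ]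
      constructor
      · rintro ⟨-, h⟩
        linear_combination h
      · intro h
        exact ⟨Finset.mem_univ _, by linear_combination h⟩
    -- the number of nonzero roots
    have hnz : ∀ r, (((Finset.univ.filter fun y : F => y ≠ 0 ∧
        N r * y ^ 2 - T r * y + S r = 0).card : ℕ) : ℤ) =
        quadraticChar F (T r ^ 2 - 4 * (N r * S r)) + 1 - (if S r = 0 then 1 else 0) := by
      intro r
      rw [← c6_card_roots hF (N r) (T r) (S r) (hN0 r)]
      have h2 : (Finset.univ.filter fun y : F => N r * y ^ 2 - T r * y + S r = 0) =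
          (Finset.univ.filter fun y : F => y ≠ 0 ∧ N r * y ^ 2 - T r * y + S r = 0) ∪
          (if S r = 0 then {0} else ∅) := by
        ext y
        rw [Finset.mem_union, Finset.mem_filter, Finset.mem_filter]
        by_cases hy : y = 0
        · subst hy
          by_cases hs : S r = 0
          · simp [hs]
          · simp [hs]
        · by_cases hs : S r = 0
          · simp [hs, hy]
          · simp [hs, hy]
      rw [h2, Finset.card_union_of_disjoint]
      · by_cases hs : S r = 0
        · simp [hs]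
        · simp [hs]
      · rw [Finset.disjoint_left]
        intro y hy hy2
        rw [Finset.mem_filter] at hy
        by_cases hs : S r = 0
        · rw [if_pos hs, Finset.mem_singleton] at hy2
          exact hy.2.1 hy2
        · rw [if_neg hs] at hy2
          exact absurd hy2 (Finset.notMem_empty _)
    have hq := hcard c hc
    have hcnt : (Fintype.card F : ℤ) = ∑ r : F, ((((Finset.univ.filter fun y : F => y ≠ 0 ∧
        N r * y ^ 2 - T r * y + S r = 0).card : ℕ) : ℤ)) := by
      rw [← hq, Nat.card_eq_fintype_card, Fintype.card_subtype, Finset.card_filter,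
        Fintype.sum_prod_type]
      rw [Nat.cast_sum]
      refine Finset.sum_congr rfl fun r _ => ?_
      rw [Finset.card_filter]
      congr 1
      refine Finset.sum_congr rfl fun y _ => ?_
      refine if_congr ?_ rfl rfl
      refine and_congr_right fun hy => ?_
      rw [hroot y hy, hN, hT, hS]
    have hsum : ∑ r : F, (if S r = 0 then (1 : ℤ) else 0) = 1 := by
      rw [← Finset.sum_filter, Finset.sum_const, hS1]
      simp
    have hfinal : (Fintype.card F : ℤ) = ∑ r : F, (quadraticChar F (T r ^ 2 - 4 * (N r * S r)) +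
        1 - (if S r = 0 then (1 : ℤ) else 0)) := by
      rw [hcnt]
      exact Finset.sum_congr rfl fun r _ => hnz r
    rw [Finset.sum_sub_distrib, Finset.sum_add_distrib, hsum] at hfinal
    rw [Finset.sum_congr rfl fun r _ => by rw [hDr r]]
    have hc1 : ∑ _r : F, (1 : ℤ) = Fintype.card F := by
      rw [Finset.sum_const, Finset.card_univ]
      simp
    rw [hc1] at hfinal
    linarith

end Pool.Agent.RegPack.C3
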