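import Mathlib

/-!
# Cyclic regular packings of `PG(3, 3 ^ h)`: interface of the number theory part

`F` is a finite field with `q` elements, `K` its cubic extension.
-/

namespace Pool.Agent.RegPack.C3

/-- the form of degree four: `Tr(η g^q g^(q^2)) ^ 2 - 4 N(g) Tr(β g)` -/
noncomputable def D (F : Type*) {K : Type*} [Field F] [Fintype F] [Field K] [Algebra F K]
    (η β g : K) : F :=
  (Algebra.trace F K (η * (g ^ Fintype.card F * g ^ (Fintype.card F * Fintype.card F)))) ^ 2 -
    4 * (Algebra.norm F g * Algebra.trace F K (β * g))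

/-- the condition that a cyclic regular packing gives -/
structure Cond (F : Type*) {K : Type*} [Field F] [Fintype F] [DecidableEq F] [Field K]
    [Algebra F K] (η β : K) : Prop where
  one : quadraticChar F (D F η β 1) = -1
  sum : ∀ c : K, c ∉ Set.range (algebraMap F K) →
    ∑ r : F, quadraticChar F (D F η β (c + algebraMap F K r)) = 1

/-- What the packing gives: `V = F × K`, the kernel `J` of the spread through the line
`⟨(1, 0), (0, 1)⟩`, `J (1, 0) = (0, 1)`, `J (0, y) = (b y, A y)`, `J ^ 2 = τ J - δ`; every line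
`⟨(0, 1), (1, w c)⟩` is moved into the spread by exactly one `v` with `v ^ (q^2 + q + 1) = 1`. -/
structure GData (F : Type*) {K : Type*} [Field F] [Fintype F] [Field K] [Algebra F K]
    (A : K →ₗ[F] K) (b : K →ₗ[F] F) (τ δ : F) : Prop where
  A1 : A 1 = algebraMap F K τ
  b1 : b 1 = -δ
  bA : ∀ y, b (A y) = τ * b y
  AA : ∀ y, A (A y) = τ • A y - δ • y - algebraMap F K (b y)
  nr : ∀ x : F, x * x - τ * x + δ ≠ 0
  uniq : ∀ c : K, c ∉ Set.range (algebraMap F K) → ∀ w : F, w ≠ 0 →
    ∃! v : K, v ^ (Fintype.card F * Fintype.card F + Fintype.card F + 1) = 1 ∧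
      ∃ ρ : F, A v = (b v * w) • (v * c) + ρ • v

/-- the Dickson determinant -/
def dick {K : Type*} [CommRing K] (q : ℕ) (a b c : K) : K :=
  a * a ^ q * a ^ (q * q) + b * b ^ q * b ^ (q * q) + c * c ^ q * c ^ (q * q) -
    a * b ^ q * c ^ (q * q) - b * c ^ q * a ^ (q * q) - c * a ^ q * b ^ (q * q)

/-- the map `(x, y) ↦ (x, u y)` -/
noncomputable def sing (F : Type*) {K : Type*} [Field F] [Field K] [Algebra F K] (u : K) (hu : u ≠ 0) :
    (F × K) ≃ₗ[F] (F × K) :=
  LinearEquiv.ofBijective (LinearMap.prodMap LinearMap.id (LinearMap.mulLeft F u)) (by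
    constructor
    · rintro ⟨a, x⟩ ⟨b, y⟩ h
      have h1 := Prod.ext_iff.1 h
      simp only [LinearMap.prodMap_apply, LinearMap.id_apply, LinearMap.mulLeft_apply] at h1
      rw [h1.1, mul_left_cancel₀ hu h1.2]
    · rintro ⟨a, x⟩
      refine ⟨(a, u⁻¹ * x), ?_⟩
      simp [LinearMap.prodMap_apply, hu])

end Pool.Agent.RegPack.C3
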