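import Pool.Agent.Lib_MP_cd200f_c3.Defs
import Pool.Agent.Lib_MP_cd200f_co.Defs
import Pool.Agent.Lib_MP_cd200f_co.Ker
import Pool.Agent.Lib_MP_cd200f_co.Ker2
import Pool.Agent.Lib_MP_cd200f_co.Com
import Pool.Agent.Lib_MP_cd200f_co.OddP

/-!
# The linear map of a spread of a packing invariant under the Singer group
-/

namespace Pool.Agent.RegPack.C3

open Module

theorem geom_affine {F V : Type*} [Field F] [AddCommGroup V] [Module F V]
    {S : Set (Submodule F V)} {J : Module.End F V} {τ δ : F} (h : Ker S J τ δ) (x y : F)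
    (hy : y ≠ 0) : ∃ τ' δ' : F, Ker S (y⁻¹ • (J - x • LinearMap.id)) τ' δ' := by
  refine ⟨y⁻¹ * (τ - 2 * x), y⁻¹ * y⁻¹ * (x * x - τ * x + δ), ?_, ?_, ?_⟩
  · intro v
    simp only [LinearMap.smul_apply, LinearMap.sub_apply, LinearMap.id_apply, map_sub, map_smul,
      h.quad]
    module
  · intro v hv c hc
    simp only [LinearMap.smul_apply, LinearMap.sub_apply, LinearMap.id_apply] at hc
    refine h.ne v hv (y * c + x) ?_
    have h1 : y • (y⁻¹ • (J v - x • v)) = y • (c • v) := by rw [hc]
    rw [smul_smul, mul_inv_cancel₀ hy, one_smul, smul_smul, sub_eq_iff_eq_add] at h1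
    rw [h1, add_smul]
  · intro U hU
    rw [h.mem U hU]
    simp only [LinearMap.smul_apply, LinearMap.sub_apply, LinearMap.id_apply]
    constructor
    · intro h1 v hv
      exact U.smul_mem _ (U.sub_mem (h1 v hv) (U.smul_mem _ hv))
    · intro h1 v hv
      have h2 := U.smul_mem y (h1 v hv)
      rw [smul_smul, mul_inv_cancel₀ hy, one_smul] at h2
      have h3 := U.add_mem h2 (U.smul_mem x hv)
      rwa [sub_add_cancel] at h3

section field

variable {F K : Type*} [Field F] [Fintype F] [Field K] [Algebra F K]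

theorem geom_pow (hK : finrank F K = 3) (x : K) :
    x ^ (Fintype.card F * Fintype.card F + Fintype.card F + 1) =
      algebraMap F K (Algebra.norm F x) := by
  have hfin : FiniteDimensional F K := FiniteDimensional.of_finrank_pos (by rw [hK]; norm_num)
  have : Finite K := Module.finite_of_finite F
  rw [FiniteField.algebraMap_norm_eq_prod_pow, hK, Finset.prod_range_succ, Finset.prod_range_succ,
    Finset.prod_range_one, Nat.card_eq_fintype_card]
  ring

theorem geom_coprime (hF3 : ¬ 3 ∣ Fintype.card F - 1) :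
    Nat.Coprime (Fintype.card F * Fintype.card F + Fintype.card F + 1) (Fintype.card F - 1) := by
  have hq : 0 < Fintype.card F := Fintype.card_pos
  obtain ⟨m, hm⟩ : ∃ m, Fintype.card F = m + 1 := ⟨Fintype.card F - 1, by omega⟩
  rw [hm, Nat.add_sub_cancel] at hF3 ⊢
  have h1 : (m + 1) * (m + 1) + (m + 1) + 1 = 3 + (m + 3) * m := by ring
  rw [h1, Nat.coprime_add_mul_right_left]
  exact (Nat.Prime.coprime_iff_not_dvd Nat.prime_three).2 hF3

theorem geom_norm (hF3 : ¬ 3 ∣ Fintype.card F - 1) (hK : finrank F K = 3) {x : K} (hx : x ≠ 0) :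
    ∃ (f : F) (u : K), f ≠ 0 ∧ u ≠ 0 ∧
      u ^ (Fintype.card F * Fintype.card F + Fintype.card F + 1) = 1 ∧ x = f • u := by
  classical
  have hfin : FiniteDimensional F K := FiniteDimensional.of_finrank_pos (by rw [hK]; norm_num)
  set n := Fintype.card F * Fintype.card F + Fintype.card F + 1 with hn
  have hN : Algebra.norm F x ≠ 0 := by
    rw [Ne, Algebra.norm_eq_zero_iff]
    exact hx
  have hco := geom_coprime hF3
  rw [← hn] at hco
  -- a solution of f ^ n = N
  obtain ⟨f, hf⟩ : ∃ f : Fˣ, f ^ n = Units.mk0 _ hN := by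
    have h1 : Nat.Coprime (Nat.card Fˣ) n := by
      rw [Nat.card_eq_fintype_card, Fintype.card_units]
      exact hco.symm
    exact (powCoprime h1).surjective (Units.mk0 _ hN)
  have hf0 : (f : F) ≠ 0 := f.ne_zero
  have hfN : (f : F) ^ n = Algebra.norm F x := by
    have := congrArg Units.val hf
    rwa [Units.val_pow_eq_pow_val, Units.val_mk0] at this
  refine ⟨f, (f : F)⁻¹ • x, hf0, smul_ne_zero (inv_ne_zero hf0) hx, ?_, ?_⟩
  · rw [smul_pow, geom_pow hK, inv_pow, hfN, Algebra.smul_def, ← map_mul, inv_mul_cancel₀ hN,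
      map_one]
  · rw [smul_smul, mul_inv_cancel₀ hf0, one_smul]

theorem geom_one (hF3 : ¬ 3 ∣ Fintype.card F - 1) {u v : K} {f : F}
    (h1 : u ^ (Fintype.card F * Fintype.card F + Fintype.card F + 1) = 1)
    (h2 : v ^ (Fintype.card F * Fintype.card F + Fintype.card F + 1) = 1) (h : v = f • u) :
    v = u := by
  classical
  have hf : f ^ (Fintype.card F * Fintype.card F + Fintype.card F + 1) = 1 := by
    rw [h, smul_pow, h1, Algebra.smul_def, mul_one] at h2
    exact (algebraMap F K).injective (by rw [h2, map_one])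
  have hf0 : f ≠ 0 := by
    rintro rfl
    rw [zero_pow (by omega)] at hf
    exact zero_ne_one hf
  have hf2 : f ^ (Fintype.card F - 1) = 1 := FiniteField.pow_card_sub_one_eq_one f hf0
  have hf3 : f = 1 := by
    have := pow_gcd_eq_one.2 ⟨hf, hf2⟩
    rwa [geom_coprime hF3, pow_one] at this
  rw [h, hf3, one_smul]

omit [Fintype F] in
theorem sing_apply (u : K) (hu : u ≠ 0) (p : F × K) : sing F u hu p = (p.1, u * p.2) := rfl

omit [Fintype F] in
theorem geom_data {S : Set (Submodule F (F × K))}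
    {J : Module.End F (F × K)} {τ δ : F} (h : Ker S J τ δ) (hJ : J (1, 0) = (0, 1)) :
    ∃ (A : K →ₗ[F] K) (b : K →ₗ[F] F), (∀ y, J (0, y) = (b y, A y)) ∧
      A 1 = algebraMap F K τ ∧ b 1 = -δ ∧ (∀ y, b (A y) = τ * b y) ∧
      (∀ y, A (A y) = τ • A y - δ • y - algebraMap F K (b y)) := by
  refine ⟨LinearMap.snd F F K ∘ₗ J ∘ₗ LinearMap.inr F F K,
    LinearMap.fst F F K ∘ₗ J ∘ₗ LinearMap.inr F F K, ?_⟩
  set A : K →ₗ[F] K := LinearMap.snd F F K ∘ₗ J ∘ₗ LinearMap.inr F F K with hA
  set b : K →ₗ[F] F := LinearMap.fst F F K ∘ₗ J ∘ₗ LinearMap.inr F F K with hb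
  have h0 : ∀ y, J (0, y) = (b y, A y) := fun y => rfl
  have h1 : J (0, 1) = (-δ, τ • (1 : K)) := by
    rw [← hJ, h.quad, hJ]
    ext <;> simp
  have h2 : ∀ (x : F) (y : K), J (x, y) = (b y, A y + x • (1 : K)) := by
    intro x y
    have h3 : ((x, y) : F × K) = x • ((1, 0) : F × K) + (0, y) := by ext <;> simp
    rw [h3, map_add, map_smul, hJ, h0]
    ext
    · simp
    · simp [add_comm]
  have h4 : ∀ y, J (J (0, y)) = (τ * b y, τ • A y - δ • y) := by
    intro y
    rw [h.quad, h0]
    ext <;> simp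
  have h5 : ∀ y, (b (A y), A (A y) + b y • (1 : K)) = (τ * b y, τ • A y - δ • y) := by
    intro y
    rw [← h4, h0, h2]
  refine ⟨h0, ?_, ?_, ?_, ?_⟩
  · have := congrArg Prod.snd ((h0 1).symm.trans h1)
    simpa [Algebra.smul_def] using this
  · exact congrArg Prod.fst ((h0 1).symm.trans h1)
  · intro y
    exact congrArg Prod.fst (h5 y)
  · intro y
    have := congrArg Prod.snd (h5 y)
    simp only at this
    rw [← this, Algebra.smul_def, mul_one, add_sub_cancel_right]

end field

theorem exists_gdata {F K : Type*} [Field F] [Fintype F] [Field K] [Algebra F K]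
    (hF : 2 < Fintype.card F) (hF3 : ¬ 3 ∣ Fintype.card F - 1) (hK : finrank F K = 3)
    {P : Set (Set (Submodule F (F × K)))} (hP : IsPacking P) (hR : ∀ S ∈ P, IsRegular S)
    (hinv : ∀ (u : K) (hu : u ≠ 0),
      u ^ (Fintype.card F * Fintype.card F + Fintype.card F + 1) = 1 →
      ∀ S ∈ P, im (sing F u hu) S ∈ P) :
    ∃ (A : K →ₗ[F] K) (b : K →ₗ[F] F) (τ δ : F), GData F A b τ δ := by
  classical
  have hfin : FiniteDimensional F K := FiniteDimensional.of_finrank_pos (by rw [hK]; norm_num)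
  have hV : finrank F (F × K) = 4 := by rw [finrank_prod, finrank_self, hK]
  obtain ⟨γ, hγ0, hγ1⟩ := exists_gamma (F := F) (by rw [Nat.card_eq_fintype_card]; exact hF)
  set n := Fintype.card F * Fintype.card F + Fintype.card F + 1 with hn
  have hn0 : n ≠ 0 := by omega
  -- the lines through e0
  have hind : ∀ y : K, y ≠ 0 → LinearIndependent F ![((1, 0) : F × K), ((0, y) : F × K)] := by
    intro y hy
    refine indep_of (by simp) ?_
    intro c hc
    have h1 := congrArg Prod.snd hc
    simp at h1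
    exact hy h1
  have hline : ∀ y : K, y ≠ 0 →
      IsLine (Submodule.span F {((1, 0) : F × K), ((0, y) : F × K)}) :=
    fun y hy => isLine_span (hind y hy)
  -- the first spread
  obtain ⟨S, ⟨hSP, hLS⟩, -⟩ := hP.cover _ (hline 1 one_ne_zero)
  have hS := hP.spread S hSP
  obtain ⟨J₀, τ₀, δ₀, hJ₀⟩ := exists_ker hV hγ0 hγ1 hS (hR S hSP)
  have h1 : J₀ (1, 0) ∈ Submodule.span F {((1, 0) : F × K), ((0, 1) : F × K)} :=
    (hJ₀.mem _ (hline 1 one_ne_zero)).1 hLS _ (Submodule.subset_span (by simp))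
  obtain ⟨x, y, hxy⟩ := Submodule.mem_span_pair.1 h1
  have hy : y ≠ 0 := by
    rintro rfl
    rw [zero_smul, add_zero] at hxy
    exact hJ₀.ne _ (by simp) x hxy.symm
  obtain ⟨τ, δ, hJ⟩ := geom_affine hJ₀ x y hy
  set J := y⁻¹ • (J₀ - x • LinearMap.id) with hJdef
  have hJe : J (1, 0) = (0, 1) := by
    rw [hJdef]
    simp only [LinearMap.smul_apply, LinearMap.sub_apply, LinearMap.id_apply]
    rw [← hxy, add_sub_cancel_left, smul_smul, inv_mul_cancel₀ hy, one_smul]
  obtain ⟨A, b, hAb, hA1, hb1, hbA, hAA⟩ := geom_data hJ hJe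
  refine ⟨A, b, τ, δ, hA1, hb1, hbA, hAA, fun x => hJ.no_root x, ?_⟩
  intro c hc w hw
  have hwc : ∀ v : K, v ≠ 0 → LinearIndependent F ![((0, v) : F × K), ((1, w • (v * c)) : F × K)] := by
    intro v hv
    refine indep_of (by simpa using hv) ?_
    intro a ha
    have h1 := congrArg Prod.fst ha
    simp at h1
  set L : Submodule F (F × K) := Submodule.span F {((0, 1) : F × K), ((1, w • c) : F × K)} with hL
  have hLl : IsLine L := by
    have := isLine_span (hwc 1 one_ne_zero)
    rwa [one_mul] at this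
  obtain ⟨S', ⟨hS'P, hLS'⟩, hS'u⟩ := hP.cover _ hLl
  have hS' := hP.spread S' hS'P
  -- the image of a line under sing
  have hmap : ∀ (u : K) (hu : u ≠ 0) (p p' : F × K),
      (Submodule.span F {p, p'}).map (sing F u hu : (F × K) →ₗ[F] (F × K)) =
        Submodule.span F {sing F u hu p, sing F u hu p'} := by
    intro u hu p p'
    rw [Submodule.map_span, Set.image_pair]
    rfl
  -- key: solutions
  have key : ∀ v : K, ∀ hv : v ≠ 0, v ^ n = 1 →
      ((∃ ρ : F, A v = (b v * w) • (v * c) + ρ • v) ↔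
        im (sing F v⁻¹ (inv_ne_zero hv)) S = S') := by
    intro v hv hvn
    have hvi : v⁻¹ ≠ 0 := inv_ne_zero hv
    have hvin : v⁻¹ ^ n = 1 := by rw [inv_pow, hvn, inv_one]
    have hT : IsLine (Submodule.span F {((0, v) : F × K), ((1, w • (v * c)) : F × K)}) :=
      isLine_span (hwc v hv)
    have hTL : (Submodule.span F {((0, v) : F × K), ((1, w • (v * c)) : F × K)}).map
        (sing F v⁻¹ hvi : (F × K) →ₗ[F] (F × K)) = L := by
      rw [hmap, hL, sing_apply, sing_apply]
      congr 3
      · simp [inv_mul_cancel₀ hv]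
      · simp only [Prod.mk.injEq, true_and]
        rw [mul_smul_comm, inv_mul_cancel_left₀ hv]
    have hJv : J (0, v) = (b v, A v) := hAb v
    constructor
    · rintro ⟨ρ, hρ⟩
      have hb0 : b v ≠ 0 := by
        intro hb0
        rw [hb0, zero_mul, zero_smul, zero_add] at hρ
        refine hJ.ne ((0, v) : F × K) (by simpa using hv) ρ ?_
        rw [hJv, hb0, hρ]
        simp
      have hTS : Submodule.span F {((0, v) : F × K), ((1, w • (v * c)) : F × K)} ∈ S := by
        have h2 := hJ.line (v := ((0, v) : F × K)) (by simpa using hv)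
        have h3 : Submodule.span F {((0, v) : F × K), J (0, v)} ≤
            Submodule.span F {((0, v) : F × K), ((1, w • (v * c)) : F × K)} := by
          rw [Submodule.span_le]
          rintro z (rfl | rfl)
          · exact Submodule.subset_span (by simp)
          · rw [SetLike.mem_coe, Submodule.mem_span_pair]
            refine ⟨ρ, b v, ?_⟩
            rw [hJv, hρ]
            ext
            · simp
            · simp only [Prod.smul_mk, Prod.mk_add_mk]
              rw [smul_smul, add_comm]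
        rwa [(hS.line _ h2).eq_of_le hT h3] at h2
      have h4 : im (sing F v⁻¹ hvi) S ∈ P := hinv _ hvi hvin S hSP
      exact hS'u _ ⟨h4, ⟨_, hTS, hTL⟩⟩
    · intro h2
      rw [← h2] at hLS'
      obtain ⟨T, hTS, hTL'⟩ := hLS'
      have h3 : T = Submodule.span F {((0, v) : F × K), ((1, w • (v * c)) : F × K)} := by
        have hinj := Submodule.map_injective_of_injective
          (f := (sing F v⁻¹ hvi : (F × K) →ₗ[F] (F × K))) (sing F v⁻¹ hvi).injective
        exact hinj (hTL'.trans hTL.symm)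
      have h4 := (hJ.mem T (hS.line T hTS)).1 hTS (0, v) (by
        rw [h3]; exact Submodule.subset_span (by simp))
      rw [h3, hJv, Submodule.mem_span_pair] at h4
      obtain ⟨ρ, s, h5⟩ := h4
      have h6 := congrArg Prod.fst h5
      have h7 := congrArg Prod.snd h5
      simp only [Prod.smul_mk, Prod.mk_add_mk, smul_eq_mul, mul_zero, mul_one, zero_add] at h6 h7
      refine ⟨ρ, ?_⟩
      rw [← h7, h6, smul_smul, add_comm]
  -- the line of S' through e0
  obtain ⟨U, ⟨hUS', heU⟩, -⟩ := hS'.cover ((1, 0) : F × K) (by simp)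
  have hUl := hS'.line U hUS'
  obtain ⟨y', hy', hyU⟩ : ∃ y' : K, y' ≠ 0 ∧ ((0, y') : F × K) ∈ U := by
    by_contra hcon
    push Not at hcon
    have h2 : U ≤ Submodule.span F {((1, 0) : F × K)} := by
      rintro ⟨a, z⟩ hz
      have h3 : ((0, z) : F × K) ∈ U := by
        have h4 := U.sub_mem hz (U.smul_mem a heU)
        simpa using h4
      have h4 : z = 0 := by
        by_contra h5
        exact hcon z h5 h3
      rw [Submodule.mem_span_singleton]
      exact ⟨a, by simp [h4]⟩
    have h3 := Submodule.finrank_mono h2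
    rw [finrank_span_singleton (by simp)] at h3
    have h4 : finrank F U = 2 := hUl
    omega
  obtain ⟨f, u, hf, hu, hun, hyf⟩ := geom_norm hF3 hK hy'
  have huU : ((0, u) : F × K) ∈ U := by
    have h2 := U.smul_mem f⁻¹ hyU
    have h3 : f⁻¹ • ((0, y') : F × K) = (0, u) := by
      rw [hyf]
      simp [smul_smul, inv_mul_cancel₀ hf]
    rwa [h3] at h2
  have hUu : U = Submodule.span F {((1, 0) : F × K), ((0, u) : F × K)} :=
    hUl.eq_span heU huU (hind u hu)
  -- the spread determined by a solution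
  have himg : ∀ (v : K) (hv : v ≠ 0), Submodule.span F {((1, 0) : F × K), ((0, v) : F × K)} ∈
      im (sing F v hv) S := by
    intro v hv
    refine ⟨_, hLS, ?_⟩
    change (Submodule.span F {((1, 0) : F × K), ((0, 1) : F × K)}).map
      (sing F v hv : (F × K) →ₗ[F] (F × K)) = _
    rw [hmap, sing_apply, sing_apply]
    simp
  have hSu : im (sing F u hu) S = S' := by
    have h2 : im (sing F u hu) S ∈ P := hinv u hu hun S hSP
    obtain ⟨S'', hS'', hu''⟩ := hP.cover U hUl
    rw [hu'' _ ⟨h2, by rw [hUu]; exact himg u hu⟩, hu'' _ ⟨hS'P, hUS'⟩]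
  refine ⟨u⁻¹, ⟨?_, ?_⟩, ?_⟩
  · change u⁻¹ ^ n = 1
    rw [inv_pow, hun, inv_one]
  · refine (key u⁻¹ (inv_ne_zero hu) (by rw [inv_pow, hun, inv_one])).2 ?_
    rw [← hSu]
    congr 1
    ext p <;> simp [sing_apply]
  · rintro v ⟨hvn, hρ⟩
    change v ^ n = 1 at hvn
    have hv : v ≠ 0 := by
      rintro rfl
      rw [zero_pow hn0] at hvn
      exact zero_ne_one hvn
    have h2 := (key v hv hvn).1 hρ
    have h3 := himg v⁻¹ (inv_ne_zero hv)
    rw [h2] at h3
    have h4 := hS'.disj h3 hUS' (v := ((1, 0) : F × K)) (by simp)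
      (Submodule.subset_span (by simp)) heU
    have h5 : ((0, v⁻¹) : F × K) ∈ U := by
      rw [← h4]
      exact Submodule.subset_span (by simp)
    rw [hUu, Submodule.mem_span_pair] at h5
    obtain ⟨a, f', h6⟩ := h5
    have h7 := congrArg Prod.fst h6
    have h8 := congrArg Prod.snd h6
    simp at h7 h8
    have h9 := geom_one hF3 hun (v := v⁻¹) (f := f')
      (by rw [← hn, inv_pow, hvn, inv_one]) h8.symm
    rw [← h9, inv_inv]

end Pool.Agent.RegPack.C3
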