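import Mathlib
import Pool.Agent.Lib_MP_cd200f_c3.Defs
import Pool.Agent.Lib_MP_cd200f_c3.Geom

/-!
# An eigenvector of the pencil outside the kernel of `b` excludes one in the kernel
-/

namespace Pool.Agent.RegPack.C3

open Module

theorem notwo {F K : Type*} [Field F] [Fintype F] [Field K] [Algebra F K]
    (hF3 : ¬ 3 ∣ Fintype.card F - 1) (hK : finrank F K = 3) {A : K →ₗ[F] K} {b : K →ₗ[F] F}
    {τ δ : F} (h : GData F A b τ δ) (c : K) (hc : c ∉ Set.range (algebraMap F K)) {r y : F}
    (hy : y ≠ 0) {x z : K} (hx : A x - τ • x = y • ((c + algebraMap F K r) * x))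
    (hz : A z - τ • z = y • ((c + algebraMap F K r) * z)) (hbx : b x ≠ 0) (hbz : b z = 0) :
    z = 0 := by
  by_contra hz0
  have hbt : ∀ t : F, b (x + t • z) = b x := fun t => by
    rw [map_add, map_smul, hbz, smul_zero, add_zero]
  have hne : ∀ t : F, x + t • z ≠ 0 := by
    intro t ht
    apply hbx
    rw [← hbt t, ht, map_zero]
  choose f v hf hv hvn hfv using fun t => geom_norm hF3 hK (hne t)
  have hsol : ∀ t : F, A (x + t • z) - τ • (x + t • z) =
      y • ((c + algebraMap F K r) * (x + t • z)) := by
    intro t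
    have h1 : A (x + t • z) - τ • (x + t • z) = (A x - τ • x) + t • (A z - τ • z) := by
      rw [map_add, map_smul]
      module
    rw [h1, hx, hz, mul_add, smul_add, mul_smul_comm, smul_comm t y]
  have hw0 : ∀ t, y * f t * (b x)⁻¹ ≠ 0 := fun t =>
    mul_ne_zero (mul_ne_zero hy (hf t)) (inv_ne_zero hbx)
  have hA : ∀ t, A (v t) = (b (v t) * (y * f t * (b x)⁻¹)) • (v t * c) + (τ + y * r) • v t := by
    intro t
    have h1 := hsol t
    rw [hfv t, map_smul, smul_comm τ, ← smul_sub, mul_smul_comm, smul_comm y] at h1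
    have h2 := smul_right_injective K (hf t) h1
    have h3 : f t * b (v t) = b x := by
      rw [← hbt t, hfv t, map_smul, smul_eq_mul]
    have h4 : b (v t) * (y * f t * (b x)⁻¹) = y := by
      rw [← h3]
      have h5 : b (v t) ≠ 0 := by
        intro h6
        rw [h6, mul_zero] at h3
        exact hbx h3.symm
      have := hf t
      field_simp
    rw [h4, eq_add_of_sub_eq h2, add_mul, ← Algebra.smul_def, smul_add, smul_smul, add_smul,
      mul_comm c]
    abel
  have hinj : Function.Injective (fun t => y * f t * (b x)⁻¹) := by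
    intro s t hst
    simp only at hst
    obtain ⟨u, _, hu⟩ := h.uniq c hc _ (hw0 t)
    have h1 := hu (v t) ⟨hvn t, _, hA t⟩
    have h2 := hu (v s) ⟨hvn s, τ + y * r, by rw [← hst]; exact hA s⟩
    have h3 : f s = f t := by
      have h4 := mul_right_cancel₀ (inv_ne_zero hbx) hst
      exact mul_left_cancel₀ hy h4
    have h5 : x + s • z = x + t • z := by
      rw [hfv s, hfv t, h1, h2, h3]
    have h6 := add_left_cancel h5
    exact smul_left_injective F hz0 h6
  obtain ⟨t, ht⟩ := Finite.injective_iff_surjective.1 hinj 0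
  exact hw0 t ht

end Pool.Agent.RegPack.C3
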