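import Mathlib
import Pool.Agent.Lib_MP_cd200f_c3.Defs

/-!
# The kernel of `b` contains exactly one eigenvector of the pencil
-/

namespace Pool.Agent.RegPack.C3

open Module

theorem count3_stab {F K : Type*} [Field F] [Field K] [Algebra F K] (hK : finrank F K = 3)
    (M : Submodule F K) (hM : M ≠ ⊤) (c : K) (hc : c ∉ Set.range (algebraMap F K))
    (hcM : ∀ m ∈ M, c * m ∈ M) : ∀ m ∈ M, m = 0 := by
  intro m hm
  by_contra hm0
  let R : Subalgebra F K :=
    { carrier := {k | ∀ m ∈ M, k * m ∈ M}
      mul_mem' := by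
        intro x y hx hy m hm
        rw [mul_assoc]
        exact hx _ (hy _ hm)
      add_mem' := by
        intro x y hx hy m hm
        rw [add_mul]
        exact M.add_mem (hx _ hm) (hy _ hm)
      algebraMap_mem' := by
        intro r m hm
        rw [← Algebra.smul_def]
        exact M.smul_mem _ hm }
  have hso : IsSimpleOrder (Subalgebra F K) :=
    Subalgebra.isSimpleOrder_of_finrank_prime F K (by rw [hK]; exact Nat.prime_three)
  rcases hso.eq_bot_or_eq_top R with h | h
  · have h1 : c ∈ R := hcM
    rw [h, Algebra.mem_bot] at h1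
    exact hc h1
  · apply hM
    rw [eq_top_iff]
    intro k _
    have h1 : k * m⁻¹ ∈ R := by rw [h]; exact Algebra.mem_top
    have h2 := h1 m hm
    rwa [mul_assoc, inv_mul_cancel₀ hm0, mul_one] at h2

theorem count3 {F K : Type*} [Field F] [Fintype F] [Field K] [Algebra F K]
    (hK : finrank F K = 3) {A : K →ₗ[F] K} {b : K →ₗ[F] F} {τ δ : F} (h : GData F A b τ δ)
    (c : K) (hc : c ∉ Set.range (algebraMap F K)) :
    ∃! p : F × F, p.2 ≠ 0 ∧ ∃ x : K, x ≠ 0 ∧ b x = 0 ∧
      A x - τ • x = p.2 • ((c + algebraMap F K p.1) * x) := by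
  have hfin : FiniteDimensional F K := FiniteDimensional.of_finrank_pos (by rw [hK]; norm_num)
  have hδ : δ ≠ 0 := by
    have := h.nr 0
    simpa using this
  have hb1 : b 1 ≠ 0 := by rw [h.b1]; exact neg_ne_zero.2 hδ
  -- `m0` has dimension two
  have hker : finrank F (LinearMap.ker b) = 2 := by
    have h1 := LinearMap.finrank_range_add_finrank_ker b
    have h2 : finrank F (LinearMap.range b) = 1 := by
      have h3 : LinearMap.range b = ⊤ := by
        rw [LinearMap.range_eq_top]
        intro y
        refine ⟨(y * (b 1)⁻¹) • (1 : K), ?_⟩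
        rw [map_smul, smul_eq_mul, mul_assoc, inv_mul_cancel₀ hb1, mul_one]
      rw [h3, finrank_top, finrank_self]
    omega
  have hktop : LinearMap.ker b ≠ ⊤ := by
    intro h1
    apply hb1
    have : (1 : K) ∈ LinearMap.ker b := by rw [h1]; exact Submodule.mem_top
    exact this
  -- no eigenvectors
  have hne : ∀ m : K, m ≠ 0 → b m = 0 → ∀ x : F, A m ≠ x • m := by
    intro m hm hbm x hx
    have h1 := h.AA m
    rw [hx, map_smul, hx, hbm, map_zero, sub_zero, smul_smul, smul_smul, ← sub_smul,
      ← sub_eq_zero, ← sub_smul] at h1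
    rcases smul_eq_zero.1 h1 with h2 | h2
    · apply h.nr x
      linear_combination h2
    · exact hm h2
  -- two independent vectors of the kernel span it
  have hspan : ∀ x y : K, b x = 0 → b y = 0 → LinearIndependent F ![x, y] →
      ∀ z, b z = 0 → ∃ s t : F, z = s • x + t • y := by
    intro x y hx hy hli z hz
    have h1 : Submodule.span F {x, y} ≤ LinearMap.ker b := by
      rw [Submodule.span_le]
      intro w hw
      rcases hw with rfl | hw
      · exact hx
      · rw [Set.mem_singleton_iff] at hw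
        rw [hw]
        exact hy
    have h2 : finrank F (Submodule.span F ({x, y} : Set K)) = 2 := by
      have h3 := finrank_span_eq_card hli
      rw [Fintype.card_fin, Matrix.range_cons, Matrix.range_cons, Matrix.range_empty,
        Set.union_empty, Set.singleton_union] at h3
      exact h3
    have h3 := Submodule.eq_of_le_of_finrank_eq h1 (by rw [h2, hker])
    have h4 : z ∈ Submodule.span F ({x, y} : Set K) := by rw [h3]; exact hz
    obtain ⟨s, t, hst⟩ := Submodule.mem_span_pair.1 h4
    exact ⟨s, t, hst.symm⟩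
  -- existence of `m` with `b m = 0`, `b (c m) = 0`
  obtain ⟨m, hm0, hbm, hbcm⟩ : ∃ m : K, m ≠ 0 ∧ b m = 0 ∧ b (c * m) = 0 := by
    have h1 := LinearMap.finrank_range_add_finrank_ker
      ((b ∘ₗ LinearMap.mulLeft F c).domRestrict (LinearMap.ker b))
    have h2 : finrank F (LinearMap.range
        ((b ∘ₗ LinearMap.mulLeft F c).domRestrict (LinearMap.ker b))) ≤ 1 := by
      have := Submodule.finrank_le (LinearMap.range
        ((b ∘ₗ LinearMap.mulLeft F c).domRestrict (LinearMap.ker b)))
      rwa [finrank_self] at this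
    rw [hker] at h1
    have h3 : 0 < finrank F (LinearMap.ker
        ((b ∘ₗ LinearMap.mulLeft F c).domRestrict (LinearMap.ker b))) := by omega
    have h4 : LinearMap.ker
        ((b ∘ₗ LinearMap.mulLeft F c).domRestrict (LinearMap.ker b)) ≠ ⊥ := by
      intro h5
      rw [h5, finrank_bot] at h3
      exact lt_irrefl _ h3
    obtain ⟨⟨m, hm⟩, hm1, hm2⟩ := Submodule.exists_mem_ne_zero_of_ne_bot h4
    refine ⟨m, ?_, hm, ?_⟩
    · rintro rfl
      exact hm2 rfl
    · simpa using hm1
  have hAm : b (A m) = 0 := by rw [h.bA, hbm, mul_zero]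
  have hli : LinearIndependent F ![m, A m] := by
    rw [LinearIndependent.pair_iff' hm0]
    intro a ha
    exact hne m hm0 hbm a ha.symm
  obtain ⟨s, t, hst⟩ := hspan m (A m) hbm hAm hli (c * m) hbcm
  have ht : t ≠ 0 := by
    rintro rfl
    rw [zero_smul, add_zero, Algebra.smul_def] at hst
    exact hc ⟨s, (mul_right_cancel₀ hm0 hst).symm⟩
  -- uniqueness of the line
  have huniq : ∀ x : K, b x = 0 → b (c * x) = 0 → ∃ f : F, x = f • m := by
    intro x hx hcx
    by_contra hcon
    push Not at hcon
    have hli2 : LinearIndependent F ![m, x] := by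
      rw [LinearIndependent.pair_iff' hm0]
      intro a ha
      exact hcon a ha.symm
    have h1 : ∀ z ∈ LinearMap.ker b, c * z ∈ LinearMap.ker b := by
      intro z hz
      obtain ⟨s, t, rfl⟩ := hspan m x hbm hx hli2 z hz
      rw [LinearMap.mem_ker, mul_add, mul_smul_comm, mul_smul_comm, map_add, map_smul, map_smul,
        hbcm, hcx, smul_zero, smul_zero, add_zero]
    exact hm0 (count3_stab hK _ hktop c hc h1 m hbm)
  have key : A m - τ • m = t⁻¹ • ((c + algebraMap F K (-s - τ * t)) * m) := by
    have h1 : A m = t⁻¹ • (c * m - s • m) := by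
      rw [hst, add_sub_cancel_left, smul_smul, inv_mul_cancel₀ ht, one_smul]
    rw [h1, add_mul, ← Algebra.smul_def, sub_smul, neg_smul]
    rw [smul_sub, smul_add, smul_sub, smul_smul, smul_smul, smul_neg, smul_smul]
    have h2 : t⁻¹ * (τ * t) = τ := by field_simp
    rw [h2]
    abel
  refine ⟨(-s - τ * t, t⁻¹), ⟨inv_ne_zero ht, m, hm0, hbm, key⟩, ?_⟩
  rintro ⟨r, y⟩ ⟨hy, x, hx0, hbx, hx⟩
  simp only at hy hx
  have hcx : b (c * x) = 0 := by
    have h1 : c * x = y⁻¹ • (A x - τ • x) - r • x := by
      rw [hx, smul_smul, inv_mul_cancel₀ hy, one_smul, add_mul, ← Algebra.smul_def,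
        add_sub_cancel_right]
    rw [h1, map_sub, map_smul, map_sub, map_smul, map_smul, h.bA, hbx]
    simp
  obtain ⟨f, hf⟩ := huniq x hbx hcx
  have hf0 : f ≠ 0 := by
    rintro rfl
    rw [zero_smul] at hf
    exact hx0 hf
  have h1 : A m - τ • m = y • ((c + algebraMap F K r) * m) := by
    have h2 : f • (A m - τ • m) = f • (y • ((c + algebraMap F K r) * m)) := by
      rw [hf, map_smul, smul_comm τ f, ← smul_sub, mul_smul_comm, smul_comm y f] at hx
      exact hx
    exact smul_right_injective K hf0 h2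
  have h2 : t⁻¹ • (c + algebraMap F K (-s - τ * t)) = y • (c + algebraMap F K r) := by
    apply mul_right_cancel₀ hm0
    rw [smul_mul_assoc, smul_mul_assoc, ← h1, key]
  have h3 : y = t⁻¹ := by
    by_contra hcon
    apply hc
    have h4 : (t⁻¹ - y) ≠ 0 := sub_ne_zero.2 (Ne.symm hcon)
    refine ⟨(t⁻¹ - y)⁻¹ * (y * r - t⁻¹ * (-s - τ * t)), ?_⟩
    have h5 : (t⁻¹ - y) • c = algebraMap F K (y * r - t⁻¹ * (-s - τ * t)) := by
      rw [map_sub, map_mul, map_mul, ← Algebra.smul_def, ← Algebra.smul_def, sub_smul]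
      rw [smul_add, smul_add] at h2
      linear_combination (exp := 1) h2
    rw [map_mul, ← h5, ← Algebra.smul_def, smul_smul, inv_mul_cancel₀ h4, one_smul]
  subst h3
  have h4 := smul_right_injective K (inv_ne_zero ht) h2
  have h5 := add_left_cancel h4
  have h6 := (algebraMap F K).injective h5
  rw [← h6]

end Pool.Agent.RegPack.C3
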