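import Mathlib
import Pool.Agent.Lib_MP_cd200f_c3.Defs
import Pool.Agent.Lib_MP_cd200f_c3.Geom
import Pool.Agent.Lib_MP_cd200f_c3.Count1
import Pool.Agent.Lib_MP_cd200f_c3.Count3

/-!
# The pencil has exactly `q` eigenvectors
-/

namespace Pool.Agent.RegPack.C3

open Module

theorem GData.card {F K : Type*} [Field F] [Fintype F] [Field K] [Algebra F K]
    (hF : ¬ 3 ∣ Fintype.card F - 1) (hK : finrank F K = 3) {A : K →ₗ[F] K} {b : K →ₗ[F] F}
    {τ δ : F} (h : GData F A b τ δ) (c : K) (hc : c ∉ Set.range (algebraMap F K)) :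
    Nat.card {p : F × F // p.2 ≠ 0 ∧ ∃ x : K, x ≠ 0 ∧
        A x - τ • x = p.2 • ((c + algebraMap F K p.1) * x)} = Fintype.card F := by
  classical
  have hne : ∀ m : K, m ≠ 0 → b m = 0 → ∀ x : F, A m ≠ x • m := by
    intro m hm hbm x hx
    have h1 := h.AA m
    rw [hx, map_smul, hx, hbm, map_zero, sub_zero, smul_smul, smul_smul, ← sub_smul,
      ← sub_eq_zero, ← sub_smul] at h1
    rcases smul_eq_zero.1 h1 with h2 | h2
    · apply h.nr x
      linear_combination h2
    · exact hm h2
  have hn0 : Fintype.card F * Fintype.card F + Fintype.card F + 1 ≠ 0 := by omega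
  have hvne : ∀ v : K, v ^ (Fintype.card F * Fintype.card F + Fintype.card F + 1) = 1 →
      v ≠ 0 := by
    rintro v hv rfl
    rw [zero_pow hn0] at hv
    exact zero_ne_one hv
  obtain ⟨p0, ⟨hp0, x0, hx0, hbx0, hEx0⟩, hp0u⟩ := count3 hK h c hc
  have key : ∀ w : F, w ≠ 0 → ∃ (p : F × F) (v : K),
      v ^ (Fintype.card F * Fintype.card F + Fintype.card F + 1) = 1 ∧ b v ≠ 0 ∧
      p.2 = b v * w ∧ A v - τ • v = p.2 • ((c + algebraMap F K p.1) * v) := by
    intro w hw
    obtain ⟨v, ⟨hv, ρ, hρ⟩, -⟩ := h.uniq c hc w hw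
    have hbv : b v ≠ 0 := by
      intro hbv
      apply hne v (hvne v hv) hbv ρ
      rw [hρ, hbv, zero_mul, zero_smul, zero_add]
    have hy : b v * w ≠ 0 := mul_ne_zero hbv hw
    refine ⟨((ρ - τ) / (b v * w), b v * w), v, hv, hbv, rfl, ?_⟩
    simp only
    rw [hρ, add_mul, ← Algebra.smul_def, smul_add, smul_smul, mul_div_cancel₀ _ hy, sub_smul,
      mul_comm v c]
    abel
  choose! p v hv hbv hpv hEv using key
  have hp2 : ∀ w, w ≠ 0 → (p w).2 ≠ 0 := fun w hw => by
    rw [hpv w hw]
    exact mul_ne_zero (hbv w hw) hw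
  let φ : F → {p : F × F // p.2 ≠ 0 ∧ ∃ x : K, x ≠ 0 ∧
      A x - τ • x = p.2 • ((c + algebraMap F K p.1) * x)} := fun w =>
    if hw : w = 0 then ⟨p0, hp0, x0, hx0, hEx0⟩
    else ⟨p w, hp2 w hw, v w, hvne _ (hv w hw), hEv w hw⟩
  have hφ0 : (φ 0).1 = p0 := by simp [φ]
  have hφ1 : ∀ w, w ≠ 0 → (φ w).1 = p w := by
    intro w hw
    simp [φ, hw]
  -- a parameter `w ≠ 0` never gives `p0`
  have hsep : ∀ w, w ≠ 0 → p w ≠ p0 := by
    intro w hw hpw
    apply hx0
    refine notwo hF hK h c hc (hp2 w hw) (hEv w hw) ?_ (hbv w hw) hbx0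
    rw [hpw]
    exact hEx0
  have hinj : Function.Injective φ := by
    intro w w' hww
    have h1 : (φ w).1 = (φ w').1 := by rw [hww]
    by_cases hw : w = 0
    · by_cases hw' : w' = 0
      · rw [hw, hw']
      · exfalso
        rw [hw, hφ0, hφ1 w' hw'] at h1
        exact hsep w' hw' h1.symm
    · by_cases hw' : w' = 0
      · exfalso
        rw [hw', hφ0, hφ1 w hw] at h1
        exact hsep w hw h1
      · rw [hφ1 w hw, hφ1 w' hw'] at h1
        have hE' := hEv w' hw'
        rw [← h1] at hE'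
        have hz : b (v w') • v w - b (v w) • v w' = 0 := by
          refine notwo hF hK h c hc (hp2 w hw) (hEv w hw) ?_ (hbv w hw) ?_
          · have h2 : A (b (v w') • v w - b (v w) • v w') -
                τ • (b (v w') • v w - b (v w) • v w') =
                b (v w') • (A (v w) - τ • v w) - b (v w) • (A (v w') - τ • v w') := by
              rw [map_sub, map_smul, map_smul]
              module
            rw [h2, hEv w hw, hE', mul_sub, mul_smul_comm, mul_smul_comm, smul_sub,
              smul_comm (b (v w')), smul_comm (b (v w))]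
          · rw [map_sub, map_smul, map_smul, smul_eq_mul, smul_eq_mul]
            ring
        have h3 : v w' = ((b (v w))⁻¹ * b (v w')) • v w := by
          rw [sub_eq_zero] at hz
          rw [mul_smul, hz, smul_smul, inv_mul_cancel₀ (hbv w hw), one_smul]
        have h4 : v w' = v w := geom_one hF (hv w hw) (hv w' hw') h3
        have h5 : (p w).2 = (p w').2 := by rw [h1]
        rw [hpv w hw, hpv w' hw', h4] at h5
        exact mul_left_cancel₀ (hbv w hw) h5
  have hsurj : Function.Surjective φ := by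
    rintro ⟨⟨r, y⟩, hy, x, hx0', hx⟩
    simp only at hy hx
    by_cases hbx : b x = 0
    · refine ⟨0, Subtype.ext ?_⟩
      rw [hφ0]
      exact (hp0u (r, y) ⟨hy, x, hx0', hbx, hx⟩).symm
    · obtain ⟨f, u, hf, hu0, hu, hxu⟩ := geom_norm hF hK hx0'
      have hbu : b u ≠ 0 := by
        intro h1
        apply hbx
        rw [hxu, map_smul, h1, smul_zero]
      have hEu : A u - τ • u = y • ((c + algebraMap F K r) * u) := by
        rw [hxu, map_smul, smul_comm τ, ← smul_sub, mul_smul_comm, smul_comm y] at hx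
        exact smul_right_injective K hf hx
      have hw : y * (b u)⁻¹ ≠ 0 := mul_ne_zero hy (inv_ne_zero hbu)
      refine ⟨y * (b u)⁻¹, Subtype.ext ?_⟩
      rw [hφ1 _ hw]
      obtain ⟨u', _, hu'⟩ := h.uniq c hc _ hw
      have hbw : b u * (y * (b u)⁻¹) = y := by field_simp
      have h1 := hu' u ⟨hu, τ + y * r, by
        rw [hbw, eq_add_of_sub_eq hEu, add_mul, ← Algebra.smul_def, smul_add, smul_smul, add_smul,
          mul_comm c]
        abel⟩
      have h2 := hu' (v (y * (b u)⁻¹)) ⟨hv _ hw, τ + (p (y * (b u)⁻¹)).2 * (p (y * (b u)⁻¹)).1, by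
        rw [← hpv _ hw, eq_add_of_sub_eq (hEv _ hw), add_mul, ← Algebra.smul_def, smul_add,
          smul_smul, add_smul, mul_comm c]
        abel⟩
      have h3 : v (y * (b u)⁻¹) = u := h2.trans h1.symm
      have h4 : (p (y * (b u)⁻¹)).2 = y := by rw [hpv _ hw, h3, hbw]
      have h5 := hEv _ hw
      rw [h4, h3, hEu] at h5
      have h6 := smul_right_injective K hy h5
      have h7 := mul_right_cancel₀ hu0 h6
      have h8 := (algebraMap F K).injective (add_left_cancel h7)
      exact Prod.ext h8.symm h4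
  rw [← Nat.card_eq_of_bijective φ ⟨hinj, hsurj⟩, Nat.card_eq_fintype_card]

end Pool.Agent.RegPack.C3
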