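import Pool.Agent.Lib_MP_cd200f_c3.Geom
import Pool.Agent.Lib_MP_cd200f_co.Norm

/-!
# The Singer group of a linear map with an eigenvector and an irreducible complement
-/

namespace Pool.Agent.RegPack.C3

open Module Polynomial

/-- an irreducible linear map is multiplication by an element of a field -/
theorem cycb_field {F U : Type} [Field F] [AddCommGroup U] [Module F U] [FiniteDimensional F U]
    [Nontrivial U] (T : Module.End F U)
    (hirr : ∀ W : Submodule F U, (∀ w ∈ W, T w ∈ W) → W = ⊥ ∨ W = ⊤) :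
    ∃ (K : Type) (_ : Field K) (_ : Algebra F K) (φ : K ≃ₗ[F] U) (γ : K),
      ∀ k, φ (γ * k) = T (φ k) := by
  classical
  obtain ⟨u₀, hu₀⟩ := exists_ne (0 : U)
  have hint : IsIntegral F T := Algebra.IsIntegral.isIntegral T
  have hf0 : minpoly F T ≠ 0 := minpoly.ne_zero hint
  have haev : aeval T (minpoly F T) = 0 := minpoly.aeval F T
  have hcomm : ∀ (p : F[X]) (w : U), aeval T p (T w) = T (aeval T p w) := by
    intro p w
    have h1 : aeval T p * T = T * aeval T p := by
      have := congrArg (aeval T) (mul_comm p (X : F[X]))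
      rwa [map_mul, map_mul, aeval_X] at this
    exact congrArg (fun f : Module.End F U => f w) h1
  have hker : ∀ p : F[X], aeval T p = 0 ∨ ∀ w, aeval T p w = 0 → w = 0 := by
    intro p
    rcases hirr (LinearMap.ker (aeval T p)) (by
      intro w hw
      rw [LinearMap.mem_ker] at hw ⊢
      rw [hcomm, hw, map_zero]) with h | h
    · right
      intro w hw
      have h1 : w ∈ LinearMap.ker (aeval T p) := hw
      rw [h] at h1
      exact h1
    · left
      exact LinearMap.ker_eq_top.1 h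
  have hunit : ¬ IsUnit (minpoly F T) := by
    intro h
    exact minpoly.not_isUnit F T h
  have hirrf : Irreducible (minpoly F T) := by
    refine ⟨hunit, ?_⟩
    intro p q hpq
    have hpq' : ∀ w, aeval T p (aeval T q w) = 0 := by
      intro w
      have h1 : aeval T p * aeval T q = 0 := by rw [← map_mul, ← hpq, haev]
      exact congrArg (fun f : Module.End F U => f w) h1
    rcases hker p with h | h
    · right
      obtain ⟨r, hr⟩ := minpoly.dvd F T h
      have h2 : minpoly F T * (r * q) = minpoly F T * 1 := by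
        rw [mul_one, ← mul_assoc, ← hr, ← hpq]
      have h3 := mul_left_cancel₀ hf0 h2
      exact IsUnit.of_mul_eq_one r (by rw [mul_comm]; exact h3)
    · left
      have h1 : aeval T q = 0 := by
        ext w
        exact h _ (hpq' w)
      obtain ⟨r, hr⟩ := minpoly.dvd F T h1
      have h2 : minpoly F T * (p * r) = minpoly F T * 1 := by
        rw [mul_one]
        calc minpoly F T * (p * r) = p * (minpoly F T * r) := by ring
          _ = minpoly F T := by rw [← hr, ← hpq]
      have h3 := mul_left_cancel₀ hf0 h2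
      exact IsUnit.of_mul_eq_one r h3
  have : Fact (Irreducible (minpoly F T)) := ⟨hirrf⟩
  let ψ : AdjoinRoot (minpoly F T) →ₐ[F] Module.End F U :=
    Ideal.Quotient.liftₐ (Ideal.span {minpoly F T}) (aeval T) (by
      intro p hp
      rw [Ideal.mem_span_singleton] at hp
      obtain ⟨r, rfl⟩ := hp
      rw [map_mul, haev, zero_mul])
  have hψ : ψ (AdjoinRoot.root (minpoly F T)) = T := by
    change aeval T (X : F[X]) = T
    exact aeval_X T
  let φ : AdjoinRoot (minpoly F T) →ₗ[F] U := (LinearMap.applyₗ u₀) ∘ₗ ψ.toLinearMap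
  have hφ : ∀ k, φ k = ψ k u₀ := fun k => rfl
  have hφγ : ∀ k, φ (AdjoinRoot.root (minpoly F T) * k) = T (φ k) := by
    intro k
    rw [hφ, map_mul, hψ, hφ]
    rfl
  have hinj : Function.Injective φ := by
    rw [← LinearMap.ker_eq_bot, LinearMap.ker_eq_bot']
    intro k hk
    by_contra hk0
    apply hu₀
    have h1 : ψ (k⁻¹ * k) u₀ = ψ k⁻¹ (ψ k u₀) := by rw [map_mul]; rfl
    rw [inv_mul_cancel₀ hk0, map_one, ← hφ k, hk, map_zero] at h1
    exact h1
  have hsurj : Function.Surjective φ := by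
    rw [← LinearMap.range_eq_top]
    rcases hirr (LinearMap.range φ) (by
      rintro _ ⟨k, rfl⟩
      exact ⟨_, hφγ k⟩) with h | h
    · exfalso
      have h1 : φ 1 ∈ LinearMap.range φ := ⟨1, rfl⟩
      rw [h, Submodule.mem_bot, hφ, map_one] at h1
      exact hu₀ h1
    · exact h
  exact ⟨AdjoinRoot (minpoly F T), inferInstance, inferInstance,
    LinearEquiv.ofBijective φ ⟨hinj, hsurj⟩, AdjoinRoot.root (minpoly F T), hφγ⟩

theorem cycb_pow {F V : Type} [Field F] [AddCommGroup V] [Module F V]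
    {P : Set (Set (Submodule F V))} {g : V ≃ₗ[F] V} (hg : ∀ S ∈ P, im g S ∈ P) (n : ℕ) :
    ∀ S ∈ P, im (g ^ n) S ∈ P := by
  induction n with
  | zero =>
    intro S hS
    rw [pow_zero, im_one]
    exact hS
  | succ n ih =>
    intro S hS
    rw [pow_succ, im_mul]
    exact ih _ (hg S hS)

theorem singer_of_decomp {F V : Type} [Field F] [Fintype F] [CharP F 3] [AddCommGroup V]
    [Module F V] (hV : finrank F V = 4) {P : Set (Set (Submodule F V))} (hP : IsPacking P)
    (g : V ≃ₗ[F] V) (hg : ∀ S ∈ P, im g S ∈ P)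
    (htr : ∀ S ∈ P, ∀ T ∈ P, ∃ n : ℕ, im (g ^ n) S = T) (e₀ : V) (he : e₀ ≠ 0) (a : F)
    (ha : g e₀ = a • e₀) (U : Submodule F V) (hU : finrank F U = 3) (heU : e₀ ∉ U)
    (hgU : ∀ u ∈ U, g u ∈ U)
    (hirr : ∀ W ≤ U, (∀ w ∈ W, g w ∈ W) → W = ⊥ ∨ W = U) :
    ∃ (K : Type) (_ : Field K) (_ : Algebra F K) (e : V ≃ₗ[F] (F × K)), finrank F K = 3 ∧
      ∀ (u : K) (hu : u ≠ 0),
        u ^ (Fintype.card F * Fintype.card F + Fintype.card F + 1) = 1 →
        ∀ S ∈ P, im ((e.trans (sing F u hu)).trans e.symm) S ∈ P := by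
  classical
  have hfV : FiniteDimensional F V := FiniteDimensional.of_finrank_pos (by rw [hV]; norm_num)
  have hnt : Nontrivial U := Module.nontrivial_of_finrank_pos (R := F) (by rw [hU]; norm_num)
  let T : Module.End F U := (g : V →ₗ[F] V).restrict hgU
  have hT : ∀ w : U, ((T w : U) : V) = g w := fun w => rfl
  obtain ⟨K, hKf, hKa, φ, γ, hφ⟩ := cycb_field T (by
    intro W hW
    have h1 := hirr (W.map U.subtype) (Submodule.map_subtype_le U W) (by
      rintro _ ⟨w, hw, rfl⟩
      exact ⟨T w, hW w hw, rfl⟩)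
    rcases h1 with h1 | h1
    · left
      rw [Submodule.eq_bot_iff]
      intro w hw
      have h2 : (w : V) ∈ W.map U.subtype := ⟨w, hw, rfl⟩
      rw [h1, Submodule.mem_bot] at h2
      exact Subtype.ext h2
    · right
      rw [eq_top_iff]
      intro w _
      have h2 : (w : V) ∈ W.map U.subtype := by
        rw [h1]
        exact w.2
      obtain ⟨w', hw', h3⟩ := h2
      have h4 : w' = w := Subtype.ext h3
      rwa [h4] at hw')
  have hK : finrank F K = 3 := by rw [φ.finrank_eq, hU]
  have hfK : FiniteDimensional F K := FiniteDimensional.of_finrank_pos (by rw [hK]; norm_num)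
  -- powers of g on U
  have hφn : ∀ (n : ℕ) (k : K), ((φ (γ ^ n * k) : U) : V) = (g ^ n) (φ k : V) := by
    intro n
    induction n with
    | zero => intro k; simp
    | succ n ih =>
      intro k
      rw [pow_succ, mul_assoc, ih, hφ, hT, pow_succ, LinearEquiv.mul_apply]
  have han : ∀ n : ℕ, (g ^ n) e₀ = a ^ n • e₀ := by
    intro n
    induction n with
    | zero => simp
    | succ n ih => rw [pow_succ, LinearEquiv.mul_apply, ha, map_smul, ih, smul_smul, pow_succ,
        mul_comm]
  have ha0 : a ≠ 0 := by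
    rintro rfl
    rw [zero_smul] at ha
    exact he ((LinearEquiv.map_eq_zero_iff g).1 ha)
  -- the isomorphism
  let Θ : (F × K) →ₗ[F] V := (LinearMap.toSpanSingleton F V e₀).coprod (U.subtype ∘ₗ φ.toLinearMap)
  have hΘ : ∀ x k, Θ (x, k) = x • e₀ + (φ k : V) := fun x k => by
    simp [Θ, LinearMap.coprod_apply]
  have hindep : ∀ (x : F) (w : V), w ∈ U → x • e₀ + w = 0 → x = 0 := by
    intro x w hw h1
    by_contra hx
    apply heU
    have h2 : e₀ = x⁻¹ • (-w) := by
      rw [← eq_neg_of_add_eq_zero_left h1, smul_smul, inv_mul_cancel₀ hx, one_smul]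
    rw [h2]
    exact U.smul_mem _ (U.neg_mem hw)
  have hinj : Function.Injective Θ := by
    rw [← LinearMap.ker_eq_bot, LinearMap.ker_eq_bot']
    rintro ⟨x, k⟩ h
    rw [hΘ] at h
    have h1 := hindep x _ (φ k).2 h
    subst h1
    rw [zero_smul, zero_add] at h
    have h2 : φ k = 0 := Subtype.ext h
    rw [(LinearEquiv.map_eq_zero_iff φ).1 h2]
    rfl
  have hdim : finrank F (F × K) = finrank F V := by rw [finrank_prod, finrank_self, hK, hV]
  let e : V ≃ₗ[F] (F × K) := (LinearMap.linearEquivOfInjective Θ hinj hdim).symm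
  have hes : ∀ p, e.symm p = Θ p := fun p => rfl
  have he' : ∀ x k, e (x • e₀ + (φ k : V)) = (x, k) := by
    intro x k
    rw [← hΘ, ← hes, LinearEquiv.apply_symm_apply]
  refine ⟨K, hKf, hKa, e, hK, ?_⟩
  -- transitivity
  have hind : ∀ y : K, y ≠ 0 → LinearIndependent F ![e₀, (φ y : V)] := by
    intro y hy
    refine indep_of he ?_
    intro c hc
    have h1 := hindep c (-(φ y : V)) (U.neg_mem (φ y).2) (by rw [hc, add_neg_cancel])
    rw [h1, zero_smul] at hc
    have h2 : φ y = 0 := Subtype.ext hc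
    exact hy ((LinearEquiv.map_eq_zero_iff φ).1 h2)
  have hline : ∀ y : K, y ≠ 0 → IsLine (Submodule.span F {e₀, (φ y : V)}) :=
    fun y hy => isLine_span (hind y hy)
  have key : ∀ y : K, y ≠ 0 → ∃ (f : F) (m : ℕ), f ≠ 0 ∧ y = f • γ ^ m := by
    intro y hy
    obtain ⟨S₁, ⟨hS₁, h1⟩, -⟩ := hP.cover _ (hline 1 one_ne_zero)
    obtain ⟨S₂, ⟨hS₂, h2⟩, -⟩ := hP.cover _ (hline y hy)
    obtain ⟨m, hm⟩ := htr S₁ hS₁ S₂ hS₂
    have h3 : (Submodule.span F {e₀, (φ 1 : V)}).map ((g ^ m : V ≃ₗ[F] V) : V →ₗ[F] V) ∈ S₂ := by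
      rw [← hm]
      exact ⟨_, h1, rfl⟩
    have h4 : e₀ ∈ (Submodule.span F {e₀, (φ 1 : V)}).map ((g ^ m : V ≃ₗ[F] V) : V →ₗ[F] V) := by
      refine ⟨(a ^ m)⁻¹ • e₀, Submodule.smul_mem _ _ (Submodule.subset_span (by simp)), ?_⟩
      change (g ^ m) ((a ^ m)⁻¹ • e₀) = e₀
      rw [map_smul, han, smul_smul, inv_mul_cancel₀ (pow_ne_zero m ha0), one_smul]
    have h5 := (hP.spread S₂ hS₂).disj h3 h2 he h4 (Submodule.subset_span (by simp))
    have h6 : (φ y : V) ∈ (Submodule.span F {e₀, (φ 1 : V)}).map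
        ((g ^ m : V ≃ₗ[F] V) : V →ₗ[F] V) := by
      rw [h5]
      exact Submodule.subset_span (by simp)
    rw [Submodule.map_span, Set.image_pair, Submodule.mem_span_pair] at h6
    obtain ⟨s, t, h7⟩ := h6
    have h8 : ((g ^ m : V ≃ₗ[F] V) : V →ₗ[F] V) e₀ = a ^ m • e₀ := han m
    have h9 : ((g ^ m : V ≃ₗ[F] V) : V →ₗ[F] V) (φ 1 : V) = (φ (γ ^ m) : V) := by
      have := hφn m 1
      rw [mul_one] at this
      exact this.symm
    rw [h8, h9, smul_smul] at h7
    have h10 : e (φ y : V) = (0, y) := by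
      have := he' 0 y
      rwa [zero_smul, zero_add] at this
    have h11 : e ((s * a ^ m) • e₀ + t • (φ (γ ^ m) : V)) = (s * a ^ m, t • γ ^ m) := by
      have := he' (s * a ^ m) (t • γ ^ m)
      rwa [map_smul] at this
    rw [h7, h10] at h11
    have h12 := congrArg Prod.snd h11
    simp only at h12
    refine ⟨t, m, ?_, h12⟩
    rintro rfl
    rw [zero_smul] at h12
    exact hy h12
  -- 3 does not divide q - 1
  have hF3 : ¬ 3 ∣ Fintype.card F - 1 := by
    have h1 : 3 ∣ Fintype.card F := by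
      rw [← CharP.cast_eq_zero_iff F 3]
      exact FiniteField.cast_card_eq_zero F
    have h2 : 0 < Fintype.card F := Fintype.card_pos
    omega
  intro u hu hun S hS
  obtain ⟨f, m, hf, huf⟩ := key u hu
  have hq1 : 1 < Fintype.card F := Fintype.one_lt_card
  obtain ⟨k, -, hk⟩ := Nat.exists_mul_mod_eq_one_of_coprime (geom_coprime hF3).symm
    (by nlinarith)
  set n := Fintype.card F * Fintype.card F + Fintype.card F + 1 with hn
  set N := m * ((Fintype.card F - 1) * k) with hN
  have h1 : u ^ ((Fintype.card F - 1) * k) = u := by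
    rw [← Nat.mod_add_div ((Fintype.card F - 1) * k) n, hk, pow_add, pow_mul, hun, one_pow,
      mul_one, pow_one]
  have hfq : f ^ (Fintype.card F - 1) = 1 := FiniteField.pow_card_sub_one_eq_one f hf
  have haq : a ^ (Fintype.card F - 1) = 1 := FiniteField.pow_card_sub_one_eq_one a ha0
  have hγN : γ ^ N = u := by
    rw [← h1]
    conv_rhs => rw [huf]
    rw [_root_.smul_pow, pow_mul f, hfq, one_pow, one_smul, hN, pow_mul]
  have haN : a ^ N = 1 := by
    rw [hN, mul_comm, pow_mul, pow_mul, haq, one_pow, one_pow]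
  have hG : (e.trans (sing F u hu)).trans e.symm = g ^ N := by
    ext v
    obtain ⟨⟨x, y⟩, rfl⟩ := e.symm.surjective v
    rw [LinearEquiv.trans_apply, LinearEquiv.trans_apply, LinearEquiv.apply_symm_apply,
      sing_apply, hes, hes, hΘ, hΘ, map_add, map_smul, han, haN, one_smul, ← hφn, hγN]
  rw [hG]
  exact cycb_pow hg N S hS

end Pool.Agent.RegPack.C3
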