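import Pool.Agent.Lib_MP_cd200f_c3.CycA
import Pool.Agent.Lib_MP_cd200f_c3.CycB

/-!
# From a cyclic group of linear maps to the Singer group
-/

set_option autoImplicit false

namespace Pool.Agent.RegPack.C3

open Module

theorem exists_singer {F V : Type} [Field F] [Fintype F] [CharP F 3] [AddCommGroup V] [Module F V]
    (hV : finrank F V = 4) {P : Set (Set (Submodule F V))} (hP : IsPacking P)
    (hR : ∀ S ∈ P, IsRegular S) (g : V ≃ₗ[F] V) (hg : ∀ S ∈ P, im g S ∈ P)
    (htr : ∀ S ∈ P, ∀ T ∈ P, ∃ n : ℕ, im (g ^ n) S = T) :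
    ∃ (K : Type) (_ : Field K) (_ : Algebra F K) (e : V ≃ₗ[F] (F × K)), finrank F K = 3 ∧
      ∀ (u : K) (hu : u ≠ 0),
        u ^ (Fintype.card F * Fintype.card F + Fintype.card F + 1) = 1 →
        ∀ S ∈ P, im ((e.trans (sing F u hu)).trans e.symm) S ∈ P := by
  have _ := hR
  obtain ⟨e₀, a, U, he, ha, heU, hU, hgU, hirr⟩ := cyc_split hV hP g hg htr
  exact singer_of_decomp hV hP g hg htr e₀ he a ha U hU heU hgU hirr

end Pool.Agent.RegPack.C3
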