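import Mathlib

/-!
# Cyclic regular packings of `PG(3, 3 ^ h)`: the field part of piece C9
-/

namespace Pool.Agent.RegPack.C3

open Module Polynomial

/-- the minimal polynomial of an operator without invariant subspaces is irreducible -/
theorem cyc_irreducible {F U : Type*} [Field F] [AddCommGroup U] [Module F U]
    [FiniteDimensional F U] [Nontrivial U] (g : Module.End F U)
    (hirr : ∀ W : Submodule F U, (∀ x ∈ W, g x ∈ W) → W = ⊥ ∨ W = ⊤) :
    Irreducible (minpoly F g) := by
  have hint : IsIntegral F g := Algebra.IsIntegral.isIntegral g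
  have h0 : minpoly F g ≠ 0 := minpoly.ne_zero hint
  have key : ∀ a b : F[X], minpoly F g = a * b → aeval g a = 0 → IsUnit b := by
    intro a b hab ha
    obtain ⟨c, hc⟩ := minpoly.dvd F g ha
    have ha0 : a ≠ 0 := by
      rintro rfl
      apply h0
      rw [hab, zero_mul]
    have h1 : a * 1 = a * (b * c) := by
      rw [mul_one, ← mul_assoc, ← hab]
      exact hc
    exact IsUnit.of_mul_eq_one _ (mul_left_cancel₀ ha0 h1).symm
  refine ⟨?_, ?_⟩
  · intro hu
    obtain ⟨c, hc⟩ := hu.exists_right_inv
    have h1 : aeval g (minpoly F g * c) = aeval g (1 : F[X]) := by rw [hc]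
    rw [map_mul, minpoly.aeval, zero_mul, map_one] at h1
    exact one_ne_zero h1.symm
  · intro a b hab
    rcases hirr (LinearMap.ker (aeval g a)) (by
      intro x hx
      rw [LinearMap.mem_ker] at hx ⊢
      have h2 : aeval g a (g x) = g (aeval g a x) := by
        have h3 : (aeval g a) * g = g * (aeval g a) := by
          have h4 : (aeval g (a * X) : Module.End F U) = aeval g (X * a) := by rw [mul_comm]
          simpa [map_mul, aeval_X] using h4
        have h5 := LinearMap.congr_fun h3 x
        simpa [Module.End.mul_apply] using h5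
      rw [h2, hx, map_zero]) with h | h
    · left
      apply key b a (by rw [hab, mul_comm])
      ext x
      have h6 : aeval g a (aeval g b x) = 0 := by
        have h7 : (aeval g (a * b) : Module.End F U) = 0 := by rw [← hab, minpoly.aeval]
        rw [map_mul] at h7
        have h8 := LinearMap.congr_fun h7 x
        simpa [Module.End.mul_apply] using h8
      have h9 : aeval g b x ∈ LinearMap.ker (aeval g a) := h6
      rw [h, Submodule.mem_bot] at h9
      simpa using h9
    · right
      exact key a b hab (LinearMap.ker_eq_top.1 h)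

/-- an invertible operator on a space of dimension three without invariant subspaces is the
multiplication by an element of the cubic extension -/
theorem cyc_field {F U : Type} [Field F] [AddCommGroup U] [Module F U]
    (hU : finrank F U = 3) (g : U →ₗ[F] U)
    (hirr : ∀ W : Submodule F U, (∀ x ∈ W, g x ∈ W) → W = ⊥ ∨ W = ⊤) :
    ∃ (K : Type) (_ : Field K) (_ : Algebra F K) (e : U ≃ₗ[F] K) (γ : K), finrank F K = 3 ∧
      ∀ x, e (g x) = γ * e x := by
  have : FiniteDimensional F U := FiniteDimensional.of_finrank_pos (by omega)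
  have : Nontrivial U := Module.nontrivial_of_finrank_pos (R := F) (by omega)
  have hI := cyc_irreducible g hirr
  have : Fact (Irreducible (minpoly F g)) := ⟨hI⟩
  let φ : AdjoinRoot (minpoly F g) →ₐ[F] Module.End F U :=
    Ideal.Quotient.liftₐ (Ideal.span {minpoly F g}) (aeval g) (by
      intro a ha
      obtain ⟨c, rfl⟩ := Ideal.mem_span_singleton.1 ha
      rw [map_mul, minpoly.aeval, zero_mul])
  have hφ : φ (AdjoinRoot.root (minpoly F g)) = g := by
    change aeval g X = g
    rw [aeval_X]
  obtain ⟨u0, hu0⟩ := exists_ne (0 : U)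
  let ψ : AdjoinRoot (minpoly F g) →ₗ[F] U := (LinearMap.applyₗ u0).comp φ.toLinearMap
  have hψ : ∀ k, ψ k = φ k u0 := fun k => rfl
  have hmul : ∀ k, ψ (AdjoinRoot.root (minpoly F g) * k) = g (ψ k) := by
    intro k
    rw [hψ, hψ, map_mul, hφ]
    rfl
  have hinj : Function.Injective ψ := by
    rw [injective_iff_map_eq_zero]
    intro k hk
    by_contra hk0
    apply hu0
    have h1 : φ (k⁻¹ * k) u0 = u0 := by
      rw [inv_mul_cancel₀ hk0, map_one]
      rfl
    rw [map_mul] at h1
    rw [← h1]
    change φ k⁻¹ (φ k u0) = 0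
    rw [← hψ k, hk, map_zero]
  have hsurj : LinearMap.range ψ = ⊤ := by
    rcases hirr (LinearMap.range ψ) (by
      rintro _ ⟨k, rfl⟩
      exact ⟨AdjoinRoot.root (minpoly F g) * k, hmul k⟩) with h | h
    · exfalso
      apply hu0
      have h2 : ψ 1 ∈ LinearMap.range ψ := ⟨1, rfl⟩
      rw [h, Submodule.mem_bot, hψ, map_one] at h2
      exact h2
    · exact h
  let E : AdjoinRoot (minpoly F g) ≃ₗ[F] U :=
    LinearEquiv.ofBijective ψ ⟨hinj, LinearMap.range_eq_top.1 hsurj⟩
  refine ⟨AdjoinRoot (minpoly F g), inferInstance, inferInstance, E.symm,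
    AdjoinRoot.root (minpoly F g), ?_, ?_⟩
  · rw [E.finrank_eq, hU]
  · intro x
    rw [LinearEquiv.symm_apply_eq]
    have h3 : E (AdjoinRoot.root (minpoly F g) * E.symm x) = g (E (E.symm x)) :=
      hmul (E.symm x)
    rw [h3, LinearEquiv.apply_symm_apply]

/-- elements of order dividing `q ^ 2 + q + 1` are powers of `γ` -/
theorem cyc_pow {F K : Type*} [Field F] [Fintype F] [CharP F 3] [Field K] [Algebra F K]
    {γ : K} (hγ : ∀ x : K, x ≠ 0 → ∃ (c : F) (m : ℕ), x = algebraMap F K c * γ ^ m)
    (u : K) (hu : u ^ (Fintype.card F * Fintype.card F + Fintype.card F + 1) = 1) :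
    ∃ j : ℕ, u = γ ^ j := by
  have hu0 : u ≠ 0 := by
    rintro rfl
    rw [zero_pow (by omega)] at hu
    exact zero_ne_one hu
  obtain ⟨c, m, hcm⟩ := hγ u hu0
  have hc0 : c ≠ 0 := by
    rintro rfl
    rw [map_zero, zero_mul] at hcm
    exact hu0 hcm
  obtain ⟨n, hn⟩ : ∃ n, n = Fintype.card F * Fintype.card F + Fintype.card F + 1 := ⟨_, rfl⟩
  rw [← hn] at hu
  have hq1 : 1 < Fintype.card F := Fintype.one_lt_card
  have hq3 : ¬ 3 ∣ Fintype.card F - 1 := by
    obtain ⟨k, hp, hk⟩ := FiniteField.card F 3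
    intro h
    have h3 : 3 ∣ Fintype.card F := by
      rw [hk]
      exact dvd_pow_self 3 k.ne_zero
    omega
  have hcop : Nat.Coprime (Fintype.card F - 1) n := by
    obtain ⟨t, ht⟩ : ∃ t, Fintype.card F = t + 1 := ⟨Fintype.card F - 1, by omega⟩
    rw [ht, Nat.add_sub_cancel] at hq3
    have h1 : (t + 1) * (t + 1) + (t + 1) + 1 = 3 + t * (t + 3) := by ring
    rw [hn, ht, h1, Nat.add_sub_cancel, Nat.coprime_add_mul_left_right]
    exact ((Nat.prime_three.coprime_iff_not_dvd).2 hq3).symm
  obtain ⟨k, hk⟩ : ∃ k : ℕ, u ^ ((Fintype.card F - 1) * k) = u := by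
    have h1 : 1 < n := by
      rw [hn]
      nlinarith
    obtain ⟨k, _, hk⟩ := Nat.exists_mul_mod_eq_one_of_coprime hcop h1
    refine ⟨k, ?_⟩
    rw [← Nat.div_add_mod ((Fintype.card F - 1) * k) n, hk, pow_add, pow_mul, hu, one_pow,
      one_mul, pow_one]
  refine ⟨m * ((Fintype.card F - 1) * k), ?_⟩
  have hc1 : c ^ (Fintype.card F - 1) = 1 := FiniteField.pow_card_sub_one_eq_one c hc0
  calc u = u ^ ((Fintype.card F - 1) * k) := hk.symm
    _ = (algebraMap F K c * γ ^ m) ^ ((Fintype.card F - 1) * k) := by rw [← hcm]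
    _ = γ ^ (m * ((Fintype.card F - 1) * k)) := by
      rw [mul_pow, ← map_pow, pow_mul c, hc1, one_pow, map_one, one_mul, ← pow_mul]

end Pool.Agent.RegPack.C3
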