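import Pool.Agent.Lib_MP_cd200f_c3.Defs
import Pool.Agent.Lib_MP_cd200f_co.Norm

/-!
# A cyclic group on the spreads: the invariant decomposition
-/

set_option autoImplicit false

namespace Pool.Agent.RegPack.C3

open Module

theorem cyc_ne_three {q r : ℕ} (h3 : 3 ∣ q) (hdvd : r ∣ q ^ 2 + q + 1) (hr1 : r ≠ 1) : ¬ 3 ∣ r ∧
    ¬ r ∣ 3 := by
  have h1 : ¬ 3 ∣ q ^ 2 + q + 1 := by
    intro h
    obtain ⟨k, hk⟩ := h3
    rw [hk] at h
    have h2 : (3 * k) ^ 2 + 3 * k + 1 = 3 * (3 * k ^ 2 + k) + 1 := by ring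
    rw [h2] at h
    omega
  refine ⟨fun h => h1 (h.trans hdvd), fun h => ?_⟩
  rcases (Nat.dvd_prime Nat.prime_three).1 h with h | h
  · exact hr1 h
  · rw [h] at hdvd
    exact h1 hdvd

theorem cyc_modEq {q r : ℕ} (hr : r.Prime) (h3 : 3 ∣ q) (hdvd : r ∣ q ^ 2 + q + 1) {a b : ℕ}
    (h : q ^ a ≡ q ^ b [MOD r]) : a % 3 = b % 3 := by
  have hfact := Fact.mk hr
  have h0 : ((q : ZMod r)) ^ 2 + q + 1 = 0 := by
    have h1 := (ZMod.natCast_eq_zero_iff (q ^ 2 + q + 1) r).2 hdvd
    push_cast at h1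
    exact h1
  have hq0 : (q : ZMod r) ≠ 0 := by
    intro h1
    rw [h1] at h0
    simp at h0
  have hq1 : (q : ZMod r) ≠ 1 := by
    intro h1
    rw [h1] at h0
    have h2 : ((3 : ℕ) : ZMod r) = 0 := by
      push_cast
      linear_combination h0
    exact (cyc_ne_three h3 hdvd hr.ne_one).2 ((ZMod.natCast_eq_zero_iff 3 r).1 h2)
  have hq3 : (q : ZMod r) ^ 3 = 1 := by linear_combination ((q : ZMod r) - 1) * h0
  have hord : orderOf (Units.mk0 (q : ZMod r) hq0) = 3 := by
    refine orderOf_eq_prime (p := 3) (Units.ext ?_) (fun h1 => hq1 ?_)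
    · simpa using hq3
    · simpa using congrArg Units.val h1
  have h1 : (Units.mk0 (q : ZMod r) hq0) ^ a = (Units.mk0 (q : ZMod r) hq0) ^ b := by
    apply Units.ext
    have h2 := (ZMod.natCast_eq_natCast_iff _ _ _).2 h
    push_cast at h2
    simpa using h2
  rw [pow_eq_pow_iff_modEq, hord] at h1
  exact h1

theorem cyc_three_dvd {F : Type*} [Field F] [Fintype F] [CharP F 3] : 3 ∣ Fintype.card F := by
  have hfact : Fact (Nat.Prime 3) := ⟨Nat.prime_three⟩
  obtain ⟨n, hn⟩ := FiniteField.card F 3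
  rw [hn.2]
  exact dvd_pow_self 3 n.2.ne'

theorem cyc_dvd_order {F V : Type*} [Field F] [Fintype F] [AddCommGroup V] [Module F V]
    (hV : finrank F V = 4) {P : Set (Set (Submodule F V))} (hP : IsPacking P)
    (g : V ≃ₗ[F] V) (hg : ∀ S ∈ P, im g S ∈ P)
    (htr : ∀ S ∈ P, ∀ T ∈ P, ∃ n : ℕ, im (g ^ n) S = T) :
    Fintype.card F ^ 2 + Fintype.card F + 1 ∣ orderOf g := by
  have hfin := finite_space (F := F) (V := V) hV
  have hfinG : Finite (V ≃ₗ[F] V) := Finite.of_injective (fun g => (g : V → V))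
    (fun g h hgh => LinearEquiv.ext fun v => congrFun hgh v)
  have hpow : ∀ (n : ℕ) (S : Set (Submodule F V)), S ∈ P → im (g ^ n) S ∈ P := by
    intro n
    induction n with
    | zero =>
      intro S hS
      rw [pow_zero, im_one]
      exact hS
    | succ n ih =>
      intro S hS
      rw [pow_succ, im_mul]
      exact ih _ (hg S hS)
  have hH : ∀ x ∈ Subgroup.zpowers g, ∀ S ∈ P, im x S ∈ P := by
    intro x hx S hS
    rw [← mem_powers_iff_mem_zpowers] at hx
    obtain ⟨n, rfl⟩ := hx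
    exact hpow n S hS
  let act : MulAction (Subgroup.zpowers g) P :=
    { smul := fun x S => ⟨im x.1 S.1, hH x.1 x.2 S.1 S.2⟩
      one_smul := fun S => Subtype.ext (im_one S.1)
      mul_smul := fun x y S => Subtype.ext (im_mul x.1 y.1 S.1) }
  have hpre : MulAction.IsPretransitive (Subgroup.zpowers g) P := ⟨fun S T => by
    obtain ⟨n, hn⟩ := htr S.1 S.2 T.1 T.2
    exact ⟨⟨g ^ n, Subgroup.npow_mem_zpowers g n⟩, Subtype.ext hn⟩⟩
  have hcard := card_packing hV hP
  rw [Nat.card_eq_fintype_card (α := F)] at hcard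
  have hne : Nonempty P := by
    have : Nat.card P ≠ 0 := by
      rw [hcard]
      omega
    exact (Nat.card_ne_zero.1 this).1
  obtain ⟨S⟩ := hne
  have h1 := (MulAction.stabilizer (Subgroup.zpowers g) S).index_dvd_card
  rw [MulAction.index_stabilizer_of_transitive, hcard, Nat.card_zpowers] at h1
  exact h1

/-- the decomposition of the space into an invariant point and an irreducible complement -/
theorem cyc_split {F V : Type*} [Field F] [Fintype F] [CharP F 3] [AddCommGroup V] [Module F V]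
    (hV : finrank F V = 4) {P : Set (Set (Submodule F V))} (hP : IsPacking P)
    (g : V ≃ₗ[F] V) (hg : ∀ S ∈ P, im g S ∈ P) (htr : ∀ S ∈ P, ∀ T ∈ P, ∃ n : ℕ, im (g ^ n) S = T) :
    ∃ (e : V) (a : F) (U : Submodule F V), e ≠ 0 ∧ g e = a • e ∧ e ∉ U ∧ finrank F U = 3 ∧
      (∀ v ∈ U, g v ∈ U) ∧ ∀ W : Submodule F V, W ≤ U → (∀ v ∈ W, g v ∈ W) → W = ⊥ ∨ W = U := by
  have hfin := finite_space (F := F) (V := V) hV
  have hfd : FiniteDimensional F V := FiniteDimensional.of_finrank_pos (by rw [hV]; norm_num)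
  have hfinG : Finite (V ≃ₗ[F] V) := Finite.of_injective (fun g => (g : V → V))
    (fun g h hgh => LinearEquiv.ext fun v => congrFun hgh v)
  have h3 := cyc_three_dvd (F := F)
  have hord := cyc_dvd_order hV hP g hg htr
  obtain ⟨r, hr, hrn⟩ := Nat.exists_prime_and_dvd (n := Fintype.card F ^ 2 + Fintype.card F + 1) (by
    have := Fintype.card_pos (α := F)
    omega)
  have hrg : r ∣ orderOf g := hrn.trans hord
  have hg0 : orderOf g ≠ 0 := (orderOf_pos g).ne'
  obtain ⟨k, h, hh, hhr⟩ : ∃ (k : ℕ) (h : V ≃ₗ[F] V), h = g ^ k ∧ orderOf h = r :=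
    ⟨orderOf g / r, _, rfl, orderOf_pow_orderOf_div hg0 hrg⟩
  have hhr1 : ∀ v, (h ^ r) v = v := by
    intro v
    rw [← hhr, pow_orderOf_eq_one]
    rfl
  have hcomm : ∀ v, h (g v) = g (h v) := by
    intro v
    have h1 : h * g = g * h := by
      rw [hh, ← pow_succ, ← pow_succ']
    exact congrArg (fun f : V ≃ₗ[F] V => f v) h1
  -- the fixed space
  obtain ⟨D, hD, hDc⟩ := sub_modEq hV h hr hhr1 ⊤ (fun _ _ => Submodule.mem_top)
  rw [Nat.card_eq_fintype_card, finrank_top, hV] at hDc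
  have hD3 := cyc_modEq hr h3 hrn hDc
  have hDle : finrank F D ≤ 4 := by
    rw [← hV]
    exact Submodule.finrank_le D
  have hDne : finrank F D ≠ 4 := by
    intro h4
    have h5 : D = ⊤ := Submodule.eq_top_of_finrank_eq (by rw [h4, hV])
    have h6 : h = 1 := by
      ext v
      have h7 : v ∈ D := by
        rw [h5]
        exact Submodule.mem_top
      exact ((hD v).1 h7).2
    rw [h6, orderOf_one] at hhr
    exact hr.ne_one hhr.symm
  have hD1 : finrank F D = 1 := by omega
  obtain ⟨⟨e₀, he₀⟩, hne, hspan⟩ := finrank_eq_one_iff'.1 hD1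
  have he0 : e₀ ≠ 0 := fun h1 => hne (Subtype.ext h1)
  have hfix : h e₀ = e₀ := ((hD e₀).1 he₀).2
  have hspan' : ∀ v ∈ D, ∃ c : F, c • e₀ = v := by
    intro v hv
    obtain ⟨c, hc⟩ := hspan ⟨v, hv⟩
    exact ⟨c, congrArg Subtype.val hc⟩
  obtain ⟨a, ha⟩ := hspan' (g e₀) ((hD _).2 ⟨Submodule.mem_top, by rw [hcomm, hfix]⟩)
  -- the complement
  set U : Submodule F V := LinearMap.range ((h : V →ₗ[F] V) - LinearMap.id) with hU
  have hUmem : ∀ v, v ∈ U ↔ ∃ w, h w - w = v := by
    intro v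
    rw [hU, LinearMap.mem_range]
    rfl
  have hker : LinearMap.ker ((h : V →ₗ[F] V) - LinearMap.id) = D := by
    ext v
    rw [LinearMap.mem_ker, hD, LinearMap.sub_apply, sub_eq_zero]
    exact ⟨fun h1 => ⟨Submodule.mem_top, h1⟩, fun h1 => h1.2⟩
  have hU3 : finrank F U = 3 := by
    have h1 := LinearMap.finrank_range_add_finrank_ker ((h : V →ₗ[F] V) - LinearMap.id)
    rw [hker, hV, hD1, ← hU] at h1
    exact Nat.add_right_cancel (m := 1) h1
  have heU : e₀ ∉ U := by
    intro h1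
    obtain ⟨w, hw⟩ := (hUmem _).1 h1
    have h2 : ∀ m : ℕ, (h ^ m) w = w + (m : F) • e₀ := by
      intro m
      induction m with
      | zero => simp
      | succ m ih =>
        rw [pow_succ']
        show h ((h ^ m) w) = _
        rw [ih, map_add, map_smul, hfix]
        have h4 : h w = w + e₀ := by
          rw [← hw]
          abel
        rw [h4]
        push_cast
        rw [add_smul, one_smul]
        abel
    have h4 := h2 r
    rw [hhr1] at h4
    have h5 : (r : F) • e₀ = 0 := by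
      have := congrArg (fun z => z - w) h4
      simpa using this.symm
    rcases smul_eq_zero.1 h5 with h6 | h6
    · exact (cyc_ne_three h3 hrn hr.ne_one).1 ((CharP.cast_eq_zero_iff F 3 r).1 h6)
    · exact he0 h6
  refine ⟨e₀, a, U, he0, ha.symm, heU, hU3, ?_, ?_⟩
  · intro u hu
    obtain ⟨w, rfl⟩ := (hUmem _).1 hu
    rw [map_sub, ← hcomm]
    exact (hUmem _).2 ⟨g w, rfl⟩
  · intro W hWU hW
    have hWp : ∀ m : ℕ, ∀ w ∈ W, (g ^ m) w ∈ W := by
      intro m
      induction m with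
      | zero => exact fun w hw => hw
      | succ m ih =>
        intro w hw
        rw [pow_succ]
        exact ih _ (hW w hw)
    obtain ⟨D', hD', hDc'⟩ := sub_modEq hV h hr hhr1 W (fun w hw => by
      rw [hh]
      exact hWp k w hw)
    have hbot : D' = ⊥ := by
      rw [Submodule.eq_bot_iff]
      intro v hv
      obtain ⟨hvW, hvh⟩ := (hD' v).1 hv
      obtain ⟨c, hc⟩ := hspan' v ((hD v).2 ⟨Submodule.mem_top, hvh⟩)
      by_cases hc0 : c = 0
      · rw [← hc, hc0, zero_smul]
      · exfalso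
        apply heU
        have h1 : e₀ = c⁻¹ • v := by
          rw [← hc, smul_smul, inv_mul_cancel₀ hc0, one_smul]
        rw [h1]
        exact U.smul_mem _ (hWU hvW)
    rw [Nat.card_eq_fintype_card, hbot, finrank_bot] at hDc'
    have h1 := cyc_modEq hr h3 hrn hDc'
    have h2 : finrank F W ≤ finrank F U := Submodule.finrank_mono hWU
    rw [hU3] at h2
    have h4 : finrank F W = 0 ∨ finrank F W = 3 := by omega
    rcases h4 with h5 | h5
    · exact Or.inl (Submodule.finrank_eq_zero.1 h5)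
    · exact Or.inr (Submodule.eq_of_le_of_finrank_eq hWU (by rw [h5, hU3]))

end Pool.Agent.RegPack.C3
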