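import Mathlib
import Pool.Agent.Lib_MP_cd200f_c3.Defs

/-!
# Dickson polynomials: every `F`-linear map of a cubic extension is `b₀ x + b₁ x^q + b₂ x^(q^2)`
-/

namespace Pool.Agent.RegPack.C3

open Module Polynomial

lemma dick1_coeff {F K : Type*} [Field F] [Fintype F] [Field K] [Algebra F K]
    (hK : finrank F K = 3) (a b c : K)
    (h : ∀ x : K, a * x + b * x ^ Fintype.card F +
      c * x ^ (Fintype.card F * Fintype.card F) = 0) : a = 0 ∧ b = 0 ∧ c = 0 := by
  classical
  haveI : Module.Finite F K := Module.finite_of_finrank_pos (by omega)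
  haveI : Finite K := Module.finite_of_finite F
  haveI : Fintype K := Fintype.ofFinite K
  have hq : 2 ≤ Fintype.card F := Fintype.one_lt_card
  set q := Fintype.card F with hqdef
  have hcard : Fintype.card K = q ^ 3 := by
    rw [Module.card_eq_pow_finrank (K := F) (V := K), hK]
  have hqq : q < q * q := by nlinarith
  have hlt : q * q < q ^ 3 := by
    have : q ^ 3 = q * (q * q) := by ring
    rw [this]; nlinarith
  have hP : (C a * X + C b * X ^ q + C c * X ^ (q * q) : K[X]) = 0 := by
    apply Polynomial.eq_zero_of_natDegree_lt_card_of_eval_eq_zero _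
      (f := (fun x : K => x)) (fun x y hxy => hxy)
    · intro x
      simpa using h x
    · refine lt_of_le_of_lt ?_ (hcard ▸ hlt)
      refine (Polynomial.natDegree_add_le _ _).trans (max_le ?_ ?_)
      · refine (Polynomial.natDegree_add_le _ _).trans (max_le ?_ ?_)
        · exact (Polynomial.natDegree_C_mul_le _ _).trans (by
            rw [Polynomial.natDegree_X]; omega)
        · exact (Polynomial.natDegree_C_mul_X_pow_le _ _).trans hqq.le
      · exact Polynomial.natDegree_C_mul_X_pow_le _ _
  have e1 := congrArg (fun P : K[X] => P.coeff 1) hP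
  have e2 := congrArg (fun P : K[X] => P.coeff q) hP
  have e3 := congrArg (fun P : K[X] => P.coeff (q * q)) hP
  have n1 : q ≠ 1 := by omega
  have n2 : q * q ≠ 1 := by omega
  have n3 : q * q ≠ q := by omega
  simp only [Polynomial.coeff_add, Polynomial.coeff_C_mul, Polynomial.coeff_X,
    Polynomial.coeff_X_pow, Polynomial.coeff_zero] at e1 e2 e3
  refine ⟨?_, ?_, ?_⟩
  · simpa [n1.symm, n2.symm] using e1
  · simpa [n1.symm, n3.symm] using e2
  · simpa [n2.symm, n3] using e3

theorem exists_dickson {F K : Type*} [Field F] [Fintype F] [Field K] [Algebra F K]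
    (hK : finrank F K = 3) (B : K →ₗ[F] K) : ∃ b₀ b₁ b₂ : K, ∀ x, B x =
      b₀ * x + b₁ * x ^ Fintype.card F + b₂ * x ^ (Fintype.card F * Fintype.card F) := by
  classical
  haveI : Module.Finite F K := Module.finite_of_finrank_pos (by omega)
  set φ : K →ₗ[F] K := (FiniteField.frobeniusAlgHom F K).toLinearMap with hφ
  have hφx : ∀ x : K, φ x = x ^ Fintype.card F := fun x => by
    simp [hφ]
  let Φ : (Fin 3 → K) →ₗ[F] (K →ₗ[F] K) :=
    { toFun := fun b => LinearMap.mulLeft F (b 0) + (LinearMap.mulLeft F (b 1)).comp φ +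
        (LinearMap.mulLeft F (b 2)).comp (φ.comp φ)
      map_add' := by
        intro b c
        ext x
        simp only [Pi.add_apply, LinearMap.add_apply, LinearMap.comp_apply,
          LinearMap.mulLeft_apply]
        ring
      map_smul' := by
        intro r b
        ext x
        show (r • b 0) * x + (r • b 1) * φ x + (r • b 2) * φ (φ x) =
          r • (b 0 * x + b 1 * φ x + b 2 * φ (φ x))
        simp only [Algebra.smul_def]
        ring }
  have hΦ : ∀ b x, Φ b x = b 0 * x + b 1 * x ^ Fintype.card F +
      b 2 * x ^ (Fintype.card F * Fintype.card F) := by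
    intro b x
    show b 0 * x + b 1 * φ x + b 2 * φ (φ x) = _
    rw [hφx (φ x), hφx, ← pow_mul]
  have hinj : Function.Injective Φ := by
    rw [injective_iff_map_eq_zero]
    intro b hb
    have := dick1_coeff hK (b 0) (b 1) (b 2) (fun x => by rw [← hΦ b x, hb]; rfl)
    ext i
    fin_cases i
    · exact this.1
    · exact this.2.1
    · exact this.2.2
  have hdim : finrank F (Fin 3 → K) = finrank F (K →ₗ[F] K) := by
    rw [Module.finrank_linearMap, Module.finrank_pi_fintype]
    simp [hK]
  obtain ⟨b, hb⟩ := (LinearMap.injective_iff_surjective_of_finrank_eq_finrank hdim).1 hinj B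
  exact ⟨b 0, b 1, b 2, fun x => by rw [← hb, hΦ]⟩

end Pool.Agent.RegPack.C3
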