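import Pool.Agent.Lib_MP_cd200f_c3.Defs

/-!
# Piece C4: the contradiction
-/

namespace Pool.Agent.RegPack.C3

section

variable {F : Type*} [Field F] [CharP F 3]

theorem fin_three : (3 : F) = 0 := by
  have := CharP.cast_eq_zero F 3
  exact_mod_cast this

/-- the two constants are different from zero -/
theorem fin_ne {c θ : F} (hc : c ≠ 0) (hθ : ∀ y : F, y ^ 3 - y ≠ θ) :
    θ ≠ 0 ∧ θ ^ 2 + (c + 1) * (c - 1) ^ 2 ≠ 0 ∧ θ ^ 2 + c ^ 3 - c ^ 2 ≠ 0 := by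
  have h3 : (3 : F) = 0 := fin_three
  have h0 : θ ≠ 0 := by
    intro h
    exact hθ 0 (by rw [h]; ring)
  refine ⟨h0, fun h => ?_, fun h => ?_⟩
  · by_cases h1 : c - 1 = 0
    · rw [h1] at h
      exact h0 (pow_eq_zero_iff (two_ne_zero) |>.1 (by linear_combination h))
    · have e : (θ / (c - 1)) ^ 2 = -(c + 1) := by
        rw [div_pow, div_eq_iff (pow_ne_zero _ h1)]
        linear_combination h
      set z := θ / (c - 1) with hz
      have hθz : θ = z * (c - 1) := by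
        rw [hz]
        field_simp
      clear_value z
      apply hθ (-z)
      rw [hθz]
      linear_combination (-z) * e + z * h3
  · have e : (θ / c) ^ 2 = 1 - c := by
      rw [div_pow, div_eq_iff (pow_ne_zero _ hc)]
      linear_combination h
    set z := θ / c with hz
    have hθz : θ = z * c := by
      rw [hz]
      field_simp
    clear_value z
    apply hθ (-z)
    rw [hθz]
    linear_combination (-z) * e

/-- the key identity -/
theorem fin_key (c θ u v : F) :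
    ((c + 1) * u ^ 2 + θ * u * v - (c - 1) ^ 2 * v ^ 2) ^ 3 -
      (u ^ 3 - u * v ^ 2 + θ * v ^ 3) * (c * u - θ * v) *
        ((c + 1) * u ^ 2 + θ * u * v - (c - 1) ^ 2 * v ^ 2) +
      (θ * u ^ 3 + u ^ 2 * v + (c ^ 3 - θ ^ 2 - 1) * v ^ 3) ^ 2 =
    (θ ^ 2 + (c + 1) * (c - 1) ^ 2) * (u ^ 3 - u * v ^ 2 + θ * v ^ 3) ^ 2 := by
  have h3 : (3 : F) = 0 := fin_three
  linear_combination (-5 * c * u * v ^ 5 * θ - 3 * c * u ^ 2 * v ^ 4 + 2 * c * u ^ 2 * v ^ 4 * θ ^ 2 + 3 * c * u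
      ^ 3 * v ^ 3 * θ + c * u ^ 4 * v ^ 2 * θ ^ 2 + 2 * c * u ^ 5 * v * θ + c * u ^ 6 + 2
      * c * v ^ 6 + c * v ^ 6 * θ ^ 2 + 5 * c ^ 2 * u * v ^ 5 * θ + 3 * c ^ 2 * u ^ 2 * v
      ^ 4 - c ^ 2 * u ^ 2 * v ^ 4 * θ ^ 2 + 2 * c ^ 2 * u ^ 3 * v ^ 3 * θ + c ^ 2 * u ^ 4
      * v ^ 2 + c ^ 2 * u ^ 5 * v * θ + c ^ 2 * u ^ 6 - 5 * c ^ 2 * v ^ 6 - 3 * c ^ 3 * u
      * v ^ 5 * θ + 2 * c ^ 3 * u ^ 2 * v ^ 4 - 2 * c ^ 3 * u ^ 3 * v ^ 3 * θ + c ^ 3 * u
      ^ 4 * v ^ 2 + 6 * c ^ 3 * v ^ 6 - c ^ 3 * v ^ 6 * θ ^ 2 + c ^ 4 * u * v ^ 5 * θ - 3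
      * c ^ 4 * u ^ 2 * v ^ 4 - c ^ 4 * u ^ 4 * v ^ 2 - 5 * c ^ 4 * v ^ 6 + c ^ 5 * u ^ 2
      * v ^ 4 + 2 * c ^ 5 * v ^ 6 + 2 * u * v ^ 5 * θ + u * v ^ 5 * θ ^ 3 - 2 * u ^ 2 * v
      ^ 4 * θ ^ 2 - 4 * u ^ 3 * v ^ 3 * θ - u ^ 3 * v ^ 3 * θ ^ 3 + 2 * u ^ 4 * v ^ 2 * θ
      ^ 2 + 2 * u ^ 5 * v * θ) * h3

/-- a solution of the auxiliary equation gives an element of the form `y ^ 3 - y` -/
theorem fin_sol {c θ α t : F} (hc : c ≠ 0) (h0 : θ ≠ 0) (hα : α ≠ 0) (ht : t ≠ 0)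
    (h : ∀ u v : F, (u ≠ 0 ∨ v ≠ 0) → ∃ X : F,
      X ^ 3 - (u ^ 3 - u * v ^ 2 + θ * v ^ 3) * (c * u - θ * v) * X =
        (θ * u ^ 3 + u ^ 2 * v + (c ^ 3 - θ ^ 2 - 1) * v ^ 3) ^ 2)
    (e : θ ^ 2 * (α ^ 2 - (c ^ 3)⁻¹) * t ^ 3 + c * t = θ ^ 2 + c ^ 3 - c ^ 2) :
    ∃ y : F, y ^ 3 - y = (θ ^ 2 + (c + 1) * (c - 1) ^ 2) * α := by
  have h3 : (3 : F) = 0 := fin_three
  obtain ⟨u, hu⟩ : ∃ u : F, u = 1 / t + 1 / c := ⟨_, rfl⟩
  obtain ⟨v, hv⟩ : ∃ v : F, v = c / (θ * t) := ⟨_, rfl⟩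
  have hv0 : v ≠ 0 := by
    rw [hv]
    exact div_ne_zero hc (mul_ne_zero h0 ht)
  have hN : u ^ 3 - u * v ^ 2 + θ * v ^ 3 = α ^ 2 := by
    rw [hu, hv]
    field_simp at e ⊢
    linear_combination -e + (c * t ^ 2 * θ ^ 2 + c ^ 2 * t * θ ^ 2) * h3
  have hl : c * u - θ * v = 1 := by
    rw [hu, hv]
    field_simp
    ring
  obtain ⟨X, hX⟩ := h u v (Or.inr hv0)
  have key := fin_key c θ u v
  rw [hN, hl] at key hX
  set Q := (c + 1) * u ^ 2 + θ * u * v - (c - 1) ^ 2 * v ^ 2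
  set τ := θ * u ^ 3 + u ^ 2 * v + (c ^ 3 - θ ^ 2 - 1) * v ^ 3
  refine ⟨(X + Q) / α, ?_⟩
  field_simp
  linear_combination hX + key + (X ^ 2 * Q + X * Q ^ 2) * h3

end

section

variable {F : Type*} [Field F] [CharP F 3]

/-- if `κ α` is not of the form `y ^ 3 - y` then `1 - c ^ 3 α ^ 2` is a nonzero square -/
theorem fin_sq [Finite F] {c θ α : F} (hc : c ≠ 0) (hθ : ∀ y : F, y ^ 3 - y ≠ θ)
    (h : ∀ u v : F, (u ≠ 0 ∨ v ≠ 0) → ∃ X : F,
      X ^ 3 - (u ^ 3 - u * v ^ 2 + θ * v ^ 3) * (c * u - θ * v) * X =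
        (θ * u ^ 3 + u ^ 2 * v + (c ^ 3 - θ ^ 2 - 1) * v ^ 3) ^ 2)
    (hα : ¬ ∃ y : F, y ^ 3 - y = (θ ^ 2 + (c + 1) * (c - 1) ^ 2) * α) :
    α ≠ 0 ∧ ∃ z : F, z ≠ 0 ∧ z ^ 2 = 1 - c ^ 3 * α ^ 2 := by
  have h3 : (3 : F) = 0 := fin_three
  obtain ⟨h0, -, hg⟩ := fin_ne hc hθ
  have hα0 : α ≠ 0 := by
    rintro rfl
    exact hα ⟨0, by ring⟩
  refine ⟨hα0, ?_⟩
  let L : F →+ F :=
    { toFun := fun t => θ ^ 2 * (α ^ 2 - (c ^ 3)⁻¹) * t ^ 3 + c * t
      map_zero' := by ring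
      map_add' := fun a b => by
        show θ ^ 2 * (α ^ 2 - (c ^ 3)⁻¹) * (a + b) ^ 3 + c * (a + b) =
          (θ ^ 2 * (α ^ 2 - (c ^ 3)⁻¹) * a ^ 3 + c * a) +
            (θ ^ 2 * (α ^ 2 - (c ^ 3)⁻¹) * b ^ 3 + c * b)
        linear_combination θ ^ 2 * (α ^ 2 - (c ^ 3)⁻¹) * (a ^ 2 * b + a * b ^ 2) * h3 }
  have hL : ∀ t, L t = θ ^ 2 * (α ^ 2 - (c ^ 3)⁻¹) * t ^ 3 + c * t := fun _ => rfl
  by_cases hinj : Function.Injective L
  · exfalso
    obtain ⟨t, ht⟩ := (Finite.injective_iff_surjective.1 hinj) (θ ^ 2 + c ^ 3 - c ^ 2)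
    rw [hL] at ht
    have ht0 : t ≠ 0 := by
      rintro rfl
      apply hg
      rw [← ht]
      ring
    exact hα (fin_sol hc h0 hα0 ht0 h ht)
  · rw [injective_iff_map_eq_zero] at hinj
    push Not at hinj
    obtain ⟨t, ht, ht0⟩ := hinj
    rw [hL] at ht
    refine ⟨c ^ 2 / (θ * t), div_ne_zero (pow_ne_zero _ hc) (mul_ne_zero h0 ht0), ?_⟩
    have e : t * (θ ^ 2 * (α ^ 2 * c ^ 3 - 1) * t ^ 2 + c ^ 4) = 0 := by
      have : t * (θ ^ 2 * (α ^ 2 * c ^ 3 - 1) * t ^ 2 + c ^ 4) =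
          c ^ 3 * (θ ^ 2 * (α ^ 2 - (c ^ 3)⁻¹) * t ^ 3 + c * t) := by
        field_simp
      rw [this, ht, mul_zero]
    have e2 := (mul_eq_zero.1 e).resolve_left ht0
    field_simp
    linear_combination e2

end

/-- C4 -/
theorem no_data {F : Type*} [Field F] [Fintype F] [CharP F 3] (c θ : F) (hc : c ≠ 0)
    (hθ : ∀ y : F, y ^ 3 - y ≠ θ) (h : ∀ u v : F, (u ≠ 0 ∨ v ≠ 0) → ∃ X : F,
      X ^ 3 - (u ^ 3 - u * v ^ 2 + θ * v ^ 3) * (c * u - θ * v) * X =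
        (θ * u ^ 3 + u ^ 2 * v + (c ^ 3 - θ ^ 2 - 1) * v ^ 3) ^ 2) : False := by
  classical
  have h3 : (3 : F) = 0 := fin_three
  obtain ⟨h0, hκ, -⟩ := fin_ne hc hθ
  set κ := θ ^ 2 + (c + 1) * (c - 1) ^ 2 with hκd
  have cube : ∀ i : ZMod 3, i ^ 3 = i := by decide
  let T := {α : F // ∃ y : F, y ^ 3 - y = κ * α}
  let S := {α : F // ¬ ∃ y : F, y ^ 3 - y = κ * α}
  have hTS : Fintype.card T + Fintype.card S = Fintype.card F := by
    have := Fintype.card_subtype_compl (fun α : F => ∃ y : F, y ^ 3 - y = κ * α)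
    have h2 := Fintype.card_subtype_le (fun α : F => ∃ y : F, y ^ 3 - y = κ * α)
    show Fintype.card {α : F // ∃ y : F, y ^ 3 - y = κ * α} +
      Fintype.card {α : F // ¬ ∃ y : F, y ^ 3 - y = κ * α} = _
    omega
  -- three elements over every element of `T`
  have hT : 3 * Fintype.card T ≤ Fintype.card F := by
    have h1 : Fintype.card (ZMod 3 × T) ≤ Fintype.card F := by
      let f : ZMod 3 × T → F := fun x => x.2.2.choose + ZMod.castHom (dvd_refl 3) F x.1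
      refine Fintype.card_le_of_injective f ?_
      rintro ⟨i, α⟩ ⟨j, β⟩ hij
      have ha := α.2.choose_spec
      have hb := β.2.choose_spec
      have hi : (ZMod.castHom (dvd_refl 3) F i) ^ 3 = ZMod.castHom (dvd_refl 3) F i := by
        rw [← map_pow, cube i]
      have hj : (ZMod.castHom (dvd_refl 3) F j) ^ 3 = ZMod.castHom (dvd_refl 3) F j := by
        rw [← map_pow, cube j]
      have hij' : α.2.choose + ZMod.castHom (dvd_refl 3) F i =
        β.2.choose + ZMod.castHom (dvd_refl 3) F j := hij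
      set a := α.2.choose
      set b := β.2.choose
      set i' := ZMod.castHom (dvd_refl 3) F i
      set j' := ZMod.castHom (dvd_refl 3) F j
      have e1 : κ * (α : F) = κ * β := by
        rw [← ha, ← hb]
        have e2 : (a + i') ^ 3 = (b + j') ^ 3 := by rw [hij']
        linear_combination e2 - hij' - hi + hj - (a ^ 2 * i' + a * i' ^ 2 - b ^ 2 * j' -
          b * j' ^ 2) * h3
      have e2 : α = β := Subtype.ext (mul_left_cancel₀ hκ e1)
      subst e2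
      have e3 : i = j := ZMod.castHom_injective F (add_left_cancel hij')
      rw [e3]
    rw [Fintype.card_prod, ZMod.card] at h1
    exact h1
  -- two elements over every element of `S`
  have hS : 2 * Fintype.card S ≤ Fintype.card F := by
    have hz : ∀ α : S, ∃ z : F, z ≠ 0 ∧ z ^ 2 = 1 - c ^ 3 * (α : F) ^ 2 :=
      fun α => (fin_sq hc hθ h α.2).2
    have hα0 : ∀ α : S, (α : F) ≠ 0 := fun α => (fin_sq hc hθ h α.2).1
    choose z hz0 hz using hz
    have h1 : Fintype.card (Bool × S) ≤ Fintype.card F := by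
      let f : Bool × S → F := fun x => ((if x.1 then z x.2 else -z x.2) - 1) / x.2
      have hf : ∀ x : Bool × S, (x.2 : F) * (f x ^ 2 + c ^ 3) = f x := by
        rintro ⟨i, α⟩
        have hα := hα0 α
        have hzz := hz α
        cases i
        · show (α : F) * (((-z α - 1) / α) ^ 2 + c ^ 3) = (-z α - 1) / α
          field_simp
          linear_combination hzz + (z α + 1) * h3
        · show (α : F) * (((z α - 1) / α) ^ 2 + c ^ 3) = (z α - 1) / α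
          field_simp
          linear_combination hzz + (1 - z α) * h3
      refine Fintype.card_le_of_injective f ?_
      rintro ⟨i, α⟩ ⟨j, β⟩ hij
      have ha := hf ⟨i, α⟩
      have hb := hf ⟨j, β⟩
      rw [hij] at ha
      have hne : f ⟨j, β⟩ ^ 2 + c ^ 3 ≠ 0 := by
        intro h5
        rw [h5, mul_zero] at hb
        rw [← hb] at h5
        exact hc (pow_eq_zero_iff (three_ne_zero) |>.1 (by linear_combination h5))
      have e2 : α = β := Subtype.ext (mul_right_cancel₀ hne (ha.trans hb.symm))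
      subst e2
      have hα := hα0 α
      have hzα := hz0 α
      have e3 : (if i then z α else -z α) = (if j then z α else -z α) := by
        have h6 : ((if i then z α else -z α) - 1) / (α : F) =
          ((if j then z α else -z α) - 1) / α := hij
        field_simp at h6
        linear_combination h6
      have hne2 : z α ≠ -z α := by
        intro h7
        apply hzα
        linear_combination -h7 + z α * h3
      cases i <;> cases j
      · rfl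
      · exact absurd e3.symm (by simpa using hne2)
      · exact absurd e3 (by simpa using hne2)
      · rfl
    rw [Fintype.card_prod, Fintype.card_bool] at h1
    exact h1
  have hpos : 0 < Fintype.card F := Fintype.card_pos
  omega

end Pool.Agent.RegPack.C3
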