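import Mathlib

/-! # A transitive group whose Sylow subgroups for the primes of the degree are cyclic and central in
their normalizers contains a transitive cyclic group -/

namespace Pool.Agent.RegPack.C3

/-- the normal complement of a cyclic Sylow subgroup which is central in its normalizer -/
theorem grp_compl {H : Type*} [Group H] [Finite H] {r : ℕ} (hr : r.Prime) (R : Sylow r H)
    (hc : IsCyclic R)
    (hN : Subgroup.normalizer (R : Set H) ≤ Subgroup.centralizer (R : Set H)) :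
    ∃ (K : Subgroup H) (ρ : H) (t : ℕ), K.Normal ∧ K.index = r ^ t ∧ ρ ^ (r ^ t) = 1 ∧
      (∀ h : H, ∃ a : ℕ, (ρ ^ a)⁻¹ * h ∈ K) ∧ ¬ r ∣ Nat.card K := by
  have : Fact r.Prime := ⟨hr⟩
  have hcomp := MonoidHom.ker_transferSylow_isComplement' R hN
  obtain ⟨t, ht⟩ := (IsPGroup.iff_card.1 R.2)
  obtain ⟨ρ, hρ⟩ := hc.exists_generator
  refine ⟨(MonoidHom.transferSylow R hN).ker, ρ, t, inferInstance, ?_, ?_, ?_, ?_⟩
  · rw [hcomp.symm.index_eq_card]
    exact ht
  · have h1 : ρ ^ Nat.card R = 1 := pow_card_eq_one'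
    rw [← ht, ← Subgroup.coe_pow, h1, Subgroup.coe_one]
  · intro h
    obtain ⟨⟨k, x⟩, hkx⟩ := hcomp.2 h
    obtain ⟨a, ha⟩ : ∃ a : ℕ, ρ ^ a = x := by
      have h3 := hρ x
      rwa [← mem_powers_iff_mem_zpowers] at h3
    refine ⟨a, ?_⟩
    have h4 : (k : H) * (x : H) = h := hkx
    have h5 : ((ρ : H) ^ a)⁻¹ * h = (x : H)⁻¹ * (k : H) * ((x : H)⁻¹)⁻¹ := by
      rw [← Subgroup.coe_pow, ha, ← h4]
      group
    rw [h5]
    exact Subgroup.Normal.conj_mem inferInstance (k : H) k.2 _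
  · exact MonoidHom.not_dvd_card_ker_transferSylow R hN

theorem exists_cycle {H X : Type*} [Group H] [Finite H] [MulAction H X] [Finite X]
    [MulAction.IsPretransitive H X] [Nonempty X]
    (h : ∀ r : ℕ, r.Prime → r ∣ Nat.card X → ∀ R : Sylow r H, IsCyclic R ∧
      Nat.card R ∣ Nat.card X ∧
      Subgroup.normalizer (R : Set H) ≤ Subgroup.centralizer (R : Set H)) :
    ∃ g : H, ∀ x y : X, ∃ m : ℕ, g ^ m • x = y := by
  classical
  have hn0 : Nat.card X ≠ 0 := Nat.card_pos.ne'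
  have hex : ∀ r : (Nat.card X).primeFactors, ∃ (K : Subgroup H) (ρ : H) (t : ℕ), K.Normal ∧
      K.index = (r : ℕ) ^ t ∧ ρ ^ ((r : ℕ) ^ t) = 1 ∧
      (∀ h : H, ∃ a : ℕ, (ρ ^ a)⁻¹ * h ∈ K) ∧ ¬ (r : ℕ) ∣ Nat.card K := by
    intro r
    have hr : (r : ℕ).Prime := Nat.prime_of_mem_primeFactors r.2
    have : Fact (r : ℕ).Prime := ⟨hr⟩
    let R : Sylow (r : ℕ) H := default
    obtain ⟨h1, -, h3⟩ := h r hr (Nat.dvd_of_mem_primeFactors r.2) R
    exact grp_compl hr R h1 h3
  choose K ρ t hnorm hidx hpow hgen hnd using hex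
  -- the intersection of the complements
  set M : Subgroup H := ⨅ r, K r with hM
  have hMn : M.Normal := Subgroup.normal_iInf_normal hnorm
  have hMc : Nat.Coprime (Nat.card M) (Nat.card X) := by
    refine Nat.Coprime.symm (Nat.coprime_of_dvd fun p hp hpX hpM => ?_)
    have hmem : p ∈ (Nat.card X).primeFactors := Nat.mem_primeFactors.2 ⟨hp, hpX, hn0⟩
    exact hnd ⟨p, hmem⟩ (hpM.trans (Subgroup.card_dvd_of_le (iInf_le K ⟨p, hmem⟩)))
  have hMtriv : ∀ μ ∈ M, ∀ x : X, μ • x = x := by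
    intro μ hμ x
    have hB : MulAction.IsBlock H (MulAction.orbit M x) := MulAction.IsBlock.orbit_of_normal x
    have h1 : (MulAction.orbit M x).ncard ∣ Nat.card X :=
      hB.ncard_dvd_card (MulAction.nonempty_orbit x)
    have h2 : (MulAction.orbit M x).ncard ∣ Nat.card M := by
      have h3 := MulAction.index_stabilizer M x
      rw [← h3]
      exact Subgroup.index_dvd_card _
    have h4 : (MulAction.orbit M x).ncard = 1 := Nat.eq_one_of_dvd_coprimes hMc h2 h1
    obtain ⟨y, hy⟩ := Set.ncard_eq_one.1 h4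
    have h5 : x ∈ MulAction.orbit M x := MulAction.mem_orbit_self x
    have h6 : μ • x ∈ MulAction.orbit M x := ⟨⟨μ, hμ⟩, rfl⟩
    rw [hy, Set.mem_singleton_iff] at h5 h6
    rw [h6, h5]
  -- the generator
  set l := (Finset.univ : Finset (Nat.card X).primeFactors).toList with hl
  set g : H := (l.map ρ).prod with hg
  have hgs : ∀ s, QuotientGroup.mk (s := K s) g = QuotientGroup.mk (s := K s) (ρ s) := by
    intro s
    have := hnorm s
    have h1 : QuotientGroup.mk' (K s) g = (l.map (fun r => QuotientGroup.mk' (K s) (ρ r))).prod := by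
      rw [hg, map_list_prod, List.map_map]
      rfl
    have h8 : ∀ r, r ≠ s → r ∈ l → QuotientGroup.mk' (K s) (ρ r) = 1 := by
      intro r hrs _
      have h3 : orderOf (QuotientGroup.mk' (K s) (ρ r)) ∣ (r : ℕ) ^ t r :=
        orderOf_dvd_of_pow_eq_one (by rw [← map_pow, hpow r, map_one])
      have h4 : orderOf (QuotientGroup.mk' (K s) (ρ r)) ∣ (s : ℕ) ^ t s := by
        rw [← hidx s]
        exact orderOf_dvd_natCard _
      have h5 : Nat.Coprime ((r : ℕ) ^ t r) ((s : ℕ) ^ t s) := by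
        refine Nat.Coprime.pow _ _ ((Nat.coprime_primes (Nat.prime_of_mem_primeFactors r.2)
          (Nat.prime_of_mem_primeFactors s.2)).2 fun h => hrs (Subtype.ext h))
      have h7 : orderOf (QuotientGroup.mk' (K s) (ρ r)) = 1 := Nat.eq_one_of_dvd_coprimes h5 h3 h4
      exact orderOf_eq_one_iff.1 h7
    have h2 := List.prod_map_eq_pow_single (l := l) s (fun r => QuotientGroup.mk' (K s) (ρ r)) h8
    have h9 : l.Nodup := Finset.nodup_toList _
    have h10 : s ∈ l := Finset.mem_toList.2 (Finset.mem_univ s)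
    refine h1.trans (h2.trans ?_)
    have h11 : @List.count _ instBEqOfDecidableEq s l = 1 :=
      @List.count_eq_one_of_mem _ instBEqOfDecidableEq inferInstance s l h9 h10
    exact (congrArg (fun n => QuotientGroup.mk' (K s) (ρ s) ^ n) h11).trans (pow_one _)
  refine ⟨g, fun x y => ?_⟩
  obtain ⟨k, hk⟩ := MulAction.exists_smul_eq H x y
  have ha : ∀ s, ∃ a : ℕ, (ρ s ^ a)⁻¹ * k ∈ K s := fun s => hgen s k
  choose a ha using ha
  obtain ⟨m, hm⟩ := Nat.chineseRemainderOfFinset a (fun s => (s : ℕ) ^ t s)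
    (Finset.univ : Finset (Nat.card X).primeFactors)
    (fun s _ => pow_ne_zero _ (Nat.prime_of_mem_primeFactors s.2).ne_zero)
    (fun r _ s _ hrs => Nat.Coprime.pow _ _ ((Nat.coprime_primes
      (Nat.prime_of_mem_primeFactors r.2)
      (Nat.prime_of_mem_primeFactors s.2)).2 fun h => hrs (Subtype.ext h)))
  refine ⟨m, ?_⟩
  have hmem : (g ^ m)⁻¹ * k ∈ M := by
    rw [hM, Subgroup.mem_iInf]
    intro s
    have := hnorm s
    have h1 : (QuotientGroup.mk' (K s) g) ^ ((s : ℕ) ^ t s) = 1 := by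
      have h2 : QuotientGroup.mk' (K s) g = QuotientGroup.mk' (K s) (ρ s) := hgs s
      rw [h2, ← map_pow, hpow s, map_one]
    have h3 : QuotientGroup.mk' (K s) (g ^ m) = QuotientGroup.mk' (K s) (ρ s ^ a s) := by
      have h2 : QuotientGroup.mk' (K s) g = QuotientGroup.mk' (K s) (ρ s) := hgs s
      rw [map_pow, map_pow, ← h2]
      exact pow_eq_pow_of_modEq (hm s (Finset.mem_univ s)) h1
    have h4 : QuotientGroup.mk' (K s) (ρ s ^ a s) = QuotientGroup.mk' (K s) k :=
      QuotientGroup.eq.2 (ha s)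
    exact QuotientGroup.eq.1 (h3.trans h4)
  have h1 := hMtriv _ hmem x
  rw [mul_smul, hk, inv_smul_eq_iff] at h1
  exact h1.symm

end Pool.Agent.RegPack.C3
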