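import Pool.Agent.Lib_MP_cd200f_c3.OmegaA
import Pool.Agent.Lib_MP_cd200f_c3.Beta

/-!
# C2: normal form of the data in characteristic 3
-/

set_option autoImplicit false

namespace Pool.Agent.RegPack.C3

open Module

/-- C2 -/
theorem exists_data {F K : Type*} [Field F] [Fintype F] [DecidableEq F] [CharP F 3] [Field K]
    [Algebra F K] (hK : finrank F K = 3) {η β : K} (h : Cond F η β) :
    ∃ c θ : F, c ≠ 0 ∧ (∀ y : F, y ^ 3 - y ≠ θ) ∧ ∀ u v : F, (u ≠ 0 ∨ v ≠ 0) →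
      ∑ r : F, quadraticChar F (r ^ 4 +
        (θ * u ^ 3 + u ^ 2 * v + (c ^ 3 - θ ^ 2 - 1) * v ^ 3) * r +
        (u ^ 3 - u * v ^ 2 + θ * v ^ 3) * (c * u - θ * v)) = -1 :=
  exists_data_of_beta hK h (beta_eq hK h)

end Pool.Agent.RegPack.C3
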