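import Mathlib

/-!
# Cyclic regular packings of `PG(3, 3 ^ h)`: the root of the resolvent cubic (piece C3)
-/

namespace Pool.Agent.RegPack.C3

/-- the points of the affine curve `y ^ 2 = r ^ 4 + τ r + a` -/
noncomputable def rootPts {F : Type*} [Field F] [Fintype F] [DecidableEq F] (τ a : F) :
    Finset (F × F) :=
  Finset.univ.filter (fun p => p.2 ^ 2 = p.1 ^ 4 + τ * p.1 + a)

theorem root_card {F : Type*} [Field F] [Fintype F] [DecidableEq F] (hF : ringChar F ≠ 2)
    (τ a : F) :
    ((rootPts τ a).card : ℤ) =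
      Fintype.card F + ∑ r : F, quadraticChar F (r ^ 4 + τ * r + a) := by
  have h1 : (rootPts τ a).card =
      ∑ r : F, ((Finset.univ : Finset F).filter (fun y => y ^ 2 = r ^ 4 + τ * r + a)).card := by
    rw [rootPts, Finset.card_filter, ← Finset.univ_product_univ, Finset.sum_product]
    refine Finset.sum_congr rfl fun r _ => ?_
    rw [Finset.card_filter]
  have h2 : ∀ r : F, (((Finset.univ : Finset F).filter
      (fun y => y ^ 2 = r ^ 4 + τ * r + a)).card : ℤ) =
      quadraticChar F (r ^ 4 + τ * r + a) + 1 := by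
    intro r
    rw [← quadraticChar_card_sqrts hF]
    congr 2
    ext y
    simp
  rw [h1]
  push_cast
  rw [Finset.sum_congr rfl fun r _ => h2 r, Finset.sum_add_distrib]
  simp [Finset.card_univ, add_comm]

theorem exists_root {F : Type*} [Field F] [Fintype F] [DecidableEq F] [CharP F 3] (τ a : F)
    (h : ∑ r : F, quadraticChar F (r ^ 4 + τ * r + a) = -1) : ∃ X : F, X ^ 3 - a * X = τ ^ 2 := by
  by_contra hne
  push Not at hne
  have h3 : (3 : F) = 0 := by exact_mod_cast CharP.cast_eq_zero F 3
  have hτ : τ ≠ 0 := by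
    intro h0
    apply hne 0
    rw [h0]
    ring
  have hchar : ringChar F ≠ 2 := by
    rw [ringChar.eq F 3]
    decide
  have hcard := root_card hchar τ a
  rw [h] at hcard
  have hodd : Fintype.card F % 2 = 1 := FiniteField.odd_card_of_char_ne_two hchar
  have heven : (((rootPts τ a).card : ℕ) : ZMod 2) = 0 := by
    have h4 : (rootPts τ a).card % 2 = 0 := by omega
    rw [ZMod.natCast_eq_zero_iff]
    omega
  -- the part with `X = 0`
  have hsplit := Finset.card_filter_add_card_filter_not (s := rootPts τ a)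
    (fun p : F × F => p.2 + p.1 ^ 2 = 0)
  have hone : ((rootPts τ a).filter (fun p : F × F => p.2 + p.1 ^ 2 = 0)).card = 1 := by
    rw [Finset.card_eq_one]
    refine ⟨(-a / τ, -(-a / τ) ^ 2), ?_⟩
    ext ⟨r, y⟩
    simp only [rootPts, Finset.mem_filter, Finset.mem_univ, true_and, Finset.mem_singleton,
      Prod.mk.injEq]
    constructor
    · rintro ⟨h5, h6⟩
      have h7 : y = -r ^ 2 := by linear_combination h6
      have h8 : r = -a / τ := by
        rw [eq_div_iff hτ]
        rw [h7] at h5
        linear_combination -h5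
      exact ⟨h8, by rw [h7, h8]⟩
    · rintro ⟨rfl, rfl⟩
      refine ⟨?_, by ring⟩
      field_simp
      ring
  have htwo : ((((rootPts τ a).filter (fun p : F × F => ¬ p.2 + p.1 ^ 2 = 0)).card : ℕ) :
      ZMod 2) = 0 := by
    rw [Finset.card_eq_sum_ones, Nat.cast_sum]
    refine Finset.sum_involution
      (fun p _ => (τ / (p.2 + p.1 ^ 2) - p.1,
        (p.2 + p.1 ^ 2) - (τ / (p.2 + p.1 ^ 2) - p.1) ^ 2)) ?_ ?_ ?_ ?_
    · intro p _
      decide
    · rintro ⟨r, y⟩ hp _ hfix
      simp only [rootPts, Finset.mem_filter, Finset.mem_univ, true_and] at hp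
      simp only [Prod.mk.injEq] at hfix
      obtain ⟨h5, h6⟩ := hp
      obtain ⟨h7, h8⟩ := hfix
      have h9 : τ = 2 * r * (y + r ^ 2) := by
        have h10 : τ / (y + r ^ 2) = 2 * r := by linear_combination h7
        rw [div_eq_iff h6] at h10
        exact h10
      apply hne (y + r ^ 2)
      linear_combination (y + r ^ 2) * h5 - (τ + r * (y + r ^ 2)) * h9
    · rintro ⟨r, y⟩ hp
      simp only [rootPts, Finset.mem_filter, Finset.mem_univ, true_and] at hp ⊢
      obtain ⟨h5, h6⟩ := hp
      refine ⟨?_, ?_⟩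
      · obtain ⟨X, hX⟩ : ∃ X, X = y + r ^ 2 := ⟨_, rfl⟩
        have hy : y = X - r ^ 2 := by rw [hX]; ring
        rw [← hX] at h6 ⊢
        rw [hy] at h5
        obtain ⟨s, hs⟩ : ∃ s, s = τ / X := ⟨_, rfl⟩
        have hs2 : τ = s * X := by rw [hs]; field_simp
        rw [← hs]
        rw [hs2] at h5 ⊢
        linear_combination h5 + (-X * s ^ 2 + 2 * X * s * r) * h3
      · intro h7
        apply h6
        linear_combination h7
    · rintro ⟨r, y⟩ hp
      simp only [rootPts, Finset.mem_filter, Finset.mem_univ, true_and] at hp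
      obtain ⟨h5, h6⟩ := hp
      have h7 : (y + r ^ 2) - (τ / (y + r ^ 2) - r) ^ 2 + (τ / (y + r ^ 2) - r) ^ 2 =
          y + r ^ 2 := by ring
      simp only [h7]
      ext
      · simp
      · simp
  rw [hone] at hsplit
  rw [← hsplit] at heven
  push_cast at heven
  rw [htwo] at heven
  simp at heven

end Pool.Agent.RegPack.C3
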