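import Pool.Agent.Lib_MP_cd200f_co.Defs

/-!
# Packings are transported by linear equivalences
-/

namespace Pool.Agent.RegPack.C3

open Module

section

variable {F V W : Type*} [Field F] [AddCommGroup V] [Module F V] [AddCommGroup W] [Module F W]

/-- the image of a set of subspaces -/
def trS (e : V ≃ₗ[F] W) (S : Set (Submodule F V)) : Set (Submodule F W) :=
  (fun U => U.map (e : V →ₗ[F] W)) '' S

/-- the image of a set of sets of subspaces -/
def trP (e : V ≃ₗ[F] W) (P : Set (Set (Submodule F V))) : Set (Set (Submodule F W)) :=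
  trS e '' P

theorem tr_symm_map (e : V ≃ₗ[F] W) (U : Submodule F V) :
    (U.map (e : V →ₗ[F] W)).map (e.symm : W →ₗ[F] V) = U := by
  rw [← Submodule.map_comp]
  have h : (e.symm : W →ₗ[F] V) ∘ₗ (e : V →ₗ[F] W) = LinearMap.id := by
    ext x
    simp
  rw [h, Submodule.map_id]

theorem tr_map_symm (e : V ≃ₗ[F] W) (U : Submodule F W) :
    (U.map (e.symm : W →ₗ[F] V)).map (e : V →ₗ[F] W) = U := tr_symm_map e.symm U

theorem tr_isLine (e : V ≃ₗ[F] W) {U : Submodule F V} :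
    IsLine (U.map (e : V →ₗ[F] W)) ↔ IsLine U := by
  unfold IsLine
  rw [LinearEquiv.finrank_map_eq]

theorem tr_inj (e : V ≃ₗ[F] W) {U T : Submodule F V}
    (h : U.map (e : V →ₗ[F] W) = T.map (e : V →ₗ[F] W)) : U = T := by
  rw [← tr_symm_map e U, h, tr_symm_map]

theorem mem_trS (e : V ≃ₗ[F] W) {S : Set (Submodule F V)} {T : Submodule F W} :
    T ∈ trS e S ↔ T.map (e.symm : W →ₗ[F] V) ∈ S := by
  constructor
  · rintro ⟨U, hU, rfl⟩
    simp only
    rw [tr_symm_map]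
    exact hU
  · intro h
    exact ⟨_, h, tr_map_symm e T⟩

theorem map_mem_trS (e : V ≃ₗ[F] W) {S : Set (Submodule F V)} {U : Submodule F V} :
    U.map (e : V →ₗ[F] W) ∈ trS e S ↔ U ∈ S := by
  rw [mem_trS, tr_symm_map]

theorem tr_meet (e : V ≃ₗ[F] W) {U T : Submodule F V} :
    Meet (U.map (e : V →ₗ[F] W)) (T.map (e : V →ₗ[F] W)) ↔ Meet U T := by
  unfold Meet
  rw [← Submodule.map_inf _ e.injective]
  constructor
  · intro h h1
    exact h (by rw [h1, Submodule.map_bot])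
  · intro h h1
    exact h ((Submodule.map_eq_bot_iff (e := e) (p := U ⊓ T)).1 h1)

theorem tr_spread (e : V ≃ₗ[F] W) {S : Set (Submodule F V)} (hS : IsSpread S) :
    IsSpread (trS e S) := by
  constructor
  · rintro _ ⟨U, hU, rfl⟩
    exact (tr_isLine e).2 (hS.line U hU)
  · intro w hw
    obtain ⟨U, ⟨hU, hwU⟩, huniq⟩ := hS.cover (e.symm w)
      (fun h => hw ((LinearEquiv.map_eq_zero_iff e.symm).1 h))
    refine ⟨U.map (e : V →ₗ[F] W), ⟨⟨U, hU, rfl⟩, ⟨e.symm w, hwU, e.apply_symm_apply w⟩⟩, ?_⟩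
    rintro _ ⟨⟨U', hU', rfl⟩, ⟨u, hu, hue⟩⟩
    have h1 : e.symm w = u := by
      rw [← hue]
      exact e.symm_apply_apply u
    have h2 := huniq U' ⟨hU', h1 ▸ hu⟩
    rw [h2]

theorem tr_regular (e : V ≃ₗ[F] W) {S : Set (Submodule F V)} (hS : IsRegular S) :
    IsRegular (trS e S) := by
  rintro _ ⟨a, ha, rfl⟩ _ ⟨b, hb, rfl⟩ _ ⟨c, hc, rfl⟩ hab hac hbc T ⟨hT, hm⟩
  have key : T.map (e.symm : W →ₗ[F] V) ∈ regulus a b c := by
    refine ⟨(tr_isLine e.symm).2 hT, fun L hL h1 h2 h3 => ?_⟩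
    have h4 := hm (L.map (e : V →ₗ[F] W)) ((tr_isLine e).2 hL) ((tr_meet e).2 h1)
      ((tr_meet e).2 h2) ((tr_meet e).2 h3)
    rw [← tr_map_symm e T] at h4
    exact (tr_meet e).1 h4
  rw [mem_trS]
  exact hS a ha b hb c hc (fun h => hab (by rw [h])) (fun h => hac (by rw [h]))
    (fun h => hbc (by rw [h])) key

theorem trS_inj (e : V ≃ₗ[F] W) {S S' : Set (Submodule F V)} (h : trS e S = trS e S') :
    S = S' := by
  ext U
  rw [← map_mem_trS e, h, map_mem_trS]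

theorem tr_packing (e : V ≃ₗ[F] W) {P : Set (Set (Submodule F V))} (hP : IsPacking P) :
    IsPacking (trP e P) := by
  constructor
  · rintro _ ⟨S, hS, rfl⟩
    exact tr_spread e (hP.spread S hS)
  · intro T hT
    obtain ⟨S, ⟨hS, hTS⟩, huniq⟩ := hP.cover (T.map (e.symm : W →ₗ[F] V))
      ((tr_isLine e.symm).2 hT)
    refine ⟨trS e S, ⟨⟨S, hS, rfl⟩, (mem_trS e).2 hTS⟩, ?_⟩
    rintro _ ⟨⟨S', hS', rfl⟩, hTS'⟩
    rw [huniq S' ⟨hS', (mem_trS e).1 hTS'⟩]

theorem tr_packing_regular (e : V ≃ₗ[F] W) {P : Set (Set (Submodule F V))}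
    (hR : ∀ S ∈ P, IsRegular S) : ∀ S ∈ trP e P, IsRegular S := by
  rintro _ ⟨S, hS, rfl⟩
  exact tr_regular e (hR S hS)

theorem im_trS (e : V ≃ₗ[F] W) (s : W ≃ₗ[F] W) (S : Set (Submodule F V)) :
    im s (trS e S) = trS e (im ((e.trans s).trans e.symm) S) := by
  unfold im trS
  rw [Set.image_image, Set.image_image]
  refine Set.image_congr fun U _ => ?_
  rw [← Submodule.map_comp, ← Submodule.map_comp]
  congr 1
  ext x
  simp

theorem tr_invariant (e : V ≃ₗ[F] W) (s : W ≃ₗ[F] W) {P : Set (Set (Submodule F V))}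
    (h : ∀ S ∈ P, im ((e.trans s).trans e.symm) S ∈ P) : ∀ S ∈ trP e P, im s S ∈ trP e P := by
  rintro _ ⟨S, hS, rfl⟩
  rw [im_trS]
  exact ⟨_, h S hS, rfl⟩

end

end Pool.Agent.RegPack.C3
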