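import Pool.Agent.Lib_MP_cd200f_co.Trans
import Pool.Agent.Lib_MP_cd200f_c3.Transport
import Pool.Agent.Lib_MP_cd200f_c3.Geom
import Pool.Agent.Lib_MP_cd200f_c3.Count
import Pool.Agent.Lib_MP_cd200f_c3.Chars
import Pool.Agent.Lib_MP_cd200f_c3.Omega
import Pool.Agent.Lib_MP_cd200f_c3.Root
import Pool.Agent.Lib_MP_cd200f_c3.Final
import Pool.Agent.Lib_MP_cd200f_c3.Cyc

/-!
# Cyclic regular packings exist only for `q ≡ 2` modulo `3`
-/

namespace Pool.Agent.RegPack.C3

open Module

/-- no cubic extension of a field of characteristic `3` satisfies the condition -/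
theorem no_cond {F K : Type*} [Field F] [Fintype F] [DecidableEq F] [CharP F 3] [Field K]
    [Algebra F K] (hK : finrank F K = 3) {η β : K} (h : Cond F η β) : False := by
  obtain ⟨c, θ, hc, hθ, hs⟩ := exists_data hK h
  exact no_data c θ hc hθ fun u v huv => exists_root _ _ (hs u v huv)

/-- no regular packing is invariant under the Singer group -/
theorem no_singer {F K : Type*} [Field F] [Fintype F] [DecidableEq F] [CharP F 3] [Field K]
    [Algebra F K] (hK : finrank F K = 3)
    {P : Set (Set (Submodule F (F × K)))} (hP : IsPacking P) (hR : ∀ S ∈ P, IsRegular S)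
    (hinv : ∀ (u : K) (hu : u ≠ 0),
      u ^ (Fintype.card F * Fintype.card F + Fintype.card F + 1) = 1 →
      ∀ S ∈ P, im (sing F u hu) S ∈ P) : False := by
  have : Fact (Nat.Prime 3) := ⟨Nat.prime_three⟩
  obtain ⟨n, -, hn⟩ := FiniteField.card F 3
  have h3 : 3 ∣ Fintype.card F := by
    rw [hn]
    exact dvd_pow_self 3 n.ne_zero
  have hpos : 1 < Fintype.card F := Fintype.one_lt_card
  have h2 : 2 < Fintype.card F := by omega
  have h31 : ¬ 3 ∣ Fintype.card F - 1 := by omega
  obtain ⟨A, b, τ, δ, hG⟩ := exists_gdata h2 h31 hK hP hR hinv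
  have hchar : ringChar F ≠ 2 := by
    rw [ringChar.eq F 3]
    norm_num
  have hδ : δ ≠ 0 := by
    intro h
    have := hG.nr 0
    rw [h] at this
    simp at this
  -- the map `B = A - τ`
  let B : K →ₗ[F] K := A - τ • LinearMap.id
  have hB : ∀ x, B x = A x - τ • x := fun _ => rfl
  have hB1 : B 1 = 0 := by
    rw [hB, hG.A1, Algebra.smul_def, mul_one, sub_self]
  have hBB : ∀ x, B (B x) = -(τ • B x) - δ • x - algebraMap F K (b x) := by
    intro x
    simp only [hB, map_sub, map_smul, hG.AA]
    module
  have hBBB : ∀ x, B (B (B x)) = -(τ • B (B x)) - δ • B x := by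
    intro x
    have h := congrArg B (hBB x)
    rw [map_sub, map_sub, map_neg, map_smul, map_smul, Algebra.algebraMap_eq_smul_one, map_smul,
      hB1, smul_zero, sub_zero] at h
    exact h
  have hnr : ∀ (y : F) (x : K), y ≠ 0 → x ≠ 0 → B x ≠ y • x := by
    intro y x hy hx h
    have h1 : B (B x) = y • y • x := by rw [h, map_smul, h]
    rw [hBB, h] at h1
    -- `(y ^ 2 + τ y + δ) x` is in `F`
    have hne : y * y + τ * y + δ ≠ 0 := by
      have := hG.nr (-y)
      intro h2
      apply this
      linear_combination h2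
    have h2 : x = algebraMap F K (-(b x) / (y * y + τ * y + δ)) := by
      have h3 : (y * y + τ * y + δ) • x = algebraMap F K (-(b x)) := by
        rw [map_neg]
        have h4 : (y * y + τ * y + δ) • x = y • y • x + τ • y • x + δ • x := by module
        rw [h4, ← h1]
        module
      rw [div_eq_inv_mul, map_mul, ← h3, ← Algebra.smul_def, smul_smul, inv_mul_cancel₀ hne,
        one_smul]
    have h5 : B x = 0 := by
      rw [h2, Algebra.algebraMap_eq_smul_one, map_smul, hB1, smul_zero]
    rw [h5] at h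
    rcases smul_eq_zero.1 h.symm with h6 | h6
    · exact hy h6
    · exact hx h6
  have hnil : ∃ x, B (B (B x)) ≠ 0 := by
    by_contra hcon
    push Not at hcon
    have h1 : ∀ x, B (B x) = 0 := by
      intro x
      have h2 := hBBB (B x)
      rw [hcon, hcon, smul_zero, neg_zero, zero_sub] at h2
      exact (smul_eq_zero.1 (neg_eq_zero.1 h2.symm)).resolve_left hδ
    have h3 : ∀ x, B x = 0 := by
      intro x
      have h2 := hBBB x
      rw [hcon, h1, smul_zero, neg_zero, zero_sub] at h2
      exact (smul_eq_zero.1 (neg_eq_zero.1 h2.symm)).resolve_left hδ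
    -- then `K = F`
    have h4 : ∀ x : K, x ∈ Set.range (algebraMap F K) := by
      intro x
      have h2 := hBB x
      rw [h3, h3, smul_zero, neg_zero, zero_sub] at h2
      refine ⟨-(b x) / δ, ?_⟩
      have h5 : δ • x = algebraMap F K (-(b x)) := by
        rw [map_neg]
        linear_combination h2
      rw [div_eq_inv_mul, map_mul, ← h5, ← Algebra.smul_def, smul_smul, inv_mul_cancel₀ hδ,
        one_smul]
    have h6 : finrank F K = 1 := by
      refine finrank_eq_one (1 : K) one_ne_zero fun w => ?_
      obtain ⟨c, hc⟩ := h4 w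
      exact ⟨c, by rw [← hc, Algebra.algebraMap_eq_smul_one]⟩
    omega
  obtain ⟨η, β, hC⟩ := exists_cond hchar hK B hB1 hnr hnil fun c hc => GData.card h31 hK hG c hc
  exact no_cond hK hC

/-- the theorem for characteristic three -/
theorem no_char3 {F V : Type} [Field F] [Fintype F] [CharP F 3] [AddCommGroup V] [Module F V]
    (hV : finrank F V = 4) {P : Set (Set (Submodule F V))} (hP : IsPacking P)
    (hR : ∀ S ∈ P, IsRegular S) (g : V ≃ₗ[F] V) (hg : ∀ S ∈ P, im g S ∈ P)
    (htr : ∀ S ∈ P, ∀ T ∈ P, ∃ n : ℕ, im (g ^ n) S = T) : False := by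
  classical
  obtain ⟨K, iK, iA, e, hK, hs⟩ := exists_singer hV hP hR g hg htr
  exact no_singer hK (tr_packing e hP) (tr_packing_regular e hR)
    fun u hu hu1 => tr_invariant e (sing F u hu) (hs u hu hu1)

/-- **Main theorem.** -/
theorem cyclic_mod {F V : Type} [Field F] [Finite F] [AddCommGroup V] [Module F V]
    (hV : finrank F V = 4) {P : Set (Set (Submodule F V))} (hP : IsPacking P)
    (hR : ∀ S ∈ P, IsRegular S) (g : V ≃ₗ[F] V) (hg : ∀ S ∈ P, im g S ∈ P)
    (htr : ∀ S ∈ P, ∀ T ∈ P, ∃ n : ℕ, im (g ^ n) S = T) : Nat.card F % 3 = 2 := by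
  have hone : 1 < Nat.card F := Finite.one_lt_card
  have hfin : Finite V := finite_space hV
  have hpow : ∀ (n : ℕ) (S : Set (Submodule F V)), S ∈ P → im (g ^ n) S ∈ P := by
    intro n
    induction n with
    | zero =>
      intro S hS
      rw [pow_zero, im_one]
      exact hS
    | succ n ih =>
      intro S hS
      rw [pow_succ, im_mul]
      exact ih _ (hg S hS)
  have h0 : Nat.card F % 3 ≠ 0 := by
    intro h
    have := charP_of_dvd (F := F) Nat.prime_three (Nat.dvd_of_mod_eq_zero h)
    have : Fintype F := Fintype.ofFinite F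
    exact no_char3 hV hP hR g hg htr
  have h1 : Nat.card F % 3 ≠ 1 := by
    by_cases h2 : 2 < Nat.card F
    · have hfg : Finite (V ≃ₗ[F] V) := Finite.of_injective (fun e => (e : V → V)) DFunLike.coe_injective
      refine no_trans h2 hV hP hR (Subgroup.zpowers g) ?_ ?_
      · intro g' hg' S hS
        rw [← mem_powers_iff_mem_zpowers] at hg'
        obtain ⟨n, rfl⟩ := hg'
        exact hpow n S hS
      · intro S hS T hT
        obtain ⟨n, hn⟩ := htr S hS T hT
        exact ⟨g ^ n, Subgroup.npow_mem_zpowers g n, hn⟩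
    · omega
  omega

end Pool.Agent.RegPack.C3
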