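import Pool.Agent.Lib_MP_cd200f_c3.Defs

/-!
# The form of degree four in terms of the conjugates `w`, `w + 1`, `w + 2`
-/

namespace Pool.Agent.RegPack.C3

open Module

theorem omg_finite {F K : Type*} [Field F] [Fintype F] [Field K] [Algebra F K]
    (hK : finrank F K = 3) : Finite K := by
  have : FiniteDimensional F K := FiniteDimensional.of_finrank_pos (by rw [hK]; norm_num)
  exact Module.finite_of_finite F

theorem omg_trace {F K : Type*} [Field F] [Fintype F] [Field K] [Algebra F K]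
    (hK : finrank F K = 3) (x : K) :
    algebraMap F K (Algebra.trace F K x) =
      x + x ^ Fintype.card F + x ^ (Fintype.card F * Fintype.card F) := by
  have := omg_finite (F := F) hK
  rw [FiniteField.algebraMap_trace_eq_sum_pow, hK, Finset.sum_range_succ, Finset.sum_range_succ,
    Finset.sum_range_succ]
  simp [Nat.card_eq_fintype_card, pow_two]

theorem omg_norm {F K : Type*} [Field F] [Fintype F] [Field K] [Algebra F K]
    (hK : finrank F K = 3) (x : K) :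
    algebraMap F K (Algebra.norm F x) =
      x * x ^ Fintype.card F * x ^ (Fintype.card F * Fintype.card F) := by
  have := omg_finite (F := F) hK
  rw [FiniteField.algebraMap_norm_eq_prod_pow, hK, Finset.prod_range_succ, Finset.prod_range_succ,
    Finset.prod_range_succ]
  simp [Nat.card_eq_fintype_card, pow_two]

theorem omg_pow3 {F K : Type*} [Field F] [Fintype F] [Field K] [Algebra F K]
    (hK : finrank F K = 3) (x : K) :
    x ^ (Fintype.card F * Fintype.card F * Fintype.card F) = x := by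
  have := omg_finite (F := F) hK
  have := Fintype.ofFinite K
  have h : Fintype.card K = Fintype.card F * Fintype.card F * Fintype.card F := by
    rw [Module.card_eq_pow_finrank (K := F) (V := K), hK]; ring
  rw [← h, FiniteField.pow_card]

theorem omg_three {F : Type*} (K : Type*) [Field F] [CharP F 3] [Field K] [Algebra F K] :
    (3 : K) = 0 := by
  have h : (3 : F) = 0 := by exact_mod_cast CharP.cast_eq_zero F 3
  have h' := congrArg (algebraMap F K) h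
  rwa [map_ofNat, map_zero] at h'

theorem omg_add_pow {F K : Type*} [Field F] [Fintype F] [Field K] [Algebra F K] (x y : K) :
    (x + y) ^ Fintype.card F = x ^ Fintype.card F + y ^ Fintype.card F := by
  have h := (FiniteField.frobeniusAlgHom F K).map_add x y
  simpa [FiniteField.coe_frobeniusAlgHom] using h

theorem omg_map_pow {F K : Type*} [Field F] [Fintype F] [Field K] [Algebra F K] (x : F) :
    (algebraMap F K x) ^ Fintype.card F = algebraMap F K x := by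
  rw [← map_pow, FiniteField.pow_card]

/-- the form of degree four as a sum over the three conjugates -/
theorem omg_D_eq {F K : Type*} [Field F] [Fintype F] [CharP F 3] [Field K]
    [Algebra F K] (hK : finrank F K = 3) {η β : K}
    (hβ : β = (algebraMap F K (Algebra.trace F K η) - η) ^ 2) (g : K) :
    algebraMap F K (D F η β g) =
      η ^ 2 * g ^ Fintype.card F * g ^ (Fintype.card F * Fintype.card F) *
          (g ^ Fintype.card F * g ^ (Fintype.card F * Fintype.card F) -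
            g * (g ^ Fintype.card F + g ^ (Fintype.card F * Fintype.card F))) +
        (η ^ 2) ^ Fintype.card F * g ^ (Fintype.card F * Fintype.card F) * g *
          (g ^ (Fintype.card F * Fintype.card F) * g -
            g ^ Fintype.card F * (g ^ (Fintype.card F * Fintype.card F) + g)) +
        (η ^ 2) ^ (Fintype.card F * Fintype.card F) * g * g ^ Fintype.card F *
          (g * g ^ Fintype.card F -
            g ^ (Fintype.card F * Fintype.card F) * (g + g ^ Fintype.card F)) := by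
  have h3 : (3 : K) = 0 := omg_three (F := F) K
  have hg3 := omg_pow3 (F := F) hK g
  have hη3 := omg_pow3 (F := F) hK η
  unfold D
  rw [map_sub, map_pow, omg_trace hK, map_mul, map_mul, omg_norm hK, omg_trace hK (β * g), hβ,
    omg_trace hK η]
  have h4 : algebraMap F K 4 = 1 := by
    rw [map_ofNat]; linear_combination h3
  rw [h4]
  set q := Fintype.card F with hq
  have e1 : (η * (g ^ q * g ^ (q * q))) ^ q = η ^ q * (g ^ (q * q) * g) := by
    rw [mul_pow, mul_pow, ← pow_mul, ← pow_mul, hg3]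
  have e2 : (η * (g ^ q * g ^ (q * q))) ^ (q * q) = η ^ (q * q) * (g * g ^ q) := by
    rw [pow_mul, e1, mul_pow, mul_pow, ← pow_mul, ← pow_mul, hg3]
  have e0 : η + η ^ q + η ^ (q * q) - η = η ^ q + η ^ (q * q) := by ring
  have e3 : (η ^ q + η ^ (q * q)) ^ q = η ^ (q * q) + η := by
    rw [omg_add_pow, ← pow_mul, ← pow_mul, hη3]
  have e4 : (η ^ q + η ^ (q * q)) ^ (q * q) = η + η ^ q := by
    rw [pow_mul, e3, omg_add_pow, ← pow_mul, hη3]
  have e5 : ((η ^ q + η ^ (q * q)) ^ 2 * g) ^ q = (η ^ (q * q) + η) ^ 2 * g ^ q := by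
    rw [mul_pow, ← pow_mul, mul_comm 2 q, pow_mul, e3]
  have e6 : ((η ^ q + η ^ (q * q)) ^ 2 * g) ^ (q * q) = (η + η ^ q) ^ 2 * g ^ (q * q) := by
    rw [mul_pow, ← pow_mul, mul_comm 2 (q * q), pow_mul, e4]
  have e7 : (η ^ 2) ^ q = (η ^ q) ^ 2 := by rw [← pow_mul, ← pow_mul, mul_comm]
  have e8 : (η ^ 2) ^ (q * q) = (η ^ (q * q)) ^ 2 := by rw [← pow_mul, ← pow_mul, mul_comm]
  rw [e0, e1, e2, e5, e6, e7, e8]
  generalize η ^ q = η₁
  generalize η ^ (q * q) = η₂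
  generalize g ^ q = g₁
  generalize g ^ (q * q) = g₂
  ring

/-- the polynomial identity behind the form of degree four -/
theorem omg_core {R : Type*} [CommRing R] (h3 : (3 : R) = 0) {w θ : R} (hw : w ^ 3 = w + θ)
    (u v r c : R) :
    (w ^ 2 + c) * (u * (w + 1) - v * (w + 1) ^ 2 + v * c + r) *
        (u * (w + 2) - v * (w + 2) ^ 2 + v * c + r) *
          ((u * (w + 1) - v * (w + 1) ^ 2 + v * c + r) *
              (u * (w + 2) - v * (w + 2) ^ 2 + v * c + r) -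
            (u * w - v * w ^ 2 + v * c + r) *
              ((u * (w + 1) - v * (w + 1) ^ 2 + v * c + r) +
                (u * (w + 2) - v * (w + 2) ^ 2 + v * c + r))) +
      ((w + 1) ^ 2 + c) * (u * (w + 2) - v * (w + 2) ^ 2 + v * c + r) *
        (u * w - v * w ^ 2 + v * c + r) *
          ((u * (w + 2) - v * (w + 2) ^ 2 + v * c + r) * (u * w - v * w ^ 2 + v * c + r) -
            (u * (w + 1) - v * (w + 1) ^ 2 + v * c + r) *
              ((u * (w + 2) - v * (w + 2) ^ 2 + v * c + r) +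
                (u * w - v * w ^ 2 + v * c + r))) +
      ((w + 2) ^ 2 + c) * (u * w - v * w ^ 2 + v * c + r) *
        (u * (w + 1) - v * (w + 1) ^ 2 + v * c + r) *
          ((u * w - v * w ^ 2 + v * c + r) * (u * (w + 1) - v * (w + 1) ^ 2 + v * c + r) -
            (u * (w + 2) - v * (w + 2) ^ 2 + v * c + r) *
              ((u * w - v * w ^ 2 + v * c + r) +
                (u * (w + 1) - v * (w + 1) ^ 2 + v * c + r))) =
      r ^ 4 + (θ * u ^ 3 + u ^ 2 * v + (c ^ 3 - θ ^ 2 - 1) * v ^ 3) * r +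
        (u ^ 3 - u * v ^ 2 + θ * v ^ 3) * (c * u - θ * v) := by
  linear_combination
    (-w^3*v^4 - w^3*v^3*r + w*v^4 + w*v^3*r - u^3*v + u^3*r + u*v^3*c + u*v^3 - v^4*θ - v^3*r*θ) * hw +
    (-w^10*v^4 + 4*w^9*u*v^3 - 10*w^9*v^4 - 6*w^8*u^2*v^2 + 36*w^8*u*v^3 + 3*w^8*v^4*c - 43*w^8*v^4
      + 4*w^8*v^3*r + 4*w^7*u^3*v - 48*w^7*u^2*v^2 - 8*w^7*u*v^3*c + 140*w^7*u*v^3 - 12*w^7*u*v^2*r +
      24*w^7*v^4*c - 104*w^7*v^4 + 32*w^7*v^3*r - w^6*u^4 + 28*w^6*u^3*v + 6*w^6*u^2*v^2*c -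
      166*w^6*u^2*v^2 + 12*w^6*u^2*v*r - 56*w^6*u*v^3*c + 308*w^6*u*v^3 - 84*w^6*u*v^2*r -
      2*w^6*v^4*c^2 + 92*w^6*v^4*c - 155*w^6*v^4 - 8*w^6*v^3*r*c + 115*w^6*v^3*r - 6*w^6*v^2*r^2 -
      6*w^5*u^4 + 84*w^5*u^3*v - 4*w^5*u^3*r + 36*w^5*u^2*v^2*c - 324*w^5*u^2*v^2 + 72*w^5*u^2*v*r -
      196*w^5*u*v^3*c + 422*w^5*u*v^3 + 12*w^5*u*v^2*r*c - 264*w^5*u*v^2*r + 12*w^5*u*v*r^2 -
      12*w^5*v^4*c^2 + 216*w^5*v^4*c - 148*w^5*v^4 - 48*w^5*v^3*r*c + 240*w^5*v^3*r - 36*w^5*v^2*r^2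
      - w^4*u^4*c - 15*w^4*u^4 + 140*w^4*u^3*v - 20*w^4*u^3*r + 6*w^4*u^2*v^2*c^2 + 120*w^4*u^2*v^2*c
      - 388*w^4*u^2*v^2 + 192*w^4*u^2*v*r - 6*w^4*u^2*r^2 - 420*w^4*u*v^3*c + 374*w^4*u*v^3 +
      60*w^4*u*v^2*r*c - 480*w^4*u*v^2*r + 60*w^4*u*v*r^2 - 2*w^4*v^4*c^3 - 50*w^4*v^4*c^2 +
      338*w^4*v^4*c - 90*w^4*v^4 - 152*w^4*v^3*r*c + 324*w^4*v^3*r + 6*w^4*v^2*r^2*c -
      102*w^4*v^2*r^2 + 4*w^4*v*r^3 - 4*w^3*u^4*c - 20*w^3*u^4 - 4*w^3*u^3*v*c^2 - 12*w^3*u^3*v*c +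
      137*w^3*u^3*v - 4*w^3*u^3*r*c - 43*w^3*u^3*r + 24*w^3*u^2*v^2*c^2 + 240*w^3*u^2*v^2*c -
      288*w^3*u^2*v^2 + 288*w^3*u^2*v*r - 24*w^3*u^2*r^2 + 8*w^3*u*v^3*c^3 + 36*w^3*u*v^3*c^2 -
      567*w^3*u*v^3*c + 213*w^3*u*v^3 + 12*w^3*u*v^2*r*c^2 + 176*w^3*u*v^2*r*c - 540*w^3*u*v^2*r +
      140*w^3*u*v*r^2 - 4*w^3*u*r^3 - 8*w^3*v^4*c^3 - 120*w^3*v^4*c^2 + 360*w^3*v^4*c - 32*w^3*v^4 -
      288*w^3*v^3*r*c + 296*w^3*v^3*r + 24*w^3*v^2*r^2*c - 168*w^3*v^2*r^2 + 16*w^3*v*r^3 -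
      4*w^2*u^4*c - 14*w^2*u^4 - 12*w^2*u^3*v*c^2 - 36*w^2*u^3*v*c + 74*w^2*u^3*v - 12*w^2*u^3*r*c -
      48*w^2*u^3*r - 6*w^2*u^2*v^2*c^3 + 18*w^2*u^2*v^2*c^2 + 270*w^2*u^2*v^2*c - 124*w^2*u^2*v^2 -
      12*w^2*u^2*v*r*c^2 - 24*w^2*u^2*v*r*c + 246*w^2*u^2*v*r - 6*w^2*u^2*r^2*c - 42*w^2*u^2*r^2 +
      24*w^2*u*v^3*c^3 + 108*w^2*u*v^3*c^2 - 468*w^2*u*v^3*c + 72*w^2*u*v^3 + 36*w^2*u*v^2*r*c^2 +
      288*w^2*u*v^2*r*c - 372*w^2*u*v^2*r + 180*w^2*u*v*r^2 - 12*w^2*u*r^3 + 3*w^2*v^4*c^4 -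
      4*w^2*v^4*c^3 - 146*w^2*v^4*c^2 + 248*w^2*v^4*c - 5*w^2*v^4 + 8*w^2*v^3*r*c^3 +
      24*w^2*v^3*r*c^2 - 308*w^2*v^3*r*c + 179*w^2*v^3*r + 6*w^2*v^2*r^2*c^2 + 60*w^2*v^2*r^2*c -
      162*w^2*v^2*r^2 + 32*w^2*v*r^3 - w^2*r^4 - 4*w*u^4 - 8*w*u^3*v*c^2 - 36*w*u^3*v*c + 17*w*u^3*v
      - 8*w*u^3*r*c - 25*w*u^3*r - 12*w*u^2*v^2*c^3 - 12*w*u^2*v^2*c^2 + 156*w*u^2*v^2*c -
      24*w*u^2*v^2 - 24*w*u^2*v*r*c^2 - 48*w*u^2*v*r*c + 108*w*u^2*v*r - 12*w*u^2*r^2*c -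
      36*w*u^2*r^2 - 4*w*u*v^3*c^4 + 20*w*u*v^3*c^3 + 102*w*u*v^3*c^2 - 213*w*u*v^3*c + 11*w*u*v^3 -
      12*w*u*v^2*r*c^3 + 24*w*u*v^2*r*c^2 + 220*w*u*v^2*r*c - 144*w*u*v^2*r - 12*w*u*v*r^2*c^2 -
      12*w*u*v*r^2*c + 118*w*u*v*r^2 - 4*w*u*r^3*c - 16*w*u*r^3 + 6*w*v^4*c^4 + 8*w*v^4*c^3 -
      84*w*v^4*c^2 + 96*w*v^4*c + 16*w*v^3*r*c^3 + 48*w*v^3*r*c^2 - 168*w*v^3*r*c + 64*w*v^3*r +
      12*w*v^2*r^2*c^2 + 72*w*v^2*r^2*c - 84*w*v^2*r^2 + 32*w*v*r^3 - 2*w*r^4 + u^4*c - 12*u^3*v*c -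
      4*u^3*r - 4*u^2*v^2*c^3 - 10*u^2*v^2*c^2 + 35*u^2*v^2*c - 8*u^2*v*r*c^2 - 20*u^2*v*r*c +
      17*u^2*v*r - 4*u^2*r^2*c - 10*u^2*r^2 - 4*u*v^3*c^4 + 4*u*v^3*c^3 + 30*u*v^3*c^2 - 40*u*v^3*c -
      12*u*v^2*r*c^3 + 60*u*v^2*r*c - 24*u*v^2*r - 12*u*v*r^2*c^2 - 12*u*v*r^2*c + 30*u*v*r^2 -
      4*u*r^3*c - 8*u*r^3 - v^4*c^5 + 5*v^4*c^4 + 6*v^4*c^3 - 20*v^4*c^2 + 16*v^4*c - 4*v^3*r*c^4 +
      13*v^3*r*c^3 + 26*v^3*r*c^2 - 40*v^3*r*c + 11*v^3*r - 6*v^2*r^2*c^3 + 10*v^2*r^2*c^2 +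
      34*v^2*r^2*c - 20*v^2*r^2 - 4*v*r^3*c^2 + 14*v*r^3 - r^4*c - 2*r^4) * h3

/-- the form of degree four at `u w - v w ^ 2 + v c + r` -/
theorem omg_D_omega {F K : Type*} [Field F] [Fintype F] [CharP F 3] [Field K]
    [Algebra F K] (hK : finrank F K = 3) {η β w : K} {Δ c θ : F}
    (hβ : β = (algebraMap F K (Algebra.trace F K η) - η) ^ 2)
    (hη : η ^ 2 = algebraMap F K Δ * (w ^ 2 + algebraMap F K c))
    (hwq : w ^ Fintype.card F = w + 1) (hw : w ^ 3 = w + algebraMap F K θ) (u v r : F) :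
    D F η β (algebraMap F K u * w - algebraMap F K v * w ^ 2 + algebraMap F K (v * c) +
        algebraMap F K r) =
      Δ * (r ^ 4 + (θ * u ^ 3 + u ^ 2 * v + (c ^ 3 - θ ^ 2 - 1) * v ^ 3) * r +
        (u ^ 3 - u * v ^ 2 + θ * v ^ 3) * (c * u - θ * v)) := by
  have h3 : (3 : K) = 0 := omg_three (F := F) K
  apply (algebraMap F K).injective
  rw [omg_D_eq hK hβ]
  have one_q : (1 : K) ^ Fintype.card F = 1 := one_pow _
  have hwqq : w ^ (Fintype.card F * Fintype.card F) = w + 2 := by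
    rw [pow_mul, hwq, omg_add_pow, hwq, one_q]; ring
  -- images of polynomials in `w` under the two Frobenius maps
  have img : ∀ x y z : F, (algebraMap F K x * w ^ 2 + algebraMap F K y * w +
      algebraMap F K z) ^ Fintype.card F =
        algebraMap F K x * (w ^ Fintype.card F) ^ 2 + algebraMap F K y * w ^ Fintype.card F +
          algebraMap F K z := by
    intro x y z
    rw [omg_add_pow, omg_add_pow, mul_pow, mul_pow, omg_map_pow, omg_map_pow, omg_map_pow,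
      ← pow_mul, ← pow_mul, mul_comm 2]
  have img1 : ∀ x y z : F, (algebraMap F K x * w ^ 2 + algebraMap F K y * w +
      algebraMap F K z) ^ Fintype.card F =
        algebraMap F K x * (w + 1) ^ 2 + algebraMap F K y * (w + 1) + algebraMap F K z := by
    intro x y z
    rw [img, hwq]
  have img2 : ∀ x y z : F, (algebraMap F K x * w ^ 2 + algebraMap F K y * w +
      algebraMap F K z) ^ (Fintype.card F * Fintype.card F) =
        algebraMap F K x * (w + 2) ^ 2 + algebraMap F K y * (w + 2) + algebraMap F K z := by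
    intro x y z
    rw [pow_mul, img1]
    have e : algebraMap F K x * (w + 1) ^ 2 + algebraMap F K y * (w + 1) + algebraMap F K z =
        algebraMap F K x * w ^ 2 + algebraMap F K (2 * x + y) * w +
          algebraMap F K (x + y + z) := by
      simp only [map_add, map_mul, map_ofNat]; ring
    rw [e, img1]
    simp only [map_add, map_mul, map_ofNat]; ring
  have hg : algebraMap F K u * w - algebraMap F K v * w ^ 2 + algebraMap F K (v * c) +
      algebraMap F K r = algebraMap F K (-v) * w ^ 2 + algebraMap F K u * w +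
        algebraMap F K (v * c + r) := by
    simp only [map_add, map_neg]; ring
  have hη' : η ^ 2 = algebraMap F K Δ * w ^ 2 + algebraMap F K 0 * w +
      algebraMap F K (Δ * c) := by
    rw [hη]; simp only [map_mul, map_zero]; ring
  rw [hg, img1, img2, hη', img1, img2]
  have core := omg_core h3 hw (algebraMap F K u) (algebraMap F K v) (algebraMap F K r)
    (algebraMap F K c)
  simp only [map_add, map_mul, map_neg, map_sub, map_pow, map_zero, map_one] at core ⊢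
  linear_combination (algebraMap F K Δ) * core

end Pool.Agent.RegPack.C3
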