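import Mathlib

/-!
# The sum of the quadratic character of a quartic polynomial modulo 3, in characteristic 3
-/

namespace Pool.Agent.RegPack.C3

open Polynomial

section

variable {F : Type*} [Field F] [Fintype F]

theorem sum_pow_mid {j : ℕ} (h : j < 2 * (Fintype.card F - 1) + 1) :
    ∑ x : F, x ^ j = if j = Fintype.card F - 1 ∨ j = 2 * (Fintype.card F - 1) then -1 else 0 := by
  classical
  have hq : 1 < Fintype.card F := Fintype.one_lt_card
  have h1 : ∑ x : F, x ^ (Fintype.card F - 1) = -1 := by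
    have e : ∀ x : F, x ^ (Fintype.card F - 1) = 1 - if x = 0 then 1 else 0 := by
      intro x
      by_cases hx : x = 0
      · rw [hx, if_pos rfl, zero_pow (by omega), sub_self]
      · rw [if_neg hx, sub_zero, FiniteField.pow_card_sub_one_eq_one x hx]
    simp only [e]
    rw [Finset.sum_sub_distrib]
    simp
  have h2 : ∀ i : ℕ, 0 < i → ∑ x : F, x ^ (i + (Fintype.card F - 1)) = ∑ x : F, x ^ i := by
    intro i hi
    refine Finset.sum_congr rfl fun x _ => ?_
    by_cases hx : x = 0
    · rw [hx, zero_pow (by omega), zero_pow (by omega)]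
    · rw [pow_add, FiniteField.pow_card_sub_one_eq_one x hx, mul_one]
  rcases lt_trichotomy j (Fintype.card F - 1) with hj | hj | hj
  · rw [if_neg (by omega), FiniteField.sum_pow_lt_card_sub_one _ _ hj]
  · rw [if_pos (Or.inl hj), hj, h1]
  · obtain ⟨i, rfl⟩ : ∃ i, j = i + (Fintype.card F - 1) := ⟨j - (Fintype.card F - 1), by omega⟩
    rw [h2 i (by omega)]
    by_cases hi : i = Fintype.card F - 1
    · rw [if_pos (Or.inr (by omega)), hi, h1]
    · rw [if_neg (by omega), FiniteField.sum_pow_lt_card_sub_one _ _ (by omega)]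

theorem sum_eval {Q : F[X]} (hQ : Q.natDegree < 2 * (Fintype.card F - 1) + 1) :
    ∑ x : F, Q.eval x = -Q.coeff (Fintype.card F - 1) - Q.coeff (2 * (Fintype.card F - 1)) := by
  have hq : 1 < Fintype.card F := Fintype.one_lt_card
  simp only [eval_eq_sum_range' hQ]
  rw [Finset.sum_comm]
  have h1 : ∀ j ∈ Finset.range (2 * (Fintype.card F - 1) + 1), ∑ x : F, Q.coeff j * x ^ j =
      (if j = Fintype.card F - 1 then -Q.coeff j else 0) +
        (if j = 2 * (Fintype.card F - 1) then -Q.coeff j else 0) := by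
    intro j hj
    rw [← Finset.mul_sum, sum_pow_mid (Finset.mem_range.1 hj)]
    by_cases h1 : j = Fintype.card F - 1
    · rw [if_pos (Or.inl h1), if_pos h1, if_neg (by omega)]
      ring
    · by_cases h2 : j = 2 * (Fintype.card F - 1)
      · rw [if_pos (Or.inr h2), if_neg h1, if_pos h2]
        ring
      · rw [if_neg (by omega), if_neg h1, if_neg h2]
        ring
  rw [Finset.sum_congr rfl h1, Finset.sum_add_distrib, Finset.sum_ite_eq', Finset.sum_ite_eq',
    if_pos (Finset.mem_range.2 (by omega)), if_pos (Finset.mem_range.2 (by omega))]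
  ring

omit [Fintype F] in
theorem coeff_cube [CharP F 3] (f : F[X]) (n : ℕ) :
    (f ^ 3).coeff n = if 3 ∣ n then f.coeff (n / 3) ^ 3 else 0 := by
  have : Fact (Nat.Prime 3) := ⟨Nat.prime_three⟩
  rw [← Polynomial.map_frobenius_expand, coeff_map, coeff_expand (by norm_num)]
  split_ifs
  · rfl
  · exact map_zero _

omit [Fintype F] in
theorem coeff_mid [CharP F 3] (p₀ p₁ p₂ p₃ p₄ : F) (h : ℕ) :
    ((C p₀ + C p₁ * X + C p₂ * X ^ 2 + C p₃ * X ^ 3 + C p₄ * X ^ 4) ^ ((3 ^ h - 1) / 2)).coeff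
      (3 ^ h - 1) = p₂ ^ ((3 ^ h - 1) / 2) := by
  induction h with
  | zero => simp
  | succ h ih =>
    set P := C p₀ + C p₁ * X + C p₂ * X ^ 2 + C p₃ * X ^ 3 + C p₄ * X ^ 4 with hP
    have h3 : 3 ^ h % 2 = 1 := by
      rw [Nat.pow_mod]
      simp
    have hpos : 0 < 3 ^ h := by positivity
    obtain ⟨m, hm⟩ : ∃ m, 3 ^ h = 2 * m + 1 := ⟨3 ^ h / 2, by omega⟩
    have e1 : (3 ^ h - 1) / 2 = m := by omega
    have e2 : (3 ^ (h + 1) - 1) / 2 = m * 3 + 1 := by
      rw [pow_succ]
      omega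
    have e3 : 3 ^ (h + 1) - 1 = 3 * (2 * m) + 2 := by
      rw [pow_succ]
      omega
    rw [e1, show 3 ^ h - 1 = 2 * m by omega] at ih
    rw [e2, e3, pow_succ, pow_mul]
    have hc := coeff_cube (P ^ m)
    set f := (P ^ m) ^ 3 with hf
    have expand : (f * P).coeff (3 * (2 * m) + 2) = f.coeff (3 * (2 * m)) * p₂ := by
      rw [hP]
      simp only [mul_add, coeff_add]
      have a0 : (f * C p₀).coeff (3 * (2 * m) + 2) = 0 := by
        rw [coeff_mul_C, hc, if_neg (by omega), zero_mul]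
      have a1 : (f * (C p₁ * X)).coeff (3 * (2 * m) + 2) = 0 := by
        rw [← mul_assoc, coeff_mul_X, coeff_mul_C, hc, if_neg (by omega), zero_mul]
      have a2 : (f * (C p₂ * X ^ 2)).coeff (3 * (2 * m) + 2) = f.coeff (3 * (2 * m)) * p₂ := by
        rw [← mul_assoc, coeff_mul_X_pow, coeff_mul_C]
      have a3 : (f * (C p₃ * X ^ 3)).coeff (3 * (2 * m) + 2) = 0 := by
        rw [← mul_assoc, coeff_mul_X_pow']
        split_ifs with h5
        · rw [coeff_mul_C, hc, if_neg (by omega), zero_mul]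
        · rfl
      have a4 : (f * (C p₄ * X ^ 4)).coeff (3 * (2 * m) + 2) = 0 := by
        rw [← mul_assoc, coeff_mul_X_pow']
        split_ifs with h5
        · rw [coeff_mul_C, hc, if_neg (by omega), zero_mul]
        · rfl
      rw [a0, a1, a2, a3, a4]
      ring
    rw [expand, hc, if_pos (Dvd.intro _ rfl), Nat.mul_div_cancel_left _ (by norm_num), ih]
    ring

end

/-- the sum of the quadratic character of a quartic, modulo 3 -/
theorem sum_char_quartic {F : Type*} [Field F] [Fintype F] [DecidableEq F] [CharP F 3]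
    (p₀ p₁ p₂ p₃ p₄ : F) :
    ((∑ r : F, quadraticChar F (p₀ + p₁ * r + p₂ * r ^ 2 + p₃ * r ^ 3 + p₄ * r ^ 4) : ℤ) : F) =
      -((quadraticChar F p₂ : ℤ) : F) - ((quadraticChar F p₄ : ℤ) : F) := by
  have : Fact (Nat.Prime 3) := ⟨Nat.prime_three⟩
  have h2 : ringChar F ≠ 2 := by
    rw [ringChar.eq F 3]
    norm_num
  obtain ⟨h, -, hh⟩ := FiniteField.card F 3
  set P := C p₀ + C p₁ * X + C p₂ * X ^ 2 + C p₃ * X ^ 3 + C p₄ * X ^ 4 with hP
  have hodd : Fintype.card F % 2 = 1 := by
    rw [hh, Nat.pow_mod]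
    simp
  have hq : 1 < Fintype.card F := Fintype.one_lt_card
  have hdeg : P.natDegree ≤ 4 := by
    rw [hP]
    compute_degree
  have hdeg2 : (P ^ (Fintype.card F / 2)).natDegree < 2 * (Fintype.card F - 1) + 1 := by
    have := natDegree_pow_le_of_le (Fintype.card F / 2) hdeg
    omega
  have key := sum_eval hdeg2
  have e4 : 2 * (Fintype.card F - 1) = (Fintype.card F / 2) * 4 := by omega
  rw [e4, coeff_pow_of_natDegree_le hdeg] at key
  have c4 : P.coeff 4 = p₄ := by
    rw [hP]
    simp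
  have c2 : (P ^ (Fintype.card F / 2)).coeff (Fintype.card F - 1) = p₂ ^ (Fintype.card F / 2) := by
    have := coeff_mid p₀ p₁ p₂ p₃ p₄ (h : ℕ)
    rw [← hh] at this
    rw [show Fintype.card F / 2 = (Fintype.card F - 1) / 2 by omega]
    exact this
  rw [c4, c2] at key
  rw [quadraticChar_eq_pow_of_char_ne_two' h2, quadraticChar_eq_pow_of_char_ne_two' h2, ← key]
  push_cast
  refine Finset.sum_congr rfl fun r _ => ?_
  rw [quadraticChar_eq_pow_of_char_ne_two' h2, eval_pow, hP]
  simp

/-- the middle coefficient vanishes -/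
theorem p2_zero {F : Type*} [Field F] [Fintype F] [DecidableEq F] [CharP F 3]
    {p₀ p₁ p₂ p₃ p₄ : F} (h4 : quadraticChar F p₄ = -1)
    (h : ∑ r : F, quadraticChar F (p₀ + p₁ * r + p₂ * r ^ 2 + p₃ * r ^ 3 + p₄ * r ^ 4) = 1) :
    p₂ = 0 := by
  have key := sum_char_quartic p₀ p₁ p₂ p₃ p₄
  rw [h, h4] at key
  by_contra h2
  have h3 : quadraticChar F p₂ = 1 ∨ quadraticChar F p₂ = -1 := quadraticChar_dichotomy h2
  rcases h3 with h3 | h3 <;> rw [h3] at key <;> push_cast at key
  · have : (1 : F) = 0 := by linear_combination key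
    exact one_ne_zero this
  · have : (1 : F) = 0 := by linear_combination -key
    exact one_ne_zero this

end Pool.Agent.RegPack.C3
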