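import Pool.Agent.Lib_MP_cd200f_c3.Defs
import Pool.Agent.Lib_MP_cd200f_co.Defs

/-!
# Exact statements of the pieces (stubs, never import this file in a proof)
-/

namespace Pool.Agent.RegPack.C3

open Module

/-! ## C1 Beta.lean -/

theorem beta_eq {F K : Type*} [Field F] [Fintype F] [DecidableEq F] [CharP F 3] [Field K]
    [Algebra F K] (hK : finrank F K = 3) {η β : K} (h : Cond F η β) :
    β = (algebraMap F K (Algebra.trace F K η) - η) ^ 2 := by
  sorry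

/-! ## C2 Omega.lean -/

theorem exists_data {F K : Type*} [Field F] [Fintype F] [DecidableEq F] [CharP F 3] [Field K]
    [Algebra F K] (hK : finrank F K = 3) {η β : K} (h : Cond F η β) :
    ∃ c θ : F, c ≠ 0 ∧ (∀ y : F, y ^ 3 - y ≠ θ) ∧ ∀ u v : F, (u ≠ 0 ∨ v ≠ 0) →
      ∑ r : F, quadraticChar F (r ^ 4 +
        (θ * u ^ 3 + u ^ 2 * v + (c ^ 3 - θ ^ 2 - 1) * v ^ 3) * r +
        (u ^ 3 - u * v ^ 2 + θ * v ^ 3) * (c * u - θ * v)) = -1 := by
  sorry

/-! ## C3 Root.lean -/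

theorem exists_root {F : Type*} [Field F] [Fintype F] [DecidableEq F] [CharP F 3] (τ a : F)
    (h : ∑ r : F, quadraticChar F (r ^ 4 + τ * r + a) = -1) : ∃ X : F, X ^ 3 - a * X = τ ^ 2 := by
  sorry

/-! ## C4 Final.lean -/

theorem no_data {F : Type*} [Field F] [Fintype F] [CharP F 3] (c θ : F) (hc : c ≠ 0)
    (hθ : ∀ y : F, y ^ 3 - y ≠ θ) (h : ∀ u v : F, (u ≠ 0 ∨ v ≠ 0) → ∃ X : F,
      X ^ 3 - (u ^ 3 - u * v ^ 2 + θ * v ^ 3) * (c * u - θ * v) * X =
        (θ * u ^ 3 + u ^ 2 * v + (c ^ 3 - θ ^ 2 - 1) * v ^ 3) ^ 2) : False := by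
  sorry

/-! ## C5 Dickson.lean -/

theorem exists_dickson {F K : Type*} [Field F] [Fintype F] [Field K] [Algebra F K]
    (hK : finrank F K = 3) (B : K →ₗ[F] K) : ∃ b₀ b₁ b₂ : K, ∀ x, B x =
      b₀ * x + b₁ * x ^ Fintype.card F + b₂ * x ^ (Fintype.card F * Fintype.card F) := by
  sorry

theorem dickson_iff {F K : Type*} [Field F] [Fintype F] [Field K] [Algebra F K]
    (hK : finrank F K = 3) (a b c : K) :
    (∃ x : K, x ≠ 0 ∧ a * x + b * x ^ Fintype.card F +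
      c * x ^ (Fintype.card F * Fintype.card F) = 0) ↔ dick (Fintype.card F) a b c = 0 := by
  sorry

/-! ## C6 Chars.lean (from C5) -/

theorem exists_cond {F K : Type*} [Field F] [Fintype F] [DecidableEq F] [Field K]
    [Algebra F K] (hF : ringChar F ≠ 2) (hK : finrank F K = 3) (B : K →ₗ[F] K) (h1 : B 1 = 0)
    (hnr : ∀ (y : F) (x : K), y ≠ 0 → x ≠ 0 → B x ≠ y • x) (hnil : ∃ x, B (B (B x)) ≠ 0)
    (hcard : ∀ c : K, c ∉ Set.range (algebraMap F K) →
      Nat.card {p : F × F // p.2 ≠ 0 ∧ ∃ x : K, x ≠ 0 ∧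
        B x = p.2 • ((c + algebraMap F K p.1) * x)} = Fintype.card F) :
    ∃ η β : K, Cond F η β := by
  sorry

/-! ## C7 Count.lean -/

theorem GData.card {F K : Type*} [Field F] [Fintype F] [Field K] [Algebra F K]
    (hF : ¬ 3 ∣ Fintype.card F - 1) (hK : finrank F K = 3) {A : K →ₗ[F] K} {b : K →ₗ[F] F}
    {τ δ : F} (h : GData F A b τ δ) (c : K) (hc : c ∉ Set.range (algebraMap F K)) :
    Nat.card {p : F × F // p.2 ≠ 0 ∧ ∃ x : K, x ≠ 0 ∧
        A x - τ • x = p.2 • ((c + algebraMap F K p.1) * x)} = Fintype.card F := by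
  sorry

/-! ## C8 Geom.lean -/

theorem exists_gdata {F K : Type*} [Field F] [Fintype F] [Field K] [Algebra F K]
    (hF : 2 < Fintype.card F) (hF3 : ¬ 3 ∣ Fintype.card F - 1) (hK : finrank F K = 3)
    {P : Set (Set (Submodule F (F × K)))} (hP : IsPacking P) (hR : ∀ S ∈ P, IsRegular S)
    (hinv : ∀ (u : K) (hu : u ≠ 0),
      u ^ (Fintype.card F * Fintype.card F + Fintype.card F + 1) = 1 →
      ∀ S ∈ P, im (sing F u hu) S ∈ P) :
    ∃ (A : K →ₗ[F] K) (b : K →ₗ[F] F) (τ δ : F), GData F A b τ δ := by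
  sorry

/-! ## C9 Cyc.lean: from a cyclic group of linear maps to the Singer group -/

theorem exists_singer {F V : Type} [Field F] [Fintype F] [CharP F 3] [AddCommGroup V] [Module F V]
    (hV : finrank F V = 4) {P : Set (Set (Submodule F V))} (hP : IsPacking P)
    (hR : ∀ S ∈ P, IsRegular S) (g : V ≃ₗ[F] V) (hg : ∀ S ∈ P, im g S ∈ P)
    (htr : ∀ S ∈ P, ∀ T ∈ P, ∃ n : ℕ, im (g ^ n) S = T) :
    ∃ (K : Type) (_ : Field K) (_ : Algebra F K) (e : V ≃ₗ[F] (F × K)), finrank F K = 3 ∧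
      ∀ (u : K) (hu : u ≠ 0),
        u ^ (Fintype.card F * Fintype.card F + Fintype.card F + 1) = 1 →
        ∀ S ∈ P, im ((e.trans (sing F u hu)).trans e.symm) S ∈ P := by
  sorry

end Pool.Agent.RegPack.C3
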