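import Pool.Agent.Lib_MP_cd200f_co.Trans

/-!
# Transitive linear groups in characteristic three: exact statements (stubs, never import this
file in a proof)
-/

namespace Pool.Agent.RegPack.C3

open Module

/-! ## T1 SylA.lean: the structure of the `r`-subgroups, `r ∣ q ^ 2 + q + 1` -/

theorem syl_struct {F V : Type} [Field F] [Fintype F] [CharP F 3] [AddCommGroup V] [Module F V]
    (hV : finrank F V = 4) {r : ℕ} (hr : r.Prime)
    (hdvd : r ∣ Fintype.card F ^ 2 + Fintype.card F + 1) (R : Subgroup (V ≃ₗ[F] V))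
    (hR : IsPGroup r R) (hne : R ≠ ⊥) :
    ∃ (K : Type) (_ : Field K) (_ : Algebra F K) (e : V ≃ₗ[F] (F × K)) (γ : R →* Kˣ),
      finrank F K = 3 ∧
      (∀ (ρ : R) (v : V), e ((ρ : V ≃ₗ[F] V) v) = ((e v).1, (γ ρ : K) * (e v).2)) ∧
      ∃ h : R, Algebra.adjoin F {((γ h : Kˣ) : K)} = ⊤ := by
  sorry

/-! ## T2 SylB.lean: consequences -/

theorem syl_cyc {F V K : Type} [Field F] [Fintype F] [CharP F 3] [AddCommGroup V] [Module F V]
    [Field K] [Algebra F K] (hK : finrank F K = 3) {r : ℕ} (hr : r.Prime)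
    (hdvd : r ∣ Fintype.card F ^ 2 + Fintype.card F + 1) (R : Subgroup (V ≃ₗ[F] V))
    (hR : IsPGroup r R) (e : V ≃ₗ[F] (F × K)) (γ : R →* Kˣ)
    (he : ∀ (ρ : R) (v : V), e ((ρ : V ≃ₗ[F] V) v) = ((e v).1, (γ ρ : K) * (e v).2)) :
    IsCyclic R ∧ Nat.card R ∣ Fintype.card F ^ 2 + Fintype.card F + 1 := by
  sorry

theorem syl_cube {F V K : Type} [Field F] [Fintype F] [CharP F 3] [AddCommGroup V] [Module F V]
    [Field K] [Algebra F K] (hK : finrank F K = 3) (R : Subgroup (V ≃ₗ[F] V))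
    (e : V ≃ₗ[F] (F × K)) (γ : R →* Kˣ)
    (he : ∀ (ρ : R) (v : V), e ((ρ : V ≃ₗ[F] V) v) = ((e v).1, (γ ρ : K) * (e v).2))
    (h : R) (hh : Algebra.adjoin F {((γ h : Kˣ) : K)} = ⊤) (g : V ≃ₗ[F] V)
    (hg : ∀ x ∈ R, g * x * g⁻¹ ∈ R) : ∀ x ∈ R, g ^ 3 * x = x * g ^ 3 := by
  sorry

/-! ## T3 SylC.lean: from the cube to the element itself (scalar_of_pow with `r = 3`) -/

theorem comm_of_cube {F V : Type} [Field F] [Fintype F] [CharP F 3] [AddCommGroup V] [Module F V]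
    (hV : finrank F V = 4) {P : Set (Set (Submodule F V))} (hP : IsPacking P)
    (hR : ∀ S ∈ P, IsRegular S) (g : V ≃ₗ[F] V) (hg : ∀ S ∈ P, im g S ∈ P) (x : V ≃ₗ[F] V)
    (h : g ^ 3 * x = x * g ^ 3) : g * x = x * g := by
  sorry

/-! ## T4 Grp.lean: group theory -/

theorem exists_cycle {H X : Type*} [Group H] [Finite H] [MulAction H X] [Finite X]
    [MulAction.IsPretransitive H X] [Nonempty X]
    (h : ∀ r : ℕ, r.Prime → r ∣ Nat.card X → ∀ R : Sylow r H, IsCyclic R ∧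
      Nat.card R ∣ Nat.card X ∧
      Subgroup.normalizer (R : Set H) ≤ Subgroup.centralizer (R : Set H)) :
    ∃ g : H, ∀ x y : X, ∃ m : ℕ, g ^ m • x = y := by
  sorry

end Pool.Agent.RegPack.C3
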