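import Pool.Agent.Lib_MP_cd200f_c3.CycA
import Pool.Agent.Lib_MP_cd200f_c3.CycB

/-!
# The structure of the `r`-subgroups, `r ∣ q ^ 2 + q + 1`
-/

namespace Pool.Agent.RegPack.C3

open Module Polynomial

theorem syl_invariant {F V : Type*} [Field F] [Fintype F] [CharP F 3] [AddCommGroup V] [Module F V]
    (hV : finrank F V = 4) {r : ℕ} (hr : r.Prime)
    (hdvd : r ∣ Fintype.card F ^ 2 + Fintype.card F + 1) (R : Subgroup (V ≃ₗ[F] V))
    (hR : IsPGroup r R) (hne : R ≠ ⊥) :
    ∃ (h : V ≃ₗ[F] V) (e : V) (U : Submodule F V), h ∈ R ∧ (∀ x ∈ R, x * h = h * x) ∧ e ≠ 0 ∧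
      e ∉ U ∧ finrank F U = 3 ∧ (∀ x ∈ R, x e = e) ∧ (∀ x ∈ R, ∀ v ∈ U, x v ∈ U) ∧
      ∀ W : Submodule F V, W ≤ U → (∀ v ∈ W, h v ∈ W) → W = ⊥ ∨ W = U := by
  have hfin := finite_space (F := F) (V := V) hV
  have hfd : FiniteDimensional F V := FiniteDimensional.of_finrank_pos (by rw [hV]; norm_num)
  have hfinG : Finite (V ≃ₗ[F] V) := Finite.of_injective (fun g => (g : V → V))
    (fun g h hgh => LinearEquiv.ext fun v => congrFun hgh v)
  have h3 := cyc_three_dvd (F := F)
  have hfact := Fact.mk hr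
  have hntR : Nontrivial R := (Subgroup.nontrivial_iff_ne_bot R).2 hne
  have hcen := hR.center_nontrivial
  have hcard : r ∣ Nat.card (Subgroup.center R) := by
    rcases (hR.to_subgroup (Subgroup.center R)).card_eq_or_dvd with h | h
    · exfalso
      exact (Finite.one_lt_card (α := Subgroup.center R)).ne' h
    · exact h
  obtain ⟨z, hz⟩ := exists_prime_orderOf_dvd_card' r hcard
  obtain ⟨h, hhdef⟩ : ∃ h : V ≃ₗ[F] V, h = ((z : R) : V ≃ₗ[F] V) := ⟨_, rfl⟩
  have hhR : h ∈ R := by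
    rw [hhdef]
    exact (z : R).2
  have hhr : orderOf h = r := by
    rw [hhdef, Subgroup.orderOf_coe, Subgroup.orderOf_coe, hz]
  have hcomm' : ∀ x ∈ R, x * h = h * x := by
    intro x hx
    have h1 := Subgroup.mem_center_iff.1 z.2 ⟨x, hx⟩
    rw [hhdef]
    exact congrArg Subtype.val h1
  have hhr1 : ∀ v, (h ^ r) v = v := by
    intro v
    rw [← hhr, pow_orderOf_eq_one]
    rfl
  have hcomm : ∀ x ∈ R, ∀ v, h (x v) = x (h v) := by
    intro x hx v
    exact congrArg (fun f : V ≃ₗ[F] V => f v) (hcomm' x hx).symm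
  -- the fixed space
  obtain ⟨D, hD, hDc⟩ := sub_modEq hV h hr hhr1 ⊤ (fun _ _ => Submodule.mem_top)
  rw [Nat.card_eq_fintype_card, finrank_top, hV] at hDc
  have hD3 := cyc_modEq hr h3 hdvd hDc
  have hDle : finrank F D ≤ 4 := by
    rw [← hV]
    exact Submodule.finrank_le D
  have hDne : finrank F D ≠ 4 := by
    intro h4
    have h5 : D = ⊤ := Submodule.eq_top_of_finrank_eq (by rw [h4, hV])
    have h6 : h = 1 := by
      ext v
      have h7 : v ∈ D := by
        rw [h5]
        exact Submodule.mem_top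
      exact ((hD v).1 h7).2
    rw [h6, orderOf_one] at hhr
    exact hr.ne_one hhr.symm
  have hD1 : finrank F D = 1 := by omega
  obtain ⟨⟨e₀, he₀⟩, hne', hspan⟩ := finrank_eq_one_iff'.1 hD1
  have he0 : e₀ ≠ 0 := fun h1 => hne' (Subtype.ext h1)
  have hfix : h e₀ = e₀ := ((hD e₀).1 he₀).2
  have hspan' : ∀ v ∈ D, ∃ c : F, c • e₀ = v := by
    intro v hv
    obtain ⟨c, hc⟩ := hspan ⟨v, hv⟩
    exact ⟨c, congrArg Subtype.val hc⟩
  have hRe : ∀ x ∈ R, x e₀ = e₀ := by
    intro x hx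
    obtain ⟨a, ha⟩ := hspan' (x e₀) ((hD _).2 ⟨Submodule.mem_top, by rw [hcomm x hx, hfix]⟩)
    have han : ∀ n : ℕ, (x ^ n) e₀ = a ^ n • e₀ := by
      intro n
      induction n with
      | zero => simp
      | succ n ih => rw [pow_succ, LinearEquiv.mul_apply, ← ha, map_smul, ih, smul_smul, pow_succ,
          mul_comm]
    obtain ⟨k, hk⟩ := hR ⟨x, hx⟩
    have hk' : x ^ r ^ k = 1 := congrArg Subtype.val hk
    have ha1 : a ^ r ^ k = 1 := by
      have h1 := han (r ^ k)
      rw [hk'] at h1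
      have h2 : (a ^ r ^ k - 1) • e₀ = 0 := by
        rw [sub_smul, one_smul, ← h1]
        exact sub_self _
      exact sub_eq_zero.1 ((smul_eq_zero.1 h2).resolve_right he0)
    have ha0 : a ≠ 0 := by
      rintro rfl
      rw [zero_pow (pow_ne_zero k hr.ne_zero)] at ha1
      exact zero_ne_one ha1
    have ha2 : a ^ (Fintype.card F - 1) = 1 := FiniteField.pow_card_sub_one_eq_one a ha0
    have hq : 0 < Fintype.card F := Fintype.card_pos
    have hco := geom_coprime (F := F) (by omega)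
    have hco2 : Nat.Coprime (r ^ k) (Fintype.card F - 1) := by
      refine Nat.Coprime.pow_left k (Nat.Coprime.coprime_dvd_left ?_ hco)
      rwa [pow_two] at hdvd
    have h4 := pow_gcd_eq_one.2 ⟨ha1, ha2⟩
    rw [hco2, pow_one] at h4
    rw [← ha, h4, one_smul]
  -- the complement
  set U : Submodule F V := LinearMap.range ((h : V →ₗ[F] V) - LinearMap.id) with hU
  have hUmem : ∀ v, v ∈ U ↔ ∃ w, h w - w = v := by
    intro v
    rw [hU, LinearMap.mem_range]
    rfl
  have hker : LinearMap.ker ((h : V →ₗ[F] V) - LinearMap.id) = D := by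
    ext v
    rw [LinearMap.mem_ker, hD, LinearMap.sub_apply, sub_eq_zero]
    exact ⟨fun h1 => ⟨Submodule.mem_top, h1⟩, fun h1 => h1.2⟩
  have hU3 : finrank F U = 3 := by
    have h1 := LinearMap.finrank_range_add_finrank_ker ((h : V →ₗ[F] V) - LinearMap.id)
    rw [hker, hV, hD1, ← hU] at h1
    exact Nat.add_right_cancel (m := 1) h1
  have heU : e₀ ∉ U := by
    intro h1
    obtain ⟨w, hw⟩ := (hUmem _).1 h1
    have h2 : ∀ m : ℕ, (h ^ m) w = w + (m : F) • e₀ := by
      intro m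
      induction m with
      | zero => simp
      | succ m ih =>
        rw [pow_succ']
        show h ((h ^ m) w) = _
        rw [ih, map_add, map_smul, hfix]
        have h4 : h w = w + e₀ := by
          rw [← hw]
          abel
        rw [h4]
        push_cast
        rw [add_smul, one_smul]
        abel
    have h4 := h2 r
    rw [hhr1] at h4
    have h5 : (r : F) • e₀ = 0 := by
      have := congrArg (fun z => z - w) h4
      simpa using this.symm
    rcases smul_eq_zero.1 h5 with h6 | h6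
    · exact (cyc_ne_three h3 hdvd hr.ne_one).1 ((CharP.cast_eq_zero_iff F 3 r).1 h6)
    · exact he0 h6
  refine ⟨h, e₀, U, hhR, hcomm', he0, heU, hU3, hRe, ?_, ?_⟩
  · intro x hx u hu
    obtain ⟨w, rfl⟩ := (hUmem _).1 hu
    rw [map_sub, ← hcomm x hx]
    exact (hUmem _).2 ⟨x w, rfl⟩
  · intro W hWU hW
    obtain ⟨D', hD', hDc'⟩ := sub_modEq hV h hr hhr1 W hW
    have hbot : D' = ⊥ := by
      rw [Submodule.eq_bot_iff]
      intro v hv
      obtain ⟨hvW, hvh⟩ := (hD' v).1 hv
      obtain ⟨c, hc⟩ := hspan' v ((hD v).2 ⟨Submodule.mem_top, hvh⟩)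
      by_cases hc0 : c = 0
      · rw [← hc, hc0, zero_smul]
      · exfalso
        apply heU
        have h1 : e₀ = c⁻¹ • v := by
          rw [← hc, smul_smul, inv_mul_cancel₀ hc0, one_smul]
        rw [h1]
        exact U.smul_mem _ (hWU hvW)
    rw [Nat.card_eq_fintype_card, hbot, finrank_bot] at hDc'
    have h1 := cyc_modEq hr h3 hdvd hDc'
    have h2 : finrank F W ≤ finrank F U := Submodule.finrank_mono hWU
    rw [hU3] at h2
    have h4 : finrank F W = 0 ∨ finrank F W = 3 := by omega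
    rcases h4 with h5 | h5
    · exact Or.inl (Submodule.finrank_eq_zero.1 h5)
    · exact Or.inr (Submodule.eq_of_le_of_finrank_eq hWU (by rw [h5, hU3]))

theorem syl_struct {F V : Type} [Field F] [Fintype F] [CharP F 3] [AddCommGroup V] [Module F V]
    (hV : finrank F V = 4) {r : ℕ} (hr : r.Prime)
    (hdvd : r ∣ Fintype.card F ^ 2 + Fintype.card F + 1) (R : Subgroup (V ≃ₗ[F] V))
    (hR : IsPGroup r R) (hne : R ≠ ⊥) :
    ∃ (K : Type) (_ : Field K) (_ : Algebra F K) (e : V ≃ₗ[F] (F × K)) (γ : R →* Kˣ),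
      finrank F K = 3 ∧
      (∀ (ρ : R) (v : V), e ((ρ : V ≃ₗ[F] V) v) = ((e v).1, (γ ρ : K) * (e v).2)) ∧
      ∃ h : R, Algebra.adjoin F {((γ h : Kˣ) : K)} = ⊤ := by
  classical
  obtain ⟨g, e₀, U, hgR, hcomm, he, heU, hU, hRe, hRU, hirr⟩ := syl_invariant hV hr hdvd R hR hne
  have hfV : FiniteDimensional F V := FiniteDimensional.of_finrank_pos (by rw [hV]; norm_num)
  have hnt : Nontrivial U := Module.nontrivial_of_finrank_pos (R := F) (by rw [hU]; norm_num)
  let T : Module.End F U := (g : V →ₗ[F] V).restrict (hRU g hgR)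
  have hT : ∀ w : U, ((T w : U) : V) = g w := fun w => rfl
  have hirrT : ∀ W : Submodule F U, (∀ w ∈ W, T w ∈ W) → W = ⊥ ∨ W = ⊤ := by
    intro W hW
    have h1 := hirr (W.map U.subtype) (Submodule.map_subtype_le U W) (by
      rintro _ ⟨w, hw, rfl⟩
      exact ⟨T w, hW w hw, rfl⟩)
    rcases h1 with h1 | h1
    · left
      rw [Submodule.eq_bot_iff]
      intro w hw
      have h2 : (w : V) ∈ W.map U.subtype := ⟨w, hw, rfl⟩
      rw [h1, Submodule.mem_bot] at h2
      exact Subtype.ext h2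
    · right
      rw [eq_top_iff]
      intro w _
      have h2 : (w : V) ∈ W.map U.subtype := by
        rw [h1]
        exact w.2
      obtain ⟨w', hw', h3⟩ := h2
      have h4 : w' = w := Subtype.ext h3
      rwa [h4] at hw'
  obtain ⟨K, hKf, hKa, φ, γ₀, hφ⟩ := cycb_field T hirrT
  have hK : finrank F K = 3 := by rw [φ.finrank_eq, hU]
  have hfK : FiniteDimensional F K := FiniteDimensional.of_finrank_pos (by rw [hK]; norm_num)
  -- K is generated by γ₀
  have htop : Algebra.adjoin F {γ₀} = ⊤ := by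
    rcases hirrT ((Subalgebra.toSubmodule (Algebra.adjoin F {γ₀})).map (φ : K →ₗ[F] U)) (by
      rintro _ ⟨k, hk, rfl⟩
      refine ⟨γ₀ * k, ?_, hφ k⟩
      exact (Algebra.adjoin F {γ₀}).mul_mem (Algebra.subset_adjoin rfl) hk) with h | h
    · exfalso
      have h1 : φ 1 ∈ (Subalgebra.toSubmodule (Algebra.adjoin F {γ₀})).map (φ : K →ₗ[F] U) :=
        ⟨1, (Algebra.adjoin F {γ₀}).one_mem, rfl⟩
      rw [h, Submodule.mem_bot] at h1
      exact one_ne_zero ((LinearEquiv.map_eq_zero_iff φ).1 h1)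
    · rw [eq_top_iff]
      intro k _
      have h1 : φ k ∈ (Subalgebra.toSubmodule (Algebra.adjoin F {γ₀})).map (φ : K →ₗ[F] U) := by
        rw [h]
        trivial
      obtain ⟨k', hk', h2⟩ := h1
      rwa [φ.injective h2] at hk'
  -- the isomorphism
  let Θ : (F × K) →ₗ[F] V := (LinearMap.toSpanSingleton F V e₀).coprod (U.subtype ∘ₗ φ.toLinearMap)
  have hΘ : ∀ x k, Θ (x, k) = x • e₀ + (φ k : V) := fun x k => by
    simp [Θ, LinearMap.coprod_apply]
  have hindep : ∀ (x : F) (w : V), w ∈ U → x • e₀ + w = 0 → x = 0 := by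
    intro x w hw h1
    by_contra hx
    apply heU
    have h2 : e₀ = x⁻¹ • (-w) := by
      rw [← eq_neg_of_add_eq_zero_left h1, smul_smul, inv_mul_cancel₀ hx, one_smul]
    rw [h2]
    exact U.smul_mem _ (U.neg_mem hw)
  have hinj : Function.Injective Θ := by
    rw [← LinearMap.ker_eq_bot, LinearMap.ker_eq_bot']
    rintro ⟨x, k⟩ h
    rw [hΘ] at h
    have h1 := hindep x _ (φ k).2 h
    subst h1
    rw [zero_smul, zero_add] at h
    have h2 : φ k = 0 := Subtype.ext h
    rw [(LinearEquiv.map_eq_zero_iff φ).1 h2]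
    rfl
  have hdim : finrank F (F × K) = finrank F V := by rw [finrank_prod, finrank_self, hK, hV]
  let e : V ≃ₗ[F] (F × K) := (LinearMap.linearEquivOfInjective Θ hinj hdim).symm
  have hes : ∀ p, e.symm p = Θ p := fun p => rfl
  have he' : ∀ x k, e (x • e₀ + (φ k : V)) = (x, k) := by
    intro x k
    rw [← hΘ, ← hes, LinearEquiv.apply_symm_apply]
  -- the multiplier
  let m : R → K := fun ρ => φ.symm ⟨(ρ : V ≃ₗ[F] V) (φ 1 : V), hRU ρ ρ.2 _ (φ 1).2⟩
  have hm : ∀ ρ : R, (φ (m ρ) : V) = (ρ : V ≃ₗ[F] V) (φ 1 : V) := by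
    intro ρ
    simp only [m, LinearEquiv.apply_symm_apply]
  have hmul : ∀ (ρ : R) (k : K), (φ (m ρ * k) : V) = (ρ : V ≃ₗ[F] V) (φ k : V) := by
    intro ρ
    have h1 : ∀ k ∈ Algebra.adjoin F {γ₀}, (φ (m ρ * k) : V) = (ρ : V ≃ₗ[F] V) (φ k : V) := by
      -- the set of such k is stable under multiplication by γ₀
      have h2 : ∀ k : K, (φ (m ρ * k) : V) = (ρ : V ≃ₗ[F] V) (φ k : V) →
          (φ (m ρ * (γ₀ * k)) : V) = (ρ : V ≃ₗ[F] V) (φ (γ₀ * k) : V) := by
        intro k hk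
        have h3 : m ρ * (γ₀ * k) = γ₀ * (m ρ * k) := by ring
        rw [h3, hφ, hφ, hT, hT, hk]
        have h4 := congrArg (fun x : V ≃ₗ[F] V => x (φ k : V)) (hcomm ρ ρ.2)
        exact h4.symm
      have h5 : ∀ n : ℕ, (φ (m ρ * γ₀ ^ n) : V) = (ρ : V ≃ₗ[F] V) (φ (γ₀ ^ n) : V) := by
        intro n
        induction n with
        | zero => rw [pow_zero, mul_one, hm]
        | succ n ih => rw [pow_succ']; exact h2 _ ih
      intro k hk
      rw [Algebra.adjoin_singleton_eq_range_aeval] at hk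
      obtain ⟨p, rfl⟩ := hk
      change (φ (m ρ * aeval γ₀ p) : V) = (ρ : V ≃ₗ[F] V) (φ (aeval γ₀ p) : V)
      induction p using Polynomial.induction_on' with
      | add p q hp hq =>
        simp only [map_add, mul_add, Submodule.coe_add] at hp hq ⊢
        rw [hp, hq]
      | monomial n a =>
        rw [aeval_monomial, ← Algebra.smul_def, mul_smul_comm, map_smul, map_smul,
          Submodule.coe_smul, Submodule.coe_smul, h5, map_smul]
    intro k
    exact h1 k (by rw [htop]; trivial)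
  have hm1 : m 1 = 1 := by
    apply φ.injective
    apply Subtype.ext
    rw [hm]
    rfl
  have hmm : ∀ ρ ρ' : R, m (ρ * ρ') = m ρ * m ρ' := by
    intro ρ ρ'
    apply φ.injective
    apply Subtype.ext
    rw [hmul, hm, hm]
    rfl
  let γ : R →* Kˣ :=
    { toFun := fun ρ => ⟨m ρ, m ρ⁻¹, by rw [← hmm, mul_inv_cancel, hm1],
        by rw [← hmm, inv_mul_cancel, hm1]⟩
      map_one' := Units.ext hm1
      map_mul' := fun ρ ρ' => Units.ext (hmm ρ ρ') }
  refine ⟨K, hKf, hKa, e, γ, hK, ?_, ⟨g, hgR⟩, ?_⟩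
  · intro ρ v
    obtain ⟨⟨x, y⟩, rfl⟩ := e.symm.surjective v
    rw [LinearEquiv.apply_symm_apply, hes, hΘ, map_add, map_smul, hRe ρ ρ.2, ← hmul, he']
    rfl
  · change Algebra.adjoin F {m ⟨g, hgR⟩} = ⊤
    have h1 : m ⟨g, hgR⟩ = γ₀ := by
      apply φ.injective
      apply Subtype.ext
      rw [hm]
      have h2 := congrArg Subtype.val (hφ 1)
      rw [mul_one] at h2
      exact h2.symm
    rw [h1, htop]

end Pool.Agent.RegPack.C3
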