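import Mathlib
import Pool.Agent.Lib_MP_cd200f_c3.Defs
import Pool.Agent.Lib_MP_cd200f_c3.Geom

/-!
# The `r`-subgroups are cyclic of order dividing `q ^ 2 + q + 1`
-/

namespace Pool.Agent.RegPack.C3

open Module

theorem sylb_not_dvd {F : Type} [Field F] [Fintype F] [CharP F 3] :
    ¬ 3 ∣ Fintype.card F - 1 := by
  intro h
  obtain ⟨n, -, hn⟩ := FiniteField.card F 3
  have h1 : 3 ∣ Fintype.card F := by
    rw [hn]
    exact dvd_pow_self 3 n.ne_zero
  have h2 : 0 < Fintype.card F := Fintype.card_pos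
  omega

theorem syl_cyc {F V K : Type} [Field F] [Fintype F] [CharP F 3] [AddCommGroup V] [Module F V]
    [Field K] [Algebra F K] (hK : finrank F K = 3) {r : ℕ} (hr : r.Prime)
    (hdvd : r ∣ Fintype.card F ^ 2 + Fintype.card F + 1) (R : Subgroup (V ≃ₗ[F] V))
    (hR : IsPGroup r R) (e : V ≃ₗ[F] (F × K)) (γ : R →* Kˣ)
    (he : ∀ (ρ : R) (v : V), e ((ρ : V ≃ₗ[F] V) v) = ((e v).1, (γ ρ : K) * (e v).2)) :
    IsCyclic R ∧ Nat.card R ∣ Fintype.card F ^ 2 + Fintype.card F + 1 := by
  classical
  have hfin : FiniteDimensional F K := FiniteDimensional.of_finrank_pos (by rw [hK]; norm_num)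
  have hKf : Finite K := Module.finite_of_finite F
  have hinj : Function.Injective γ := by
    intro a b hab
    apply Subtype.ext
    apply LinearEquiv.ext
    intro v
    apply e.injective
    rw [he, he, hab]
  have hRf : Finite R := Finite.of_injective γ hinj
  have hcyc : IsCyclic R :=
    isCyclic_of_injective_ringHom ((Units.coeHom K).comp γ) (Units.val_injective.comp hinj)
  refine ⟨hcyc, ?_⟩
  have hcardK : Nat.card Kˣ = (Fintype.card F - 1) * (Fintype.card F ^ 2 + Fintype.card F + 1) := by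
    have h1 : Nat.card K = Fintype.card F ^ 3 := by
      rw [← hK, ← Nat.card_eq_fintype_card]
      exact Module.natCard_eq_pow_finrank
    rw [Nat.card_units, h1]
    obtain ⟨m, hm⟩ : ∃ m, Fintype.card F = m + 1 := ⟨Fintype.card F - 1, by
      have : 0 < Fintype.card F := Fintype.card_pos
      omega⟩
    rw [hm, Nat.add_sub_cancel]
    apply Nat.sub_eq_of_eq_add
    ring
  have hdvd1 : Nat.card R ∣ Nat.card Kˣ := Subgroup.card_dvd_of_injective γ hinj
  have hfr : Fact r.Prime := ⟨hr⟩
  obtain ⟨k, hk⟩ := IsPGroup.iff_card.1 hR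
  rw [hcardK, hk] at hdvd1
  have hco : Nat.Coprime r (Fintype.card F - 1) := by
    have h1 := geom_coprime (F := F) sylb_not_dvd
    have h2 : Fintype.card F * Fintype.card F + Fintype.card F + 1 =
        Fintype.card F ^ 2 + Fintype.card F + 1 := by ring
    rw [h2] at h1
    exact Nat.Coprime.coprime_dvd_left hdvd h1
  rw [hk]
  exact (Nat.Coprime.pow_left k hco).dvd_of_dvd_mul_left hdvd1

end Pool.Agent.RegPack.C3
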