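import Mathlib

/-!
# Transitive linear groups in characteristic three: the cube of an element of the normaliser
commutes with the `r`-subgroup (piece T2, second part)
-/

namespace Pool.Agent.RegPack.C3

open Module

/-- a linear map `ψ` of `K` with `ψ 1 = 1` and `ψ (γ y) = ψ γ * ψ y` for a generator `γ` is
multiplicative -/
theorem sylB2_mul {F K : Type*} [Field F] [Field K] [Algebra F K] (ψ : K →ₗ[F] K)
    (h1 : ψ 1 = 1) {γ : K} (hγ : Algebra.adjoin F {γ} = ⊤)
    (hm : ∀ y, ψ (γ * y) = ψ γ * ψ y) (z y : K) : ψ (z * y) = ψ z * ψ y := by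
  have hz : z ∈ Algebra.adjoin F {γ} := by rw [hγ]; exact Algebra.mem_top
  revert y
  induction hz using Algebra.adjoin_induction with
  | mem x hx =>
    rw [Set.mem_singleton_iff] at hx
    subst hx
    exact hm
  | algebraMap r =>
    intro y
    rw [Algebra.algebraMap_eq_smul_one, smul_mul_assoc, one_mul, map_smul, map_smul, h1,
      smul_mul_assoc, one_mul]
  | add a b _ _ ha hb =>
    intro y
    rw [add_mul, map_add, ha, hb, map_add, add_mul]
  | mul a b _ _ ha hb =>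
    intro y
    rw [mul_assoc, ha, hb, ← mul_assoc, ha b]

/-- the third power of an automorphism of a cubic extension of finite fields is the identity -/
theorem sylB2_cube {F K : Type*} [Field F] [Fintype F] [Field K] [Algebra F K]
    (hK : finrank F K = 3) (ψ : K →ₗ[F] K) (h1 : ψ 1 = 1) (hm : ∀ z y, ψ (z * y) = ψ z * ψ y)
    (z : K) : ψ (ψ (ψ z)) = z := by
  have : FiniteDimensional F K := FiniteDimensional.of_finrank_pos (by omega)
  have : Finite K := Module.finite_of_finite F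
  let f : K →ₐ[F] K := AlgHom.ofLinearMap ψ h1 hm
  have hf : Function.Bijective f := Finite.injective_iff_bijective.1 f.toRingHom.injective
  let g : K ≃ₐ[F] K := AlgEquiv.ofBijective f hf
  have hg : g ^ 3 = 1 := by
    have h2 : Nat.card (K ≃ₐ[F] K) = 3 := by
      rw [IsGalois.card_aut_eq_finrank, hK]
    rw [← h2]
    exact pow_card_eq_one'
  have h3 : (g ^ 3) z = z := by rw [hg]; rfl
  exact h3

theorem syl_cube {F V K : Type} [Field F] [Fintype F] [CharP F 3] [AddCommGroup V] [Module F V]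
    [Field K] [Algebra F K] (hK : finrank F K = 3) (R : Subgroup (V ≃ₗ[F] V))
    (e : V ≃ₗ[F] (F × K)) (γ : R →* Kˣ)
    (he : ∀ (ρ : R) (v : V), e ((ρ : V ≃ₗ[F] V) v) = ((e v).1, (γ ρ : K) * (e v).2))
    (h : R) (hh : Algebra.adjoin F {((γ h : Kˣ) : K)} = ⊤) (g : V ≃ₗ[F] V)
    (hg : ∀ x ∈ R, g * x * g⁻¹ ∈ R) : ∀ x ∈ R, g ^ 3 * x = x * g ^ 3 := by
  -- the element conjugate to `x`
  obtain ⟨σ, hσ⟩ : ∃ σ : R → R, ∀ x : R, (σ x : V ≃ₗ[F] V) = g * x * g⁻¹ :=
    ⟨fun x => ⟨g * x * g⁻¹, hg x x.2⟩, fun _ => rfl⟩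
  have hcomm : ∀ (x : R) (v : V), g ((x : V ≃ₗ[F] V) v) = (σ x : V ≃ₗ[F] V) (g v) := by
    intro x v
    rw [hσ]
    change g ((x : V ≃ₗ[F] V) v) = g ((x : V ≃ₗ[F] V) (g⁻¹ (g v)))
    have h1 : g⁻¹ (g v) = v := by
      change (g⁻¹ * g) v = v
      rw [inv_mul_cancel]
      rfl
    rw [h1]
  have key : ∀ (x : R) (v : V), e (g ((x : V ≃ₗ[F] V) v)) =
      ((e (g v)).1, (γ (σ x) : K) * (e (g v)).2) := by
    intro x v
    rw [hcomm, he]
  -- the generator is not one
  have hh1 : ((γ h : Kˣ) : K) ≠ 1 := by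
    intro h1
    rw [h1] at hh
    have h2 : (⊥ : Subalgebra F K) = ⊤ := by
      rw [← hh]
      symm
      rw [eq_bot_iff]
      exact Algebra.adjoin_le (by
        rintro _ rfl
        exact one_mem _)
    have h3 := Subalgebra.bot_eq_top_iff_finrank_eq_one.1 h2
    omega
  have hh2 : ((γ (σ h) : Kˣ) : K) ≠ 1 := by
    intro h1
    apply hh1
    have h2 : (σ h : V ≃ₗ[F] V) = 1 := by
      ext v
      apply e.injective
      rw [he, h1, one_mul]
      rfl
    rw [hσ] at h2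
    have h3 : (h : V ≃ₗ[F] V) = 1 := by
      have h4 : g * (h : V ≃ₗ[F] V) = g := by
        rw [mul_inv_eq_one] at h2
        exact h2
      exact mul_eq_left.1 h4
    have h5 : h = 1 := Subtype.ext h3
    rw [h5, map_one, Units.val_one]
  -- the two components of `g`
  let φ : K →ₗ[F] K := (LinearMap.snd F F K).comp
    ((e.toLinearMap.comp (g.toLinearMap.comp e.symm.toLinearMap)).comp (LinearMap.inr F F K))
  have hφ : ∀ y, φ y = (e (g (e.symm (0, y)))).2 := fun _ => rfl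
  let b : K →ₗ[F] F := (LinearMap.fst F F K).comp
    ((e.toLinearMap.comp (g.toLinearMap.comp e.symm.toLinearMap)).comp (LinearMap.inr F F K))
  have hb : ∀ y, b y = (e (g (e.symm (0, y)))).1 := fun _ => rfl
  have hsymm : ∀ (x : R) (y : K), e.symm (0, (γ x : K) * y) =
      (x : V ≃ₗ[F] V) (e.symm (0, y)) := by
    intro x y
    rw [LinearEquiv.symm_apply_eq, he, LinearEquiv.apply_symm_apply]
  have hφ1 : ∀ (x : R) (y : K), φ ((γ x : K) * y) = (γ (σ x) : K) * φ y := by
    intro x y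
    rw [hφ, hφ, hsymm, key]
  have hb1 : ∀ (y : K), b ((γ h : K) * y) = b y := by
    intro y
    rw [hb, hb, hsymm, key]
  have hb0 : ∀ y, b y = 0 := by
    intro y
    have h1 : ((γ h : Kˣ) : K) - 1 ≠ 0 := sub_ne_zero.2 hh1
    have h2 : y = (γ h : K) * ((((γ h : Kˣ) : K) - 1)⁻¹ * y) -
        (((γ h : Kˣ) : K) - 1)⁻¹ * y := by
      field_simp
    rw [h2, map_sub, hb1, sub_self]
  have hc0 : (e (g (e.symm (1, 0)))).2 = 0 := by
    have h1 : e.symm ((1 : F), (0 : K)) = (h : V ≃ₗ[F] V) (e.symm (1, 0)) := by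
      rw [LinearEquiv.symm_apply_eq, he, LinearEquiv.apply_symm_apply]
      simp
    have h2 := key h (e.symm (1, 0))
    rw [← h1] at h2
    have h3 := congrArg Prod.snd h2
    simp only at h3
    have h4 : (((γ (σ h) : Kˣ) : K) - 1) * (e (g (e.symm (1, 0)))).2 = 0 := by
      rw [sub_mul, one_mul, ← h3, sub_self]
    exact (mul_eq_zero.1 h4).resolve_left (sub_ne_zero.2 hh2)
  have hG : ∀ v, e (g v) = ((e (g (e.symm (1, 0)))).1 * (e v).1, φ (e v).2) := by
    intro v
    have h1 : v = (e v).1 • e.symm (1, 0) + e.symm (0, (e v).2) := by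
      apply e.injective
      rw [map_add, map_smul, LinearEquiv.apply_symm_apply, LinearEquiv.apply_symm_apply]
      ext <;> simp
    have h2 : e (g v) = (e v).1 • e (g (e.symm (1, 0))) + e (g (e.symm (0, (e v).2))) := by
      conv_lhs => rw [h1]
      rw [map_add, map_smul, map_add, map_smul]
    rw [h2]
    ext
    · have h3 := hb0 (e v).2
      rw [hb] at h3
      simp [h3, mul_comm]
    · simp [hc0, hφ]
  -- `ψ = φ / φ 1`
  have hu : φ 1 ≠ 0 := by
    intro h1
    have h2 : e (g (e.symm (0, 1))) = 0 := by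
      rw [hG, LinearEquiv.apply_symm_apply]
      simp [h1]
    have h3 : e.symm ((0 : F), (1 : K)) = 0 := by
      apply g.injective
      apply e.injective
      rw [h2, map_zero, map_zero]
    have h4 := congrArg e h3
    rw [LinearEquiv.apply_symm_apply, map_zero] at h4
    exact one_ne_zero (congrArg Prod.snd h4)
  let ψ : K →ₗ[F] K := (LinearMap.mulLeft F (φ 1)⁻¹).comp φ
  have hψ : ∀ y, ψ y = (φ 1)⁻¹ * φ y := fun _ => rfl
  have hφψ : ∀ y, φ y = φ 1 * ψ y := by
    intro y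
    rw [hψ, mul_inv_cancel_left₀ hu]
  have hψ1 : ψ 1 = 1 := by rw [hψ, inv_mul_cancel₀ hu]
  have hψγ : ∀ x : R, ψ (γ x : K) = (γ (σ x) : K) := by
    intro x
    have h1 := hφ1 x 1
    rw [mul_one] at h1
    rw [hψ, h1, mul_left_comm, inv_mul_cancel₀ hu, mul_one]
  have hψm : ∀ (x : R) (y : K), ψ ((γ x : K) * y) = ψ (γ x : K) * ψ y := by
    intro x y
    rw [hψγ, hψ ((γ x : K) * y), hφ1, hψ y, mul_left_comm]
  have hmul := sylB2_mul ψ hψ1 hh (hψm h)
  have hcube := sylB2_cube hK ψ hψ1 hmul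
  have hφm : ∀ z y, φ (z * y) = ψ z * φ y := by
    intro z y
    rw [hφψ (z * y), hmul, hφψ y]
    ring
  obtain ⟨a, ha⟩ : ∃ a : F, ∀ v, e (g v) = (a * (e v).1, φ (e v).2) := ⟨_, hG⟩
  intro x hx
  ext v
  apply e.injective
  have h1 : (g ^ 3 * x) v = g (g (g (x v))) := rfl
  have h2 : (x * g ^ 3) v = x (g (g (g v))) := rfl
  have hex : ∀ w, e (x w) = ((e w).1, (γ ⟨x, hx⟩ : K) * (e w).2) := fun w => he ⟨x, hx⟩ w
  rw [h1, h2, hex, ha (g (g (x v))), ha (g (x v)), ha (x v), hex, ha (g (g v)), ha (g v), ha v]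
  ext
  · rfl
  · change φ (φ (φ ((γ ⟨x, hx⟩ : K) * (e v).2))) = (γ ⟨x, hx⟩ : K) * φ (φ (φ (e v).2))
    rw [hφm, hφm, hφm, hcube]

end Pool.Agent.RegPack.C3
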