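import Pool.Agent.Lib_MP_cd200f_co.Trans

/-!
# T3: an element whose cube commutes with `x` commutes with `x`
-/

namespace Pool.Agent.RegPack.C3

open Module

theorem comm_of_cube {F V : Type} [Field F] [Fintype F] [CharP F 3] [AddCommGroup V] [Module F V]
    (hV : finrank F V = 4) {P : Set (Set (Submodule F V))} (hP : IsPacking P)
    (hR : ∀ S ∈ P, IsRegular S) (g : V ≃ₗ[F] V) (hg : ∀ S ∈ P, im g S ∈ P) (x : V ≃ₗ[F] V)
    (h : g ^ 3 * x = x * g ^ 3) : g * x = x * g := by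
  obtain ⟨n, _, hn⟩ := FiniteField.card F 3
  have h3 : 3 ∣ Nat.card F := by
    rw [Nat.card_eq_fintype_card, hn]
    exact dvd_pow_self 3 n.pos.ne'
  have hpos : 0 < Nat.card F := Nat.card_pos
  have hF : 2 < Nat.card F := by
    obtain ⟨k, hk⟩ := h3
    omega
  have hfin := finite_space (F := F) (V := V) hV
  have hfinG : Finite (V ≃ₗ[F] V) := Finite.of_injective (fun g => (g : V → V))
    (fun g h hgh => LinearEquiv.ext fun v => congrFun hgh v)
  obtain ⟨a, m, hm, hN⟩ :=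
    Nat.exists_eq_pow_mul_and_not_dvd (orderOf_pos g).ne' 3 (by norm_num)
  have hcop : IsCoprime ((3 ^ (a + 1) : ℕ) : ℤ) (m : ℤ) := by
    rw [Nat.isCoprime_iff_coprime]
    exact Nat.Coprime.pow_left _ ((Nat.Prime.coprime_iff_not_dvd Nat.prime_three).2 hm)
  obtain ⟨y, z, hyz⟩ := hcop
  -- the part of `3`-power order
  obtain ⟨k, hk⟩ : ∃ k : ℕ, g ^ k = g ^ (z * (m : ℤ)) := by
    have h1 : g ^ (z * (m : ℤ)) ∈ Subgroup.zpowers g := ⟨_, rfl⟩
    rw [← mem_powers_iff_mem_zpowers] at h1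
    exact h1
  have hpow : ∀ (k : ℕ), ∀ S ∈ P, im (g ^ k) S ∈ P := by
    intro k
    induction k with
    | zero => intro S hS; rw [pow_zero, im_one]; exact hS
    | succ k ihk => intro S hS; rw [pow_succ, im_mul]; exact ihk _ (hg S hS)
  have hw : (g ^ k) ^ 3 ^ a = 1 := by
    rw [hk, ← zpow_natCast, ← zpow_mul]
    have e : z * (m : ℤ) * ((3 ^ a : ℕ) : ℤ) = (orderOf g : ℤ) * z := by
      rw [hN]
      push_cast
      ring
    rw [e, zpow_mul, zpow_natCast, pow_orderOf_eq_one, one_zpow]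
  obtain ⟨μ, hμ⟩ := scalar_of_pow hF hV hP hR Nat.prime_three (by norm_num)
    (Dvd.dvd.mul_right h3 _) a (g ^ k) (hpow k) hw
  have hc1 : Commute (g ^ k) x := by
    apply LinearEquiv.ext
    intro v
    change (g ^ k) (x v) = x ((g ^ k) v)
    rw [hμ, hμ, map_smul]
  have hc2 : Commute ((g ^ 3) ^ (y * ((3 ^ a : ℕ) : ℤ))) x := Commute.zpow_left h _
  have hg' : g = (g ^ 3) ^ (y * ((3 ^ a : ℕ) : ℤ)) * g ^ k := by
    rw [hk, ← zpow_natCast g 3, ← zpow_mul, ← zpow_add]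
    have e : ((3 : ℕ) : ℤ) * (y * ((3 ^ a : ℕ) : ℤ)) + z * (m : ℤ) = 1 := by
      rw [← hyz]
      push_cast
      ring
    rw [e, zpow_one]
  rw [hg']
  exact hc2.mul_left hc1

end Pool.Agent.RegPack.C3
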