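import Pool.Agent.Lib_MP_cd200f_c3.Main
import Pool.Agent.Lib_MP_cd200f_c3.SylA
import Pool.Agent.Lib_MP_cd200f_c3.SylB
import Pool.Agent.Lib_MP_cd200f_c3.SylB2
import Pool.Agent.Lib_MP_cd200f_c3.SylC
import Pool.Agent.Lib_MP_cd200f_c3.Grp

/-!
# Transitive linear groups on the spreads of a regular packing exist only for `q ≡ 2` modulo `3`
-/

namespace Pool.Agent.RegPack.C3

open Module

theorem trans_char3 {F V : Type} [Field F] [Fintype F] [CharP F 3] [AddCommGroup V] [Module F V]
    (hV : finrank F V = 4) {P : Set (Set (Submodule F V))} (hP : IsPacking P)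
    (hR : ∀ S ∈ P, IsRegular S) (H : Subgroup (V ≃ₗ[F] V)) (hH : ∀ g ∈ H, ∀ S ∈ P, im g S ∈ P)
    (htr : ∀ S ∈ P, ∀ T ∈ P, ∃ g ∈ H, im g S = T) : False := by
  have hfin := finite_space (F := F) (V := V) hV
  have hfinG : Finite (V ≃ₗ[F] V) := Finite.of_injective (fun g => (g : V → V))
    (fun g h hgh => LinearEquiv.ext fun v => congrFun hgh v)
  have hfinS : Finite (Submodule F V) := Finite.of_injective _ SetLike.coe_injective
  have hfinP : Finite P := inferInstance
  have hcard := card_packing hV hP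
  rw [Nat.card_eq_fintype_card (α := F)] at hcard
  have hne : Nonempty P := by
    rw [← not_isEmpty_iff]
    intro h
    rw [Nat.card_of_isEmpty] at hcard
    omega
  let act : MulAction H P :=
    { smul := fun g S => ⟨im g.1 S.1, hH g.1 g.2 S.1 S.2⟩
      one_smul := fun S => Subtype.ext (im_one S.1)
      mul_smul := fun g h S => Subtype.ext (im_mul g.1 h.1 S.1) }
  have hact : ∀ (g : H) (S : P), ((g • S : P) : Set (Submodule F V)) = im g.1 S.1 :=
    fun _ _ => rfl
  have htrans : MulAction.IsPretransitive H P := ⟨fun S T => by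
    obtain ⟨g, hg, h⟩ := htr S.1 S.2 T.1 T.2
    exact ⟨⟨g, hg⟩, Subtype.ext h⟩⟩
  obtain ⟨g, hg⟩ := exists_cycle (H := H) (X := P) (by
    intro r hr hdvd R
    rw [hcard] at hdvd ⊢
    let R' : Subgroup (V ≃ₗ[F] V) := (R : Subgroup H).map H.subtype
    let eR : (R : Subgroup H) ≃* R' :=
      (R : Subgroup H).equivMapOfInjective H.subtype H.subtype_injective
    have hmem : ∀ x : H, x ∈ (R : Subgroup H) ↔ (x : V ≃ₗ[F] V) ∈ R' := by
      intro x
      constructor
      · intro hx
        exact ⟨x, hx, rfl⟩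
      · rintro ⟨y, hy, hxy⟩
        have : y = x := Subtype.ext hxy
        rw [← this]
        exact hy
    have hpR : IsPGroup r R' := R.isPGroup'.map H.subtype
    by_cases hbot : R' = ⊥
    · have hRbot : (R : Subgroup H) = ⊥ := by
        rw [eq_bot_iff]
        intro x hx
        have h1 := (hmem x).1 hx
        rw [hbot, Subgroup.mem_bot] at h1
        rw [Subgroup.mem_bot]
        exact Subtype.ext h1
      have hsub : Subsingleton (R : Subgroup H) := by
        rw [hRbot]
        infer_instance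
      refine ⟨inferInstance, ?_, ?_⟩
      · rw [Nat.card_eq_one_iff_unique.2 ⟨hsub, ⟨1⟩⟩]
        exact one_dvd _
      · intro x _
        rw [Subgroup.mem_centralizer_iff]
        intro y hy
        have h1 : y ∈ (R : Subgroup H) := hy
        rw [hRbot, Subgroup.mem_bot] at h1
        rw [h1, one_mul, mul_one]
    · obtain ⟨K, iK, iA, e, γ, hK, he, h, hh⟩ := syl_struct hV hr hdvd R' hpR hbot
      obtain ⟨hc, hd⟩ := syl_cyc hK hr hdvd R' hpR e γ he
      refine ⟨?_, ?_, ?_⟩
      · exact isCyclic_of_injective eR.toMonoidHom eR.injective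
      · rw [Nat.card_congr eR.toEquiv]
        exact hd
      · intro g hg
        rw [Subgroup.mem_centralizer_iff]
        intro y hy
        have hy' : y ∈ (R : Subgroup H) := hy
        have hgN : ∀ x ∈ R', (g : V ≃ₗ[F] V) * x * (g : V ≃ₗ[F] V)⁻¹ ∈ R' := by
          rintro _ ⟨x, hx, rfl⟩
          have h1 := (Subgroup.mem_normalizer_iff.1 hg x).1 hx
          exact ⟨g * x * g⁻¹, h1, rfl⟩
        have h3 := syl_cube hK R' e γ he h hh g hgN y ((hmem y).1 hy')
        have h4 := comm_of_cube hV hP hR (g : V ≃ₗ[F] V) (hH g.1 g.2) y h3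
        exact Subtype.ext h4.symm)
  refine no_char3 hV hP hR g.1 (hH g.1 g.2) fun S hS T hT => ?_
  obtain ⟨m, hm⟩ := hg ⟨S, hS⟩ ⟨T, hT⟩
  refine ⟨m, ?_⟩
  have h1 := congrArg Subtype.val hm
  rw [hact] at h1
  exact h1

/-- **Main theorem**, transitive form. -/
theorem trans_mod {F V : Type} [Field F] [Finite F] [AddCommGroup V] [Module F V]
    (hV : finrank F V = 4) {P : Set (Set (Submodule F V))} (hP : IsPacking P)
    (hR : ∀ S ∈ P, IsRegular S) (H : Subgroup (V ≃ₗ[F] V)) (hH : ∀ g ∈ H, ∀ S ∈ P, im g S ∈ P)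
    (htr : ∀ S ∈ P, ∀ T ∈ P, ∃ g ∈ H, im g S = T) : Nat.card F % 3 = 2 := by
  have hone : 1 < Nat.card F := Finite.one_lt_card
  have h0 : Nat.card F % 3 ≠ 0 := by
    intro h
    have := charP_of_dvd (F := F) Nat.prime_three (Nat.dvd_of_mod_eq_zero h)
    have : Fintype F := Fintype.ofFinite F
    exact trans_char3 hV hP hR H hH htr
  have h1 : Nat.card F % 3 ≠ 1 := by
    by_cases h2 : 2 < Nat.card F
    · exact no_trans h2 hV hP hR H hH htr
    · omega
  omega

end Pool.Agent.RegPack.C3
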